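import Pool.Agent.W376.CB.Trunc
import Pool.Agent.W135.CB.Tf

/-!
# The one-particle gap as a hopping between all pairs of points of the torus
-/

set_option autoImplicit false

open MeasureTheory Filter
open scoped ENNReal

namespace Pool.Agent.Q233.BG

open Pool.Agent.W761.CB Pool.Agent.W376.CB

noncomputable section

variable {n : ℕ} {L : ℝ}

/-- the fundamental domain -/
def fd (n : ℕ) (L : ℝ) : Set (Fin n → ℝ) := {z | ∀ c, -(L / 2) < z c ∧ z c ≤ L / 2}

/-- the kernel with the value `κ / L^n` on the fundamental domain -/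
def kg (n : ℕ) (L κ : ℝ) : (Fin n → ℝ) → ℝ≥0∞ :=
  (fd n L).indicator fun _ => ENNReal.ofReal (κ / L ^ n)

lemma fd_meas : MeasurableSet (fd n L) := by
  unfold fd
  rw [Set.ofPred_forall]
  refine MeasurableSet.iInter fun c => ?_
  exact (measurableSet_lt measurable_const (measurable_pi_apply c)).inter
    (measurableSet_le (measurable_pi_apply c) measurable_const)

lemma kg_meas (κ : ℝ) : Measurable (kg n L κ) := measurable_const.indicator fd_meas

lemma kg_lint (κ : ℝ) (G : (Fin n → ℝ) → ℝ≥0∞) :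
    ∫⁻ z, kg n L κ z * G z = ENNReal.ofReal (κ / L ^ n) * ∫⁻ z in fd n L, G z := by
  have e : ∀ z, kg n L κ z * G z =
      (fd n L).indicator (fun z => ENNReal.ofReal (κ / L ^ n) * G z) z := by
    intro z
    unfold kg
    by_cases hz : z ∈ fd n L
    · rw [Set.indicator_of_mem hz, Set.indicator_of_mem hz]
    · rw [Set.indicator_of_notMem hz, Set.indicator_of_notMem hz, zero_mul]
  rw [lintegral_congr e, lintegral_indicator fd_meas, lintegral_const_mul' _ _ ENNReal.ofReal_ne_top]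

variable [Fact (0 < L)]

lemma fd_vol (hTF : S_TF) : volume (fd n L) = ENNReal.ofReal (L ^ n) := by
  obtain ⟨h1, -, -, h4, -⟩ := hTF n L
  have h := h4 (fun _ => 1) measurable_const
  rw [lintegral_const, one_mul, lintegral_const, one_mul, Measure.restrict_apply_univ, h1] at h
  exact h.symm

/-- the total strength of the kernel -/
lemma kg_total (hTF : S_TF) {κ : ℝ} :
    ∫⁻ z, kg n L κ z * ENNReal.ofReal (min 1 (el z ^ 2)) ≤ ENNReal.ofReal κ := by
  have hL : 0 < L := Fact.out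
  have hV : 0 < L ^ n := by positivity
  rw [kg_lint]
  calc ENNReal.ofReal (κ / L ^ n) * ∫⁻ z in fd n L, ENNReal.ofReal (min 1 (el z ^ 2))
      ≤ ENNReal.ofReal (κ / L ^ n) * ∫⁻ _z in fd n L, 1 := by
        gcongr with z
        rw [← ENNReal.ofReal_one]
        exact ENNReal.ofReal_le_ofReal (min_le_left _ _)
    _ = ENNReal.ofReal (κ / L ^ n) * ENNReal.ofReal (L ^ n) := by
        rw [lintegral_const, one_mul, Measure.restrict_apply_univ, fd_vol hTF]
    _ = ENNReal.ofReal κ := by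
        rw [← ENNReal.ofReal_mul' hV.le, div_mul_cancel₀ _ hV.ne']

/-- the coupling of all pairs of points -/
lemma kg_pair (hTF : S_TF) (κ : ℝ) (b : Tor n L → Tor n L → ℝ≥0∞)
    (hb : Measurable (fun p : Tor n L × Tor n L => b p.1 p.2)) :
    ENNReal.ofReal (κ / L ^ n) * ∫⁻ x, ∫⁻ y, b x y =
      ∫⁻ z, kg n L κ z * ∫⁻ x, b (x + pr L z) x := by
  obtain ⟨-, -, -, h4, h5, -⟩ := hTF n L
  have hm : Measurable fun y : Tor n L => ∫⁻ x, b (x + y) x := by
    apply Measurable.lintegral_prod_right' (f := fun p : Tor n L × Tor n L => b (p.2 + p.1) p.2)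
    have hc : Measurable fun p : Tor n L × Tor n L => ((p.2 + p.1, p.2) : Tor n L × Tor n L) := by
      fun_prop
    exact hb.comp hc
  rw [kg_lint]
  have h6 := h4 (fun y : Tor n L => ∫⁻ x, b (x + y) x) hm
  have h7 : ∫⁻ z in fd n L, ∫⁻ x, b (x + pr L z) x = ∫⁻ y : Tor n L, ∫⁻ x, b (x + y) x := h6.symm
  rw [h7]
  congr 1
  rw [lintegral_lintegral_swap (f := fun y x => b (x + y) x) (by
    have hc : Measurable fun p : Tor n L × Tor n L => ((p.2 + p.1, p.2) : Tor n L × Tor n L) := by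
      fun_prop
    exact (hb.comp hc).aemeasurable)]
  rw [lintegral_lintegral_swap (f := fun x y => b x y) hb.aemeasurable]
  refine lintegral_congr fun x => ?_
  have hbx : Measurable fun y : Tor n L => b y x := by
    have hc : Measurable fun y : Tor n L => ((y, x) : Tor n L × Tor n L) := by fun_prop
    exact hb.comp hc
  have h8 := h5 (fun y => b y x) hbx x
  rw [← h8]
  refine lintegral_congr fun y => ?_
  rw [add_comm]

variable {N : ℕ}

lemma pairI {Φ : (Fin N → Tor n L) → ℂ} (hΦ : Measurable Φ) (h1 : ∫⁻ x, ‖Φ x‖ₑ ^ 2 = 1)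
    (hTF : S_TF) (i : Fin N) :
    ∫ p, Gf Φ i p ∂((volume : Measure (Fin N → Tor n L)).prod (volume : Measure (Tor n L))) ≤
      L ^ n ∧
    ∫⁻ x, ∫⁻ y, ‖Φ (Function.update x i y) - Φ x‖ₑ ^ 2 = ENNReal.ofReal (2 * L ^ n -
      2 * ∫ p, Gf Φ i p
        ∂((volume : Measure (Fin N → Tor n L)).prod (volume : Measure (Tor n L)))) := by
  have hL : 0 < L := Fact.out
  have hV : 0 < L ^ n := by positivity
  obtain ⟨hvol, -⟩ := hTF n L
  have h1t : ∫⁻ x, ‖Φ x‖ₑ ^ 2 ≠ ⊤ := by rw [h1]; exact ENNReal.one_ne_top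
  have hu : Measurable fun p : (Fin N → Tor n L) × Tor n L => Φ (Function.update p.1 i p.2) :=
    hΦ.comp (by fun_prop)
  have hf : Measurable fun p : (Fin N → Tor n L) × Tor n L => Φ p.1 := hΦ.comp measurable_fst
  have l1 : ∫⁻ p : (Fin N → Tor n L) × Tor n L, ‖Φ p.1‖ₑ ^ 2
      ∂((volume : Measure (Fin N → Tor n L)).prod (volume : Measure (Tor n L))) =
      ENNReal.ofReal (L ^ n) := by
    rw [lintegral_prod _ ((hf.enorm.pow_const 2).aemeasurable)]
    simp only [lintegral_const]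
    rw [lintegral_mul_const' _ _ (measure_ne_top _ _), h1, one_mul, hvol]
  have l2 : ∫⁻ p : (Fin N → Tor n L) × Tor n L, ‖Φ (Function.update p.1 i p.2)‖ₑ ^ 2
      ∂((volume : Measure (Fin N → Tor n L)).prod (volume : Measure (Tor n L))) =
      ENNReal.ofReal (L ^ n) := by
    rw [lintegral_prod _ ((hu.enorm.pow_const 2).aemeasurable)]
    simp only
    rw [lint_update (fun x => ‖Φ x‖ₑ ^ 2) (hΦ.enorm.pow_const 2) i, h1, mul_one, hvol]
  have toR : ∀ F : (Fin N → Tor n L) × Tor n L → ℂ, Measurable F →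
      ∫⁻ p, ‖F p‖ₑ ^ 2 ∂((volume : Measure (Fin N → Tor n L)).prod (volume : Measure (Tor n L))) =
        ENNReal.ofReal (L ^ n) →
      Integrable (fun p => ‖F p‖ ^ 2)
        ((volume : Measure (Fin N → Tor n L)).prod (volume : Measure (Tor n L))) ∧
      ∫ p, ‖F p‖ ^ 2 ∂((volume : Measure (Fin N → Tor n L)).prod (volume : Measure (Tor n L))) =
        L ^ n := by
    intro F hF hF1
    have e1 : ∀ p, ‖F p‖ₑ ^ 2 = ENNReal.ofReal (‖F p‖ ^ 2) := fun p => by
      rw [← ofReal_norm, ENNReal.ofReal_pow (norm_nonneg _)]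
    have hi : Integrable (fun p => ‖F p‖ ^ 2)
        ((volume : Measure (Fin N → Tor n L)).prod (volume : Measure (Tor n L))) := by
      refine ⟨(hF.norm.pow_const 2).aestronglyMeasurable, ?_⟩
      rw [HasFiniteIntegral]
      simp only [enorm_sq]
      rw [hF1]
      exact ENNReal.ofReal_lt_top
    refine ⟨hi, ?_⟩
    rw [integral_eq_lintegral_of_nonneg_ae (Eventually.of_forall fun p => by positivity)
      hi.aestronglyMeasurable]
    rw [← lintegral_congr e1, hF1, ENNReal.toReal_ofReal hV.le]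
  obtain ⟨i1, v1⟩ := toR _ hf l1
  obtain ⟨i2, v2⟩ := toR _ hu l2
  have i3 : Integrable (Gf Φ i)
      ((volume : Measure (Fin N → Tor n L)).prod (volume : Measure (Tor n L))) :=
    (int_dom hΦ h1t i).mono' (Gf_meas hΦ i).aestronglyMeasurable
      (Eventually.of_forall fun p => by
        rw [Real.norm_eq_abs]
        exact Gf_abs Φ i p)
  have e2 : ∀ p : (Fin N → Tor n L) × Tor n L,
      ‖Φ (Function.update p.1 i p.2) - Φ p.1‖ ^ 2 =
        ‖Φ (Function.update p.1 i p.2)‖ ^ 2 + ‖Φ p.1‖ ^ 2 - 2 * Gf Φ i p := by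
    intro p
    unfold Gf
    rw [← Complex.normSq_eq_norm_sq, ← Complex.normSq_eq_norm_sq, ← Complex.normSq_eq_norm_sq,
      Complex.normSq_sub]
    congr 2
    simp only [Complex.mul_re, Complex.conj_re, Complex.conj_im]
    ring
  have hI : ∫ p, (‖Φ (Function.update p.1 i p.2)‖ ^ 2 + ‖Φ p.1‖ ^ 2 - 2 * Gf Φ i p)
      ∂((volume : Measure (Fin N → Tor n L)).prod (volume : Measure (Tor n L))) =
      2 * L ^ n - 2 * ∫ p, Gf Φ i p
        ∂((volume : Measure (Fin N → Tor n L)).prod (volume : Measure (Tor n L))) := by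
    have k1 := integral_sub
      (f := fun p : (Fin N → Tor n L) × Tor n L =>
        ‖Φ (Function.update p.1 i p.2)‖ ^ 2 + ‖Φ p.1‖ ^ 2)
      (g := fun p => 2 * Gf Φ i p) (i2.add i1) (i3.const_mul 2)
    have k2 := integral_add
      (f := fun p : (Fin N → Tor n L) × Tor n L => ‖Φ (Function.update p.1 i p.2)‖ ^ 2)
      (g := fun p => ‖Φ p.1‖ ^ 2) i2 i1
    rw [k1, k2, v1, v2, integral_const_mul]
    ring
  refine ⟨?_, ?_⟩
  · have h2 : 0 ≤ ∫ p, (‖Φ (Function.update p.1 i p.2)‖ ^ 2 + ‖Φ p.1‖ ^ 2 - 2 * Gf Φ i p)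
        ∂((volume : Measure (Fin N → Tor n L)).prod (volume : Measure (Tor n L))) :=
      integral_nonneg fun p => by
        simp only [Pi.zero_apply]
        rw [← e2]
        positivity
    rw [hI] at h2
    linarith
  have hm : Measurable fun p : (Fin N → Tor n L) × Tor n L =>
      ‖Φ (Function.update p.1 i p.2) - Φ p.1‖ₑ ^ 2 := (hu.sub hf).enorm.pow_const 2
  have hpr := lintegral_prod (μ := (volume : Measure (Fin N → Tor n L)))
    (ν := (volume : Measure (Tor n L))) _ hm.aemeasurable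
  simp only at hpr
  rw [← hpr]
  have e3 : ∀ p : (Fin N → Tor n L) × Tor n L, ‖Φ (Function.update p.1 i p.2) - Φ p.1‖ₑ ^ 2 =
      ENNReal.ofReal (‖Φ (Function.update p.1 i p.2)‖ ^ 2 + ‖Φ p.1‖ ^ 2 - 2 * Gf Φ i p) := by
    intro p
    rw [← e2, ← ofReal_norm, ENNReal.ofReal_pow (norm_nonneg _)]
  rw [lintegral_congr e3]
  have hre := ofReal_integral_eq_lintegral_ofReal
    (f := fun p => ‖Φ (Function.update p.1 i p.2)‖ ^ 2 + ‖Φ p.1‖ ^ 2 - 2 * Gf Φ i p)
    ((i2.add i1).sub (i3.const_mul 2))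
    (Eventually.of_forall fun p => by
      simp only [Pi.zero_apply]
      rw [← e2]
      positivity)
  rw [← hre, hI]

/-- the hopping energy is the gap times the number of particles outside the condensate -/
theorem enN_kg (hTF : S_TF) {μ : ℝ≥0∞} {v : ℝ → ℝ≥0∞} {κ : ℝ} (hκ : 0 ≤ κ)
    {Ψ : (Fin N → Tor n L) → ℂ} (hΨ : IsWf2 Ψ) :
    enN μ (kg n L κ) v Ψ = enN μ (fun _ => 0) v Ψ + ENNReal.ofReal (κ * (N - condN Ψ)) := by
  have hL : 0 < L := Fact.out
  have hV : 0 < L ^ n := by positivity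
  obtain ⟨-, -, -, h4, h5, -⟩ := hTF n L
  have h1t : ∫⁻ x, ‖Ψ x‖ₑ ^ 2 ≠ ⊤ := by rw [hΨ.norm]; exact ENNReal.one_ne_top
  have hstep : ∀ i : Fin N, ∫⁻ z, kg n L κ z *
      ∫⁻ x, ‖Ψ (Function.update x i (x i + pr L z)) - Ψ x‖ₑ ^ 2 =
      ENNReal.ofReal (2 * (κ / L ^ n * (L ^ n - ∫ p, Gf Ψ i p
        ∂((volume : Measure (Fin N → Tor n L)).prod (volume : Measure (Tor n L)))))) := by
    intro i
    have hm2 : Measurable fun p : Tor n L × (Fin N → Tor n L) =>
        ‖Ψ (Function.update p.2 i (p.2 i + p.1)) - Ψ p.2‖ₑ ^ 2 := by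
      have : Measurable fun p : Tor n L × (Fin N → Tor n L) =>
          Function.update p.2 i (p.2 i + p.1) := by fun_prop
      exact ((hΨ.meas.comp this).sub (hΨ.meas.comp measurable_snd)).enorm.pow_const 2
    have hm : Measurable fun y : Tor n L =>
        ∫⁻ x, ‖Ψ (Function.update x i (x i + y)) - Ψ x‖ₑ ^ 2 :=
      Measurable.lintegral_prod_right' hm2
    rw [kg_lint]
    have h6 : ∫⁻ z in fd n L, ∫⁻ x, ‖Ψ (Function.update x i (x i + pr L z)) - Ψ x‖ₑ ^ 2 =
        ∫⁻ y, ∫⁻ x, ‖Ψ (Function.update x i (x i + y)) - Ψ x‖ₑ ^ 2 := (h4 _ hm).symm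
    rw [h6, lintegral_lintegral_swap hm2.aemeasurable]
    have h7 : ∀ x : Fin N → Tor n L, ∫⁻ y, ‖Ψ (Function.update x i (x i + y)) - Ψ x‖ₑ ^ 2 =
        ∫⁻ y, ‖Ψ (Function.update x i y) - Ψ x‖ₑ ^ 2 := by
      intro x
      have hmx : Measurable fun y : Tor n L => ‖Ψ (Function.update x i y) - Ψ x‖ₑ ^ 2 := by
        have : Measurable fun y : Tor n L => Function.update x i y := by fun_prop
        exact ((hΨ.meas.comp this).sub measurable_const).enorm.pow_const 2
      rw [← h5 _ hmx (x i)]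
      refine lintegral_congr fun y => ?_
      rw [add_comm]
    rw [lintegral_congr h7, (pairI hΨ.meas hΨ.norm hTF i).2, ← ENNReal.ofReal_mul (by positivity)]
    congr 1
    ring
  have hnn : ∀ i : Fin N, 0 ≤ L ^ n - ∫ p, Gf Ψ i p
        ∂((volume : Measure (Fin N → Tor n L)).prod (volume : Measure (Tor n L))) := by
    intro i
    linarith [(pairI hΨ.meas hΨ.norm hTF i).1]
  have hsum : κ * (N - condN Ψ) = ∑ i : Fin N, κ / L ^ n * (L ^ n - ∫ p, Gf Ψ i p
      ∂((volume : Measure (Fin N → Tor n L)).prod (volume : Measure (Tor n L)))) := by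
    rw [condN_eq hΨ.meas h1t, ← Finset.mul_sum, Finset.sum_sub_distrib]
    simp only [Finset.sum_const, Finset.card_univ, Fintype.card_fin, nsmul_eq_mul]
    field_simp
  have hhalf : (2⁻¹ : ℝ≥0∞) * ∑ i : Fin N, ENNReal.ofReal (2 * (κ / L ^ n * (L ^ n - ∫ p, Gf Ψ i p
        ∂((volume : Measure (Fin N → Tor n L)).prod (volume : Measure (Tor n L)))))) =
      ENNReal.ofReal (κ * (N - condN Ψ)) := by
    rw [hsum, ENNReal.ofReal_sum_of_nonneg fun i _ => mul_nonneg (by positivity) (hnn i),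
      Finset.mul_sum]
    refine Finset.sum_congr rfl fun i _ => ?_
    rw [ENNReal.ofReal_mul (by norm_num), ← mul_assoc, ENNReal.ofReal_ofNat,
      ENNReal.inv_mul_cancel (by norm_num) (by norm_num), one_mul]
  unfold enN
  rw [Finset.sum_congr rfl fun i _ => hstep i, hhalf]
  simp only [zero_mul, lintegral_zero, Finset.sum_const_zero, mul_zero, add_zero]
  ring

end

end Pool.Agent.Q233.BG
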