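import Pool.Agent.Y656.Chain3
import Pool.Agent.W761.CB.Core

/-!
# The chain of scales with one step, for a hopping between all pairs of points
-/

set_option autoImplicit false

open MeasureTheory
open scoped ENNReal

namespace Pool.Agent.Q233.BG

open Pool.Agent.W761.CB Pool.Agent.TH268.CC Pool.Agent.Y656

noncomputable section

/-- The ensemble at the scale `ℓ`, from the amplitude of the whole torus in one step. -/
theorem oneE (hF : S_FRM) (hH : S_HAT) (hD : S_DIA) (hTF : S_TF)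
    {n q : ℕ} {L ℓ : ℝ} [Fact (0 < L)] (hq : 1 ≤ q) (hℓ : 0 < ℓ) (hL : L = q * ℓ) {μ : ℝ≥0∞}
    {K : (Fin n → ℝ) → ℝ≥0∞} {v : ℝ → ℝ≥0∞} (hK : Measurable K) (hv : Measurable v)
    {e E Q tol Ca : ℝ} {N : ℕ} (he0 : 0 ≤ e) (hE : 0 ≤ E)
    (hCa : 0 ≤ Ca) (htolE : E - e ≤ tol * L ^ n)
    {ψ : Multiset (Tor n L) → ℂ} (hψ : EB ψ) (hψs : ∀ S, N < Multiset.card S → ψ S = 0)
    (hψ1 : nE volume ψ = 1)
    (hψN : nuE volume ψ = ENNReal.ofReal N) (hψE : en μ K v ψ ≤ ENNReal.ofReal E)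
    (hψQ : nE volume (ag volume (fun _ => 1) ψ) ≤ ENNReal.ofReal Q)
    (hlow : ∀ F : Multiset (Tor n L) → ℂ, EB F → (∀ S, N < Multiset.card S → F S = 0) →
      ENNReal.ofReal e * nE volume F ≤ en μ K v F + ENNReal.ofReal Ca * dm volume N F)
    {ε g : ℝ} (hε : 0 < ε) (hε1 : ε ≤ 1) (hg0 : 0 < g)
    (hg : ∀ b : Tor n L → Tor n L → ℝ≥0∞, Measurable (fun p : Tor n L × Tor n L => b p.1 p.2) →
      ENNReal.ofReal g * ∫⁻ x, ∫⁻ y, b x y ≤ ∫⁻ z, K z * ∫⁻ x, b (x + pr L z) x) :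
    HasEns3 volume (en μ K v) (hf n L ℓ q) N ((1 - 2 * ε) * N) E (6 * ℓ ^ n / ε)
      (√Q + 2 * √(6 * L ^ n / ε) + L ^ n / ℓ ^ n * √(6 * ℓ ^ n / ε) +
        √((tol + Ca * (N / L ^ n) * (2 * ε)) * L ^ n / g)) := by
  have hN : (0 : ℝ) ≤ N := Nat.cast_nonneg N
  have hLpos : 0 < L := Fact.out
  have hV : (0 : ℝ) < L ^ n := by positivity
  have hM : (0 : ℝ) < ℓ ^ n := by positivity
  haveI hsep := sep_tor n L
  obtain ⟨a1, a2, a3, a4, a5⟩ := hH n L L 1 le_rfl (by push_cast; ring)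
  obtain ⟨b1, b2, b3, b4, -⟩ := hH n L ℓ q hq hL
  have aub : ∀ i : Fin n → Fin 1, ∃ C : ℝ, ∀ x, |hf n L L 1 i x| ≤ C := fun i =>
    ⟨1, fun x => by
      have := a2 (fun c => (i c : ℕ)) x
      rw [hf, abs_of_nonneg this.1]
      exact this.2⟩
  have bub : ∀ i : Fin n → Fin q, ∃ C : ℝ, ∀ x, |hf n L ℓ q i x| ≤ C := fun i =>
    ⟨1, fun x => by
      have := b2 (fun c => (i c : ℕ)) x
      rw [hf, abs_of_nonneg this.1]
      exact this.2⟩
  obtain ⟨A, hA, W, c, hfrm⟩ := hF (Tor n L) volume (Fin n → Fin 1) (hf n L L 1)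
    (L ^ n) hV (fun i => a1 _) (fun i x => (a2 _ x).1) a3 (fun i => a4 _)
  have hins := loss_of_frm (by positivity) hfrm (fun i => a1 _) aub hε hε1
  have hde := de3' (μ := μ) hTF hins hε.le hK hv
  have hc : Fintype.card (Fin n → Fin 1) = 1 := by simp
  have key0 := base3 volume (Fin n → Fin 1) (en μ K v) (hf n L L 1) ε E Q
    (6 * L ^ n / ε) N A _ _ ψ hc (fun i x => a5 rfl _ x) hε.le hε1 hψ hψs hψ1 hψN hψE hψQ
    hins hde
  obtain ⟨A', hA', W', c', hfrm'⟩ := hF (Tor n L) volume (Fin n → Fin q) (hf n L ℓ q)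
    (ℓ ^ n) hM (fun i => b1 _) (fun i x => (b2 _ x).1) b3 (fun i => b4 _)
  have hins' := loss_of_frm (by positivity) hfrm' (fun i => b1 _) bub hε hε1
  have hde' := de3' (μ := μ) hTF hins' hε.le hK hv
  have hdia := hD n L μ K v (Fin n → Fin 1) (hf n L L 1) g hK hv hg0.le
    (fun i => a1 _) (fun i x => (a2 _ x).1) (fun i x => (a2 _ x).2) (fun b hb => by
      refine le_trans (le_of_eq ?_) (hg b hb)
      congr 1
      refine lintegral_congr fun x => lintegral_congr fun y => ?_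
      have e1 : ∀ i : Fin n → Fin 1, ENNReal.ofReal (hf n L L 1 i x * hf n L L 1 i y) = 1 := by
        intro i
        rw [hf, hf, a5 rfl, a5 rfl, mul_one, ENNReal.ofReal_one]
      simp only [e1, Finset.sum_const, Finset.card_univ, hc, one_smul, one_mul])
  have hNlo0 : 0 ≤ (1 - ε) * (N : ℝ) := mul_nonneg (by linarith) hN
  have hNlo1 : (1 - ε) * (N : ℝ) ≤ N := mul_le_of_le_one_left hN (by linarith)
  have key := step3 volume (Fin n → Fin q) (Fin n → Fin 1) (en μ K v)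
    (hf n L ℓ q) (hf n L L 1) (fun _ _ => 1) ε g e Ca
    ((1 - ε) * N) E (6 * ℓ ^ n / ε) (6 * L ^ n / ε) (√Q + √(6 * L ^ n / ε)) N A' _ _
    (fun i => b1 _) (fun i x => (b2 _ x).1) b3
    (fun i => a1 _) (fun i x => (a2 _ x).1) (fun i x => (a2 _ x).2)
    (fun i' x => by
      have h1 : hf n L L 1 i' x = 1 := a5 rfl _ x
      rw [h1]
      simp only [one_mul]
      exact (b3 x).symm) (fun _ _ => zero_le_one) (fun _ => by simp)
    hε.le hε1 hg0 he0 hCa hNlo1 hE (by positivity) hNlo0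
    hdia hlow hins' hde' key0
  have hcI : (Fintype.card (Fin n → Fin q) : ℝ) = L ^ n / ℓ ^ n := by
    rw [Fintype.card_fun, Fintype.card_fin, Fintype.card_fin, eq_div_iff (by positivity)]
    rw [Nat.cast_pow, ← mul_pow, ← hL]
  rw [hcI, hc] at key
  refine key.mono ?_ le_rfl le_rfl ?_
  · rw [← mul_assoc]
    refine mul_le_mul_of_nonneg_right ?_ hN
    have := sq_nonneg ε
    linarith only [this]
  · have e3 : √((1 : ℕ) * (E + Ca * (N - (1 - ε) * ((1 - ε) * N)) - e) / g) ≤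
        √((tol + Ca * (N / L ^ n) * (2 * ε)) * L ^ n / g) := by
      apply Real.sqrt_le_sqrt
      apply div_le_div_of_nonneg_right _ hg0.le
      have h5 : (N : ℝ) - (1 - ε) * ((1 - ε) * N) ≤ N * (2 * ε) := by
        have : 0 ≤ ε ^ 2 * N := by positivity
        linarith only [this]
      have h4 : Ca * (N - (1 - ε) * ((1 - ε) * N)) ≤ Ca * (N / L ^ n) * (2 * ε) * L ^ n := by
        calc _ ≤ Ca * (N * (2 * ε)) := mul_le_mul_of_nonneg_left h5 hCa
          _ = _ := by field_simp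
      push_cast
      linarith only [h4, htolE]
    push_cast at e3 ⊢
    linarith only [e3]

end

end Pool.Agent.Q233.BG
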