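import Pool.Agent.Y656.MainR
import Pool.Agent.Y656.AtI
import Pool.Agent.Q233.BG.One
import Pool.Agent.Q233.BG.Gap

/-!
# Complete condensation with a gap: the main theorem in terms of a power of the density
-/

set_option autoImplicit false

open MeasureTheory
open scoped ENNReal

namespace Pool.Agent.Q233.BG

open Pool.Agent.W761.CB Pool.Agent.W761.CC Pool.Agent.TH268.CC Pool.Agent.Y656

noncomputable section

/-- the ensemble of one step, with normalised constants -/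
lemma oneN (hF : S_FRM) (hH : S_HAT) (hD : S_DIA) (hTF : S_TF)
    {n q : ℕ} {L ℓ : ℝ} [Fact (0 < L)] (hq : 1 ≤ q) (hℓ : 0 < ℓ) (hL : L = q * ℓ) {μ : ℝ≥0∞}
    {v : ℝ → ℝ≥0∞} (hv : Measurable v) {κ : ℝ} (hκ : 0 < κ)
    {e E Q tol Ca : ℝ} {N : ℕ} (he0 : 0 ≤ e) (hE : 0 ≤ E) (hQ : 0 ≤ Q) (htol : 0 ≤ tol)
    (hCa : 0 ≤ Ca) (htolE : E - e ≤ tol * L ^ n)
    {ψ : Multiset (Tor n L) → ℂ} (hψ : EB ψ) (hψs : ∀ S, N < Multiset.card S → ψ S = 0)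
    (hψ1 : nE volume ψ = 1)
    (hψN : nuE volume ψ = ENNReal.ofReal N) (hψE : en μ (kg n L κ) v ψ ≤ ENNReal.ofReal E)
    (hψQ : nE volume (ag volume (fun _ => 1) ψ) ≤ ENNReal.ofReal Q)
    (hlow : ∀ F : Multiset (Tor n L) → ℂ, EB F → (∀ S, N < Multiset.card S → F S = 0) →
      ENNReal.ofReal e * nE volume F ≤ en μ (kg n L κ) v F + ENNReal.ofReal Ca * dm volume N F)
    {ε ξ ν : ℝ} (hε : 0 < ε) (hε1 : ε ≤ 1) (hξ : ξ = 6 / (ε * ℓ ^ n)) (hν : ν = N / L ^ n) :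
    HasEns volume (en μ (kg n L κ) v) (hf n L ℓ q) ((1 - 2 * ε) * N) N E (ξ * (ℓ ^ n) ^ 2)
      ((√(Q / (L ^ n) ^ 2) + (3 * √ξ + √((tol + Ca * ν * (2 * ε)) / κ))) * L ^ n) := by
  have hLpos : 0 < L := Fact.out
  have hV : (0 : ℝ) < L ^ n := by positivity
  have hM : (0 : ℝ) < ℓ ^ n := by positivity
  have hq1 : (1 : ℝ) ≤ q := by exact_mod_cast hq
  have hν0 : 0 ≤ ν := by rw [hν]; positivity
  have hξ0 : 0 < ξ := by rw [hξ]; positivity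
  have key := oneE hF hH hD hTF hq hℓ hL (kg_meas (n := n) (L := L) κ) hv he0 hE hCa htolE hψ hψs
    hψ1 hψN hψE hψQ hlow hε hε1 (g := κ / L ^ n) (by positivity)
    (fun b hb => (kg_pair hTF κ b hb).le)
  refine (key.mono le_rfl le_rfl (le_of_eq ?_) ?_).toHas
  · rw [hξ]
    field_simp
  · have hsq : ∀ y : ℝ, √y * L ^ n = √(y * (L ^ n) ^ 2) := fun y => by
      rw [Real.sqrt_mul' _ (by positivity), Real.sqrt_sq hV.le]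
    have e1 : √Q = √(Q / (L ^ n) ^ 2) * L ^ n := by
      rw [hsq, div_mul_cancel₀ _ (by positivity)]
    have e2 : √(6 * L ^ n / ε) ≤ √ξ * L ^ n := by
      rw [hsq]
      apply Real.sqrt_le_sqrt
      rw [hξ]
      have h1 : ℓ ^ n ≤ L ^ n := by
        apply pow_le_pow_left₀ hℓ.le
        rw [hL]
        exact le_mul_of_one_le_left hℓ.le hq1
      have h2 : 6 / (ε * ℓ ^ n) * (L ^ n) ^ 2 = 6 * L ^ n / ε * (L ^ n / ℓ ^ n) := by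
        field_simp
      rw [h2]
      apply le_mul_of_one_le_right (by positivity)
      rw [one_le_div hM]
      exact h1
    have e3 : L ^ n / ℓ ^ n * √(6 * ℓ ^ n / ε) = √ξ * L ^ n := by
      have h1 : 6 * ℓ ^ n / ε = ξ * (ℓ ^ n) ^ 2 := by
        rw [hξ]
        field_simp
      rw [h1, Real.sqrt_mul' _ (by positivity), Real.sqrt_sq hM.le]
      field_simp
    have e4 : √((tol + Ca * (N / L ^ n) * (2 * ε)) * L ^ n / (κ / L ^ n)) =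
        √((tol + Ca * ν * (2 * ε)) / κ) * L ^ n := by
      rw [hsq, ← hν]
      congr 1
      field_simp
    rw [e1, e3, e4]
    linarith only [e2]

/-- the tolerance is small -/
lemma tolG {n : ℕ} {w W Z Λ S Ce Cg κ₀ e ρ tol x : ℝ} (hn : 3 ≤ n) (hw : 1 ≤ w) (hW : 1 ≤ W)
    (hZ : 1 ≤ Z) (hS : 0 < S) (hCe : 0 < Ce) (hCg : 0 < Cg) (hκ₀ : κ₀ = Cg * w ^ 2 / Λ ^ n)
    (hΛ : Λ = Z * W) (he : e = Ce / w) (hρ : ρ = 1 / Z ^ 2) (htol : tol = κ₀ * e * ρ / 16)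
    (hwx : w ≤ x) (hx : 0 < x) (hx3 : x ^ 3 ≤ Z) (h5 : Cg * Ce ≤ w * S) :
    tol ≤ S * ρ ^ 2 / (4 * x) := by
  have hw0 : 0 < w := by linarith
  have hZ0 : 0 < Z := by linarith
  have hW0 : 0 < W := by linarith
  have hΛ0 : 0 < Λ := by rw [hΛ]; positivity
  have hρ0 : 0 < ρ := by rw [hρ]; positivity
  have h1 : Z ≤ ρ * Λ ^ n := by
    have h2 : Z ^ 3 ≤ Z ^ n := pow_le_pow_right₀ hZ hn
    have h3 : Z ^ n ≤ Λ ^ n := by
      apply pow_le_pow_left₀ hZ0.le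
      rw [hΛ]
      exact le_mul_of_one_le_right hZ0.le hW
    calc Z = 1 / Z ^ 2 * Z ^ 3 := by field_simp
      _ ≤ ρ * Λ ^ n := by
        rw [hρ]
        gcongr
        exact h2.trans h3
  have h6 : Cg * Ce * w * x ≤ S * (ρ * Λ ^ n) := by
    calc Cg * Ce * w * x ≤ w * S * w * x := by gcongr
      _ ≤ x * S * x * x := by gcongr
      _ = S * x ^ 3 := by ring
      _ ≤ S * (ρ * Λ ^ n) := by
        gcongr
        exact hx3.trans h1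
  rw [htol, hκ₀, he, le_div_iff₀ (by positivity)]
  have h7 : Cg * w ^ 2 / Λ ^ n * (Ce / w) * ρ / 16 * (4 * x) =
      (Cg * Ce * w * x) * (ρ / (4 * Λ ^ n)) := by
    field_simp
    ring
  rw [h7]
  calc (Cg * Ce * w * x) * (ρ / (4 * Λ ^ n)) ≤ (S * (ρ * Λ ^ n)) * (ρ / (4 * Λ ^ n)) := by gcongr
    _ = S * ρ ^ 2 / 4 := by field_simp
    _ ≤ S * ρ ^ 2 := by
      have : 0 ≤ S * ρ ^ 2 := by positivity
      linarith

/-- the constants of the chain -/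
lemma c3G {n : ℕ} {ξ e ρ ν Ca D₀ ε0 ℓ Λ κ₀ κ tol Ce Cg w : ℝ} (hξ : ξ = e * ρ / 128)
    (hξ0 : 0 ≤ ξ) (he : 0 < e) (hρ : 0 < ρ) (hν1 : ρ / 2 ≤ ν) (hν : 0 < ν) (hCa : 0 ≤ Ca)
    (hCa1 : Ca ≤ 2 * D₀ * ρ) (hD₀ : 0 < D₀) (hε0 : 0 < ε0) (hε0d : ε0 = 768 / (e * ρ * ℓ ^ n))
    (hℓ : 0 < ℓ) (hΛ : 0 < Λ) (hℓ1 : Λ / 2 ≤ ℓ) (hκ₀ : 0 < κ₀) (hκ : κ₀ ≤ κ)
    (htol : tol = κ₀ * e * ρ / 16) (htol0 : 0 ≤ tol) (hCe : 0 < Ce) (hew : e = Ce / w)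
    (hw : 0 < w) (hκd : κ₀ = Cg * w ^ 2 / Λ ^ n) (hCg : Cg = 24576 * 2 ^ n * D₀ / Ce ^ 2) :
    √ξ + (3 * √ξ + √((tol + Ca * ν * (2 * ε0)) / κ)) ≤ √e * √ν := by
  have hκ0 : 0 < κ := lt_of_lt_of_le hκ₀ hκ
  have h1 : √ξ ≤ √(e * ν) / 8 := by
    rw [Real.sqrt_le_left (by positivity), div_pow, Real.sq_sqrt (by positivity), hξ]
    have := mul_le_mul_of_nonneg_left hν1 he.le
    linarith
  have h2 : √((tol + Ca * ν * (2 * ε0)) / κ) ≤ √(e * ν) / 2 := by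
    rw [Real.sqrt_le_left (by positivity), div_pow, Real.sq_sqrt (by positivity),
      div_le_iff₀ hκ0]
    have h3 : tol ≤ e * ν / 8 * κ := by
      rw [htol]
      have h4 : κ₀ * e * ρ / 16 = e * (ρ / 2) / 8 * κ₀ := by ring
      rw [h4]
      gcongr
    have h4 : Ca * ν * (2 * ε0) ≤ e * ν / 8 * κ := by
      have h5 : Ca * (2 * ε0) ≤ e / 8 * κ := by
        have h6 : (Λ / 2) ^ n ≤ ℓ ^ n := pow_le_pow_left₀ (by positivity) hℓ1 n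
        calc Ca * (2 * ε0) ≤ 2 * D₀ * ρ * (2 * (768 / (e * ρ * ℓ ^ n))) := by
              rw [← hε0d]
              gcongr
          _ = 3072 * D₀ / (e * ℓ ^ n) := by
              field_simp
              norm_num
          _ ≤ 3072 * D₀ / (e * (Λ / 2) ^ n) := by gcongr
          _ = e / 8 * κ₀ := by
              rw [hκd, hCg, hew, div_pow]
              field_simp
              norm_num
          _ ≤ e / 8 * κ := by gcongr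
      calc Ca * ν * (2 * ε0) = Ca * (2 * ε0) * ν := by ring
        _ ≤ e / 8 * κ * ν := mul_le_mul_of_nonneg_right h5 hν.le
        _ = _ := by ring
    linarith only [h3, h4]
  rw [← Real.sqrt_mul he.le]
  linarith only [h1, h2]

/-- The main theorem, in terms of a power of the density. -/
theorem coreG (n k m : ℕ) (μ R₀ : ℝ) (v : ℝ → ℝ≥0∞) (hn : 3 ≤ n) (hμ : 0 < μ)
    (hm : m = n ^ 3 + 4 * n ^ 2) (hv : Measurable v) (hvR : ∀ r, R₀ < r → v r = 0)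
    (hv0 : ∫⁻ z : Fin n → ℝ, v (el z) ≠ 0) :
    ∃ Ce Cg w₀ : ℝ, 0 < Ce ∧ 0 < Cg ∧ 1 ≤ w₀ ∧ ∀ w Z ρ : ℝ, w₀ ≤ w →
      Z = w ^ ((2 * k + 2) * m) → ρ = 1 / Z ^ 2 → ∃ L₀ : ℝ,
      ∀ (L : ℝ) [Fact (0 < L)] (κ : ℝ), L₀ ≤ L → Cg * w ^ 2 / (Z * w ^ k) ^ n ≤ κ → κ ≤ 1 / Z →
      ∀ N : ℕ, ρ / 2 * L ^ n ≤ N → (N : ℝ) ≤ ρ * L ^ n →
      ∀ Ψ : (Fin N → Tor n L) → ℂ, IsWf2 Ψ →
        (∀ Φ : (Fin N → Tor n L) → ℂ, IsWf Φ →
          enN (ENNReal.ofReal μ) (kg n L κ) v Ψ ≤ enN (ENNReal.ofReal μ) (kg n L κ) v Φ +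
            ENNReal.ofReal (Cg * Ce * w / (32 * (Z * w ^ k) ^ n) * N)) →
        (1 - 3 * √(Ce / w)) * N ≤ condN Ψ := by
  have hMS := Pool.Agent.W975.CB.proof_ms
  have hLAM := Pool.Agent.W366.CB.proof_lam hMS
  have hAD := Pool.Agent.W338.CB.proof_ad hMS hLAM
  have hW1 := Pool.Agent.W991.CB.proof_w1
  have hW2 := Pool.Agent.W174.CB.main hAD hW1
  have hW3 := Pool.Agent.W803.CB.w3 hW1
  have hDER := Pool.Agent.W99.CB.der hW1 hW3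
  have hFRM := frm hW1 hW2 hW3 hDER Pool.Agent.W803.CB.par
    Pool.Agent.W366.CB.proof_ibp Pool.Agent.W790.CB.proof_win
  have hTF := Pool.Agent.W135.CB.proof_tf
  have hHAT := Pool.Agent.W19.CB.hat_proof hTF
  have hGK := Pool.Agent.W249.CB.gk hTF hHAT Pool.Agent.W249.CB.sup
  have hDIA := Pool.Agent.W427.CB.dia Pool.Agent.W880.CB.dia0 hTF
  have hFIB := Pool.Agent.W131.CB.fib
  have hPO2 := Pool.Agent.W880.CB.po2 hFIB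
  have hBLK := Pool.Agent.W374.CB2.Blk.blk hTF
  have hLA1 := Pool.Agent.W372.CB.main hTF hBLK
  have hLA := Pool.Agent.W571.CB.La.proof_la hTF hBLK hLA1 hFIB
  have hCONV := conv2 hTF
  have hREF := Pool.Agent.W816.CB.cb_ref
  have hTRUNC := Pool.Agent.W376.CB.trunc
  have hKQ := Pool.Agent.W214.CC.main
  have hPOIC := Pool.Agent.W975.CC.main
  have hONE := Pool.Agent.W366.CC.One.one
  have hLAY := Pool.Agent.W806.CC.lay hONE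
    (Pool.Agent.W554.CC.main hKQ hTF) hPO2 hFIB hTF hBLK
  have hCRD := Pool.Agent.W688.CC.crd hBLK
  have hn1 : 1 ≤ n := by omega
  have hn3 : (3 : ℝ) ≤ n := by exact_mod_cast hn
  obtain ⟨hmA, hmB, hmC⟩ := m_nat hn hm
  have hvt0 : ∫⁻ z in {z : Fin n → ℝ | R₀ < el z}, v (el z) = 0 := by
    rw [setLIntegral_congr_fun (g := fun _ => 0)
      (measurableSet_lt measurable_const Pool.Agent.W612.CC.el_meas) fun z hz => hvR _ hz]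
    simp
  have hvt : ∫⁻ z in {z : Fin n → ℝ | R₀ < el z}, v (el z) ≠ ⊤ := by
    rw [hvt0]
    exact ENNReal.zero_ne_top
  have hG0 : 0 < scat n μ v := gposH μ R₀ v hn hμ hv hv0 hvt
  obtain ⟨Cc, hCc, hcapR⟩ := capR hKQ hPOIC μ R₀ v hn hμ hv hvR hG0
  obtain ⟨x₁, hx₁, hupL⟩ := upLK n μ R₀ v hn hμ hv hvR hG0
  obtain ⟨S, hS⟩ : ∃ S : ℝ, S = scat n μ v / 2 := ⟨_, rfl⟩
  have hS0 : 0 < S := by rw [hS]; linarith
  rw [← hS] at hcapR hupL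
  obtain ⟨CP, hCPd⟩ : ∃ CP : ℝ, CP = n * 2 ^ n / μ := ⟨_, rfl⟩
  have hCP : 0 < CP := by rw [hCPd]; positivity
  obtain ⟨CA, b₀, hCA, hb₀, hla⟩ := hLA n 2 CP v hn1 two_pos (by linarith) hCP.le hv hv0
  obtain ⟨D, x₀, hD, hx₀, hpar⟩ := parB n hn S μ CP CA b₀ Cc hS0 hμ hCP.le hCA
  -- the energy of one more particle
  obtain ⟨Rv, hRdef⟩ : ∃ R : ℝ, R = max 1 R₀ := ⟨_, rfl⟩
  have hRv1 : 1 ≤ Rv := by rw [hRdef]; exact le_max_left _ _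
  have hRvR : R₀ ≤ Rv := by rw [hRdef]; exact le_max_right _ _
  have hRv0 : 0 < Rv := by linarith
  have hTv : ∫⁻ z : Fin n → ℝ, vo R₀ v (el z) ≤ ENNReal.ofReal 0 := by
    rw [vo_int, hvt0]
    exact bot_le
  obtain ⟨D₀, hD₀⟩ : ∃ D₀ : ℝ, D₀ = 16 * (4 * Rv) ^ n * (n * μ + 1) + 0 := ⟨_, rfl⟩
  have hD₀0 : 0 < D₀ := by rw [hD₀]; positivity
  obtain ⟨C₁, hC₁⟩ : ∃ C₁ : ℝ, C₁ = S * (9 + 6 * D) + 2 * D := ⟨_, rfl⟩
  have hC₁0 : 0 < C₁ := by rw [hC₁]; positivity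
  obtain ⟨c₄, hc₄⟩ : ∃ c₄ : ℝ, c₄ = 4 ^ n * 8 * n / μ := ⟨_, rfl⟩
  have hc₄0 : 0 < c₄ := by rw [hc₄]; positivity
  obtain ⟨Ce, hCe⟩ : ∃ Ce : ℝ, Ce = 4 + 2 * C₁ / S + 4 * S * c₄ + 19 * D + 4 * D / S := ⟨_, rfl⟩
  have hCe0 : 0 < Ce := by rw [hCe]; positivity
  obtain ⟨Cg, hCg⟩ : ∃ Cg : ℝ, Cg = 24576 * 2 ^ n * D₀ / Ce ^ 2 := ⟨_, rfl⟩
  have hCg0 : 0 < Cg := by rw [hCg]; positivity
  obtain ⟨CAA, hCAA⟩ : ∃ CAA : ℝ, CAA = 3072 * 2 ^ n / ((1 - 0) ^ 2 * Ce * (1 - 0)) := ⟨_, rfl⟩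
  have hCAA0 : 0 < CAA := by rw [hCAA]; norm_num; positivity
  have hRn : 0 < 2 * (4 * Rv) ^ n := by positivity
  have hCBc : 0 < Cg * Ce / S := by positivity
  obtain ⟨w₀, hw₀⟩ : ∃ w₀ : ℝ, w₀ = x₀ + x₁ + 100 * Ce + CAA + Cg * Ce / S +
    2 * (4 * Rv) ^ n := ⟨_, rfl⟩
  refine ⟨Ce, Cg, w₀, hCe0, hCg0, by rw [hw₀]; linarith, ?_⟩
  intro w Z ρ hww hZ hρ
  have w1 : x₀ ≤ w := by rw [hw₀] at hww; linarith
  have w2 : x₁ ≤ w := by rw [hw₀] at hww; linarith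
  have w3 : 100 * Ce ≤ w := by rw [hw₀] at hww; linarith
  have w4 : CAA ≤ w := by rw [hw₀] at hww; linarith
  have w5 : Cg * Ce / S ≤ w := by rw [hw₀] at hww; linarith
  have w6 : 2 * (4 * Rv) ^ n ≤ w := by rw [hw₀] at hww; linarith
  have hw4 : 4 ≤ w := by linarith
  have hw1 : 1 ≤ w := by linarith
  have hw0 : 0 < w := by linarith
  obtain ⟨x, hx⟩ : ∃ x : ℝ, x = w ^ (2 * k + 2) := ⟨_, rfl⟩
  have hwx : w ≤ x := by rw [hx]; exact le_self_pow₀ hw1 (by omega)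
  have hx4 : 4 ≤ x := by linarith
  have hx1 : 1 ≤ x := by linarith
  have hx0 : 0 < x := by linarith
  have hZx : Z = x ^ m := by rw [hZ, hx, ← pow_mul]
  have hZ1 : 1 ≤ Z := by rw [hZx]; exact one_le_pow₀ hx1
  have hZ0 : 0 < Z := by linarith
  have hx3Z : x ^ 3 ≤ Z := by rw [hZx]; exact pow_le_pow_right₀ hx1 hmC
  have hxZ : x ≤ Z := by
    refine le_trans ?_ hx3Z
    exact le_self_pow₀ hx1 (by norm_num)
  obtain ⟨W, hW⟩ : ∃ W : ℝ, W = w ^ k := ⟨_, rfl⟩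
  have hW1 : 1 ≤ W := by rw [hW]; exact one_le_pow₀ hw1
  have hW0 : 0 < W := by linarith
  obtain ⟨t, ht⟩ : ∃ t : ℝ, t = w ^ (2 * k + 1) := ⟨_, rfl⟩
  have ht0 : 0 < t := by rw [ht]; positivity
  obtain ⟨e, he⟩ : ∃ e : ℝ, e = Ce / w := ⟨_, rfl⟩
  have he0 : 0 < e := by rw [he]; positivity
  have he1 : e ≤ 1 / 100 := by
    rw [he, div_le_iff₀ hw0]
    linarith
  obtain ⟨lc1, lc2, lc3, lc4, lc5⟩ := lC hS0 hD hC₁0 hc₄0 hCe hw1 hwx he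
  rw [← he]
  have hρ0 : 0 < ρ := by rw [hρ]; positivity
  have hρ1 : ρ ≤ 1 := by
    rw [hρ, div_le_one (by positivity)]
    exact one_le_pow₀ hZ1
  obtain ⟨Λ, hΛ⟩ : ∃ Λ : ℝ, Λ = Z * W := ⟨_, rfl⟩
  have hΛ0 : 0 < Λ := by rw [hΛ]; positivity
  obtain ⟨κ₀, hκ₀⟩ : ∃ κ₀ : ℝ, κ₀ = Cg * w ^ 2 / Λ ^ n := ⟨_, rfl⟩
  have hκ₀0 : 0 < κ₀ := by rw [hκ₀]; positivity
  refine ⟨max Z (Λ / 2 * 2 ^ 3), ?_⟩
  intro L _ κg hL₀ hκlo hκhi N hNlo hNhi Ψ hΨ hnear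
  rw [← hW, ← hΛ, ← hκ₀] at hκlo
  rw [← hW, ← hΛ] at hnear
  have hκg0 : 0 < κg := lt_of_lt_of_le hκ₀0 hκlo
  obtain ⟨K, hKd⟩ : ∃ K : (Fin n → ℝ) → ℝ≥0∞, K = kg n L κg := ⟨_, rfl⟩
  have hK : Measurable K := by rw [hKd]; exact kg_meas κg
  have hcost : ∫⁻ z, K z * ENNReal.ofReal (min 1 (el z ^ 2)) ≤ ENNReal.ofReal (1 / Z) := by
    rw [hKd]
    exact (kg_total hTF).trans (ENNReal.ofReal_le_ofReal hκhi)
  rw [← hKd] at hnear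
  have hLpos : 0 < L := Fact.out
  have hLZ : Z ≤ L := (le_max_left _ _).trans hL₀
  have hLJ : Λ / 2 * 2 ^ 3 ≤ L := (le_max_right _ _).trans hL₀
  have hL1 : 1 ≤ L := hZ1.trans hLZ
  have hV : (0 : ℝ) < L ^ n := by positivity
  have hPO : PO n L 2 CP (ENNReal.ofReal μ) K := by
    rw [hCPd]; exact Pool.Agent.W753.CB.main n L μ K hμ
  have hPO0 : PO n L 2 CP (ENNReal.ofReal μ) (fun _ => 0) := by
    rw [hCPd]; exact Pool.Agent.W753.CB.main n L μ _ hμ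
  -- the density
  obtain ⟨ν, hν⟩ : ∃ ν : ℝ, ν = N / L ^ n := ⟨_, rfl⟩
  have hν1 : ρ / 2 ≤ ν := by rw [hν, le_div_iff₀ hV]; exact hNlo
  have hν2 : ν ≤ ρ := by rw [hν, div_le_iff₀ hV]; exact hNhi
  have hν0 : 0 < ν := by linarith
  have hNν : (N : ℝ) = ν * L ^ n := by rw [hν]; field_simp
  have hN0 : (0 : ℝ) < N := by rw [hNν]; positivity
  have hN1 : 0 < N := by exact_mod_cast hN0
  obtain ⟨P, hP⟩ : ∃ P, P = ν ^ 2 * L ^ n := ⟨_, rfl⟩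
  have hP0 : 0 < P := by rw [hP]; positivity
  have hx2m : x ^ (2 * (n ^ 3 + 4 * n ^ 2)) = Z ^ 2 := by
    rw [hZx, ← hm, ← pow_mul]
    congr 1
    ring
  have hxmZ : x ^ (n ^ 3 + 4 * n ^ 2) = Z := by rw [hZx, hm]
  have hνa : 1 / 2 / x ^ (2 * (n ^ 3 + 4 * n ^ 2)) ≤ ν := by
    rw [hx2m]
    refine le_trans (le_of_eq ?_) hν1
    rw [hρ]
    ring
  have hνb : ν ≤ 1 / x ^ (2 * (n ^ 3 + 4 * n ^ 2)) := by
    rw [hx2m, ← hρ]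
    exact hν2
  have hcost2 : ∫⁻ z, K z * ENNReal.ofReal (min 1 (el z ^ 2)) ≤
      ENNReal.ofReal (1 / x ^ (8 * n + 3)) := by
    refine hcost.trans (ENNReal.ofReal_le_ofReal ?_)
    apply one_div_le_one_div_of_le (by positivity)
    rw [hZx]
    exact pow_le_pow_right₀ hx1 hmA
  have hup := hupL x (w2.trans hwx) L K N ν hK hcost2 (by rw [hxmZ]; exact hLZ) hν hνa hνb
  -- the smallest scale
  have h2J : (1 : ℝ) ≤ 2 ^ 3 := one_le_pow₀ (by norm_num)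
  have hLΛ : 2 ^ 3 ≤ L / (Λ / 2) := by
    rw [le_div_iff₀ (by positivity)]
    linarith
  obtain ⟨J, hJ1, hJ2⟩ := near 2 (L / (Λ / 2)) (by norm_num) (h2J.trans hLΛ)
  have hJJ : 3 ≤ J := by
    by_contra hcon
    have h3 : (2 : ℝ) ^ (J + 1) ≤ 2 ^ 3 := pow_le_pow_right₀ (by norm_num) (by omega)
    linarith
  have h2Jp : (0 : ℝ) < 2 ^ J := by positivity
  obtain ⟨ℓ, hℓdef⟩ : ∃ ℓ : ℝ, ℓ = L / 2 ^ J := ⟨_, rfl⟩
  have hℓ0 : 0 < ℓ := by rw [hℓdef]; positivity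
  have hLℓ : L = 2 ^ J * ℓ := by rw [hℓdef]; field_simp
  have hℓ1 : Λ / 2 ≤ ℓ := by
    rw [hℓdef, le_div_iff₀ h2Jp]
    rw [le_div_iff₀ (by positivity)] at hJ1
    linarith
  have hℓ2 : ℓ ≤ Λ := by
    rw [hℓdef, div_le_iff₀ h2Jp]
    rw [div_lt_iff₀ (by positivity), pow_succ] at hJ2
    linarith
  -- the blocks
  have hBℓ : x ^ (2 * n ^ 2 + 8 * n + 2) ≤ ℓ := by
    have h1 : x ^ (2 * n ^ 2 + 8 * n + 2) * x ≤ Z := by
      rw [← pow_succ, hZx]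
      exact pow_le_pow_right₀ hx1 hmB
    have h2 : 0 < x ^ (2 * n ^ 2 + 8 * n + 2) := by positivity
    have h3 : x ^ (2 * n ^ 2 + 8 * n + 2) * 2 ≤ x ^ (2 * n ^ 2 + 8 * n + 2) * x :=
      mul_le_mul_of_nonneg_left (by linarith) h2.le
    have h4 : Z * 1 ≤ Z * W := mul_le_mul_of_nonneg_left hW1 hZ0.le
    rw [hΛ] at hℓ1
    linarith
  obtain ⟨s, b, hℓb, hbB, hbB2⟩ := scale_near (by positivity) hBℓ
  obtain ⟨s₁, hs1, hs2⟩ := two_pow_near (y := x ^ 3) (one_le_pow₀ hx1)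
  obtain ⟨b₁, r, r₀, R, hbb, hb₁0, hb₀b, hb1, h4r, hrR, hR1, hr₀r, hr₀0, hcr, hRν, hpars⟩ :=
    hpar x (w1.trans hwx) L ν b ((2 ^ s₁ : ℕ) : ℝ) hLpos hνa hνb hbB hbB2 hs1 hs2
  have hM1 : 1 ≤ 2 ^ s₁ := Nat.one_le_two_pow
  have hr0 : 0 < r := lt_of_lt_of_le hr₀0 hr₀r
  have hb0 : 0 < b := by linarith
  have hux0 : 0 < 1 / x := by positivity
  have hux1 : 1 / x < 1 := by rw [div_lt_one hx0]; linarith
  have h1u : 0 < 1 - 1 / x := by linarith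
  have hcapr := hcapR (1 / x) hux0 hux1.le
  have hcr' : Cc / (1 / x) ^ 8 ≤ r₀ := by
    refine le_trans (le_of_eq ?_) hcr
    field_simp
  obtain ⟨γ₀, hγ₀⟩ : ∃ γ₀ : ℝ, γ₀ = S * (1 - 1 / x) := ⟨_, rfl⟩
  have hγ₀0 : 0 < γ₀ := by rw [hγ₀]; positivity
  have hγ₀S : γ₀ ≤ S := by
    rw [hγ₀]
    have : S * (1 - 1 / x) ≤ S * 1 := mul_le_mul_of_nonneg_left (by linarith) hS0.le
    linarith
  rw [← hγ₀] at hcapr
  obtain ⟨p1, p2, p3, p4⟩ := hpars γ₀ hγ₀0 hγ₀S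
  have hq8 : 8 ≤ 2 ^ J * 2 ^ s * 2 ^ s₁ := by
    have h1 : 2 ^ 3 ≤ 2 ^ J := Nat.pow_le_pow_right (by norm_num) (by omega)
    have h2 : 1 ≤ 2 ^ s := Nat.one_le_two_pow
    have h3 : 1 ≤ 2 ^ s₁ := Nat.one_le_two_pow
    calc 8 = 2 ^ 3 * 1 * 1 := by norm_num
      _ ≤ 2 ^ J * 2 ^ s * 2 ^ s₁ := Nat.mul_le_mul (Nat.mul_le_mul h1 h2) h3
  have hla1 := fun (F : Multiset (Tor n L) → ℂ) (hF : EB F) =>
    (hla L b₁ (2 ^ J * 2 ^ s * 2 ^ s₁) (ENNReal.ofReal μ) K hb₀b (by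
      rw [hLℓ, hℓb, hbb]
      push_cast
      ring) hq8 hK hPO F hF).1
  have h2s : ((2 ^ s₁ : ℕ) : ℝ) = 2 ^ s₁ := by push_cast; rfl
  have hR0 : 0 < R := by linarith
  obtain ⟨X3, hX3⟩ : ∃ X3 : ℝ, X3 = γ₀ * (5 * (2 * ((2 ^ s₁ : ℕ) : ℝ) ^ n) ^ 2 / b ^ n +
    2 * ((2 ^ s₁ : ℕ) : ℝ) ^ n / (1 / x * (2 * r₀) ^ n)) * (CP * b ^ 2) := ⟨_, rfl⟩
  obtain ⟨Y3, hY3⟩ : ∃ Y3 : ℝ, Y3 = γ₀ * (L ^ n / b ^ n) * (2 * ((2 ^ s₁ : ℕ) : ℝ) ^ n / b ^ n +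
    (2 * ((2 ^ s₁ : ℕ) : ℝ) ^ n) ^ 2 / b ^ n * (4 * n * r / b +
      2 * (2 * ((2 ^ s₁ : ℕ) : ℝ) ^ n) * (4 * r / b) ^ n)) := ⟨_, rfl⟩
  obtain ⟨CE, hCE⟩ : ∃ CE : ℝ, CE = (1 + 1 / (1 / x)) * μ * (2 * n * ((60 * r₀ / r) ^ n / R ^ 2)) :=
    ⟨_, rfl⟩
  have hX30 : 0 ≤ X3 := by rw [hX3]; positivity
  have hY30 : 0 ≤ Y3 := by rw [hY3]; positivity
  have hCE0 : 0 ≤ CE := by rw [hCE]; positivity
  have p1' : X3 ≤ D / x := by rw [hX3]; exact p1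
  have p3' : Y3 ≤ D / x * (ν ^ 2 * L ^ n) := by rw [hY3]; exact p3
  have p4' : CE * (ν * L ^ n) ≤ D / x * (ν ^ 2 * L ^ n) := by rw [hCE]; exact p4
  -- the measured densities
  obtain ⟨κ, hκ⟩ : ∃ κ : ℝ, κ = 2 * (2 ^ s₁) ^ n := ⟨_, rfl⟩
  have hκ0 : 0 < κ := by rw [hκ]; positivity
  have hκM : 2 * ((2 ^ s₁ : ℕ) : ℝ) ^ n = κ := by rw [hκ, h2s]
  rw [hκM] at p1 p3
  obtain ⟨X', hX'⟩ : ∃ X' : ℝ, X' = γ₀ * (5 * κ ^ 2 / b ^ n + κ / (1 / x * (2 * r) ^ n)) *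
    (CP * b ^ 2) := ⟨_, rfl⟩
  have hX'0 : 0 ≤ X' := by rw [hX']; positivity
  have hX'D : X' ≤ D / x := by
    refine le_trans ?_ p1
    rw [hX']
    gcongr
  obtain ⟨Tb, hTb⟩ : ∃ Tb : ℝ, Tb = κ / b ^ n + κ ^ 2 / b ^ n *
    (4 * n * r / b + 2 * κ * (4 * r / b) ^ n) := ⟨_, rfl⟩
  have hTb0 : 0 ≤ Tb := by rw [hTb]; positivity
  rw [← hTb] at p3
  obtain ⟨a, ha⟩ : ∃ a : ℝ, a = (1 + X') / (γ₀ * (1 - 1 / x) * ν ^ 2) +
    12 * (CA * b₁ ^ n) / ν := ⟨_, rfl⟩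
  obtain ⟨a₂, ha₂⟩ : ∃ a₂ : ℝ, a₂ = γ₀ * (1 / b ^ n) * Tb / (γ₀ * (1 - 1 / x) * ν ^ 2) :=
    ⟨_, rfl⟩
  have ha0 : 0 ≤ a := by rw [ha]; positivity
  have ha₂0 : 0 ≤ a₂ := by rw [ha₂]; positivity
  have haB : a ≤ 2 / (2 * S * ν ^ 2) * (1 + e) := by
    rw [ha]
    refine (aR1 hS0 hD hx4 hν0 hγ₀ hX'D (by positivity) p2).trans ?_
    have h1 : 2 / (2 * S * ν ^ 2) = 1 / (S * ν ^ 2) := by field_simp
    rw [h1]
    gcongr
  have ha₂B : a₂ ≤ e := (aR2 hS0 hx4 hν0 hγ₀ hV (by linarith) p3 ha₂).trans lc2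
  have hHP0 : ∀ F : Multiset (Tor n L) → ℂ, EB F → ENNReal.ofReal (ℓ ^ n) *
      ∑ i, ∫⁻ γ, ENNReal.ofReal (pf (((ms γ).map (hf n L ℓ (2 ^ J) i)).sum / (ℓ ^ n * ν))) *
        ‖F (ms γ)‖ₑ ^ 2 ∂(Pool.Agent.W761.CB.lam (volume : Measure (Tor n L))) ≤
      ENNReal.ofReal a * en (ENNReal.ofReal μ) K v F +
        ENNReal.ofReal (a₂ * L ^ n) * nE volume F := by
    intro F hF
    have h1 := hp_core hLAY hCRD Pool.Agent.W460.CC.proof_tr Pool.Agent.W935.CC.cvx hTF hBLK hn1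
      hK hv hμ hγ₀0 (hcapr r (hcr'.trans hr₀r)) hPO0 hCP.le
      hCA hux0 hux1 hr0 h4r hb1 hb₁0 hν0 (by omega) hLℓ hℓb (by rw [hbb, h2s]) hla1 hκ hX' rfl F hF
    rw [← ha] at h1
    refine h1.trans (le_of_eq ?_)
    congr 3
    rw [ha₂, hTb]
    ring
  -- the energy and the averaged part of the kinetic energy
  have hq2 : 2 ≤ 2 ^ J * 2 ^ s := by
    have h1 : 2 ^ 1 ≤ 2 ^ J := Nat.pow_le_pow_right (by norm_num) (by omega)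
    have h2 : 1 ≤ 2 ^ s := Nat.one_le_two_pow
    calc 2 = 2 ^ 1 * 1 := by norm_num
      _ ≤ 2 ^ J * 2 ^ s := Nat.mul_le_mul h1 h2
  have hLq : L = ((2 ^ J * 2 ^ s : ℕ) : ℝ) * b := by
    rw [hLℓ, hℓb]
    push_cast
    ring
  have hlow3 : ∀ F : Multiset (Tor n L) → ℂ, EB F →
      ENNReal.ofReal (2 * γ₀ * (1 - 1 / x) * ν) * nuE volume F + ENNReal.ofReal μ * lowk R F ≤
      ENNReal.ofReal (1 + 1 / x + X3 + 4 * γ₀ * ν * (CA * b₁ ^ n)) *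
          en (ENNReal.ofReal μ) K v F +
        ENNReal.ofReal (Y3 + γ₀ * (1 - 1 / x) * ν ^ 2 * L ^ n) * nE volume F +
        ENNReal.ofReal CE * nuE volume F := fun F hF =>
    hp3 hKQ hONE hPO2 hTF hBLK hCRD hμ hv hγ₀0 (hcapr r₀ hcr') hPO0 hCP.le hCA hux0 hux1 hux0 hr₀0
      hr₀r hrR hR1 h4r hb1 hq2 hM1 hLq hbb hb₁0 hν0 hla1 hX3 hY3 hCE hF
  obtain ⟨A₁, hA₁⟩ : ∃ A₁ : ℝ, A₁ = 2 * γ₀ * (1 - 1 / x) * ν := ⟨_, rfl⟩
  obtain ⟨A₂, hA₂⟩ : ∃ A₂ : ℝ, A₂ = 1 + 1 / x + X3 + 4 * γ₀ * ν * (CA * b₁ ^ n) := ⟨_, rfl⟩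
  obtain ⟨A₃, hA₃⟩ : ∃ A₃ : ℝ, A₃ = Y3 + γ₀ * (1 - 1 / x) * ν ^ 2 * L ^ n := ⟨_, rfl⟩
  have hA₁0 : 0 ≤ A₁ := by rw [hA₁]; positivity
  have hA₂0 : 0 ≤ A₂ := by rw [hA₂]; positivity
  have hA₃0 : 0 ≤ A₃ := by rw [hA₃]; positivity
  rw [← hA₁, ← hA₂, ← hA₃] at hlow3
  have hA₂b : A₂ ≤ 1 + (1 + 2 * D) / x := by
    have : (1 + 2 * D) / x = 1 / x + D / x + D / x := by ring
    rw [hA₂, this]
    linarith
  have hA₃b : A₃ ≤ D / x * P + γ₀ * (1 - 1 / x) * P := by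
    have : γ₀ * (1 - 1 / x) * ν ^ 2 * L ^ n = γ₀ * (1 - 1 / x) * (ν ^ 2 * L ^ n) := by ring
    rw [hA₃, hP, this]
    linarith
  have hcNb : CE * N ≤ D / x * P := by rw [hNν, hP]; exact p4'
  obtain ⟨enc, henc⟩ : ∃ enc : (Multiset (Tor n L) → ℂ) → ℝ≥0∞, enc = fun F =>
    en (ENNReal.ofReal μ) K v F + ENNReal.ofReal t * (ENNReal.ofReal μ * lowk R F) := ⟨_, rfl⟩
  have hHP : ∀ F : Multiset (Tor n L) → ℂ, EB F → ENNReal.ofReal (ℓ ^ n) *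
      ∑ i, ∫⁻ γ, ENNReal.ofReal (pf (((ms γ).map (hf n L ℓ (2 ^ J) i)).sum / (ℓ ^ n * ν))) *
        ‖F (ms γ)‖ₑ ^ 2 ∂(Pool.Agent.W761.CB.lam (volume : Measure (Tor n L))) ≤
      ENNReal.ofReal a * enc F + ENNReal.ofReal (a₂ * L ^ n) * nE volume F := by
    intro F hF
    refine (hHP0 F hF).trans ?_
    rw [henc]
    gcongr
    exact le_self_add
  obtain ⟨Pc, hPc⟩ : ∃ Pc : ℝ, Pc = c₄ * ℓ ^ 2 / t + c₄ * R ^ 2 := ⟨_, rfl⟩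
  have hPc0 : 0 ≤ Pc := by rw [hPc]; positivity
  have hPce : Pc * (2 * S * ν) ≤ e := by
    rw [hPc]
    exact lP hS0 hc₄0 hw1 hW ht hν0 (by rw [← hρ]; exact hν2) hZ0 hℓ0 (by rw [← hΛ]; exact hℓ2)
      hRν hwx lc3
  have hcoh : ∀ F : Multiset (Tor n L) → ℂ, EB F → ENNReal.ofReal (ℓ ^ n) * nuE volume F ≤
      ∑ i, nE volume (ag volume (hf n L ℓ (2 ^ J) i) F) +
        ENNReal.ofReal (ℓ ^ n * Pc) * enc F := by
    intro F hF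
    have h1 := cohL (q := 2 ^ J) hHAT hGK hμ hR0 Nat.one_le_two_pow
      (by rw [hLℓ]; push_cast; rfl) hF
    refine h1.trans ?_
    rw [add_assoc]
    refine add_le_add le_rfl ?_
    have hke0 : ken (ENNReal.ofReal μ) (fun _ => 0) F ≤ ken (ENNReal.ofReal μ) K F := by
      unfold ken
      refine add_le_add le_rfl ?_
      unfold Hp
      simp
    have hke : ken (ENNReal.ofReal μ) (fun _ => 0) F ≤ en (ENNReal.ofReal μ) K v F :=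
      hke0.trans le_self_add
    have e1 : ENNReal.ofReal (ℓ ^ n * (4 ^ n * 8 * n * ℓ ^ 2 / μ)) ≤
        ENNReal.ofReal (ℓ ^ n * Pc) * ENNReal.ofReal t := by
      rw [← ENNReal.ofReal_mul (by positivity)]
      apply ENNReal.ofReal_le_ofReal
      have h2 : 4 ^ n * 8 * n * ℓ ^ 2 / μ = c₄ * ℓ ^ 2 := by rw [hc₄]; ring
      have h3 : c₄ * ℓ ^ 2 ≤ Pc * t := by
        have : Pc * t = c₄ * ℓ ^ 2 + c₄ * R ^ 2 * t := by
          rw [hPc]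
          field_simp
        rw [this]
        have : 0 ≤ c₄ * R ^ 2 * t := by positivity
        linarith
      rw [h2, mul_assoc]
      exact mul_le_mul_of_nonneg_left h3 (by positivity)
    have e2 : ENNReal.ofReal (ℓ ^ n * (4 ^ n * 8 * n * R ^ 2 / μ)) ≤
        ENNReal.ofReal (ℓ ^ n * Pc) := by
      apply ENNReal.ofReal_le_ofReal
      have h2 : 4 ^ n * 8 * n * R ^ 2 / μ = c₄ * R ^ 2 := by rw [hc₄]; ring
      rw [h2, hPc]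
      apply mul_le_mul_of_nonneg_left _ (by positivity)
      have : 0 ≤ c₄ * ℓ ^ 2 / t := by positivity
      linarith
    rw [henc]
    calc ENNReal.ofReal (ℓ ^ n * (4 ^ n * 8 * n * ℓ ^ 2 / μ)) * (ENNReal.ofReal μ * lowk R F) +
          ENNReal.ofReal (ℓ ^ n * (4 ^ n * 8 * n * R ^ 2 / μ)) *
            ken (ENNReal.ofReal μ) (fun _ => 0) F ≤
          ENNReal.ofReal (ℓ ^ n * Pc) * ENNReal.ofReal t * (ENNReal.ofReal μ * lowk R F) +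
          ENNReal.ofReal (ℓ ^ n * Pc) * en (ENNReal.ofReal μ) K v F :=
        add_le_add (mul_le_mul' e1 le_rfl) (mul_le_mul' e2 hke)
      _ = _ := by ring
  -- the tolerance
  obtain ⟨tol, htol⟩ : ∃ tol : ℝ, tol = κ₀ * e * ρ / 16 := ⟨_, rfl⟩
  have htol0 : 0 < tol := by rw [htol]; positivity
  have htol1 : tol ≤ S * ρ ^ 2 / (4 * x) :=
    tolG hn hw1 hW1 hZ1 hS0 hCe0 hCg0 hκ₀ hΛ he hρ htol hwx hx0 hx3Z
      (by rw [div_le_iff₀ hS0] at w5; linarith)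
  have htolν : tol * L ^ n ≤ S * P / x := by
    have h1 : ρ ^ 2 ≤ (2 * ν) ^ 2 := pow_le_pow_left₀ hρ0.le (by linarith) 2
    calc tol * L ^ n ≤ S * ρ ^ 2 / (4 * x) * L ^ n := mul_le_mul_of_nonneg_right htol1 hV.le
      _ ≤ S * (2 * ν) ^ 2 / (4 * x) * L ^ n := by gcongr
      _ = S * P / x := by
        rw [hP]
        field_simp
        ring
  -- the energy of one more particle
  have hgE : gEv (ENNReal.ofReal μ) K v (s1 n L Rv) ≤ ENNReal.ofReal D₀ := by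
    rw [hD₀]
    exact gE_D0 hTF hRv1 hRvR hμ le_rfl hv hTv (hcost.trans (by
      rw [← ENNReal.ofReal_one]
      exact ENNReal.ofReal_le_ofReal (by rw [div_le_one hZ0]; exact hZ1)))
  have hgv : gv (s1 n L Rv) ≤ ENNReal.ofReal ((4 * Rv) ^ n) := gv_s1 hRv0
  have hN2 : 2 * (ENNReal.ofReal ((4 * Rv) ^ n) * N) ≤ ENNReal.ofReal (L ^ n) :=
    add_num hRv0 hLpos hNhi (by
      rw [hρ, one_div_mul_eq_div, div_le_one (by positivity)]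
      calc 2 * (4 * Rv) ^ n ≤ w := w6
        _ ≤ Z := hwx.trans hxZ
        _ ≤ Z ^ 2 := le_self_pow₀ hZ1 (by norm_num))
  obtain ⟨heefin, -⟩ := ee_diffv hTF (s1_Pf (n := n) (L := L) Rv) hK hv hgE hgv
    ENNReal.ofReal_ne_top hN2 N le_rfl
  obtain ⟨Ca, hCa⟩ : ∃ Ca : ℝ, Ca = 2 * (D₀ * N) / L ^ n := ⟨_, rfl⟩
  have hCa0 : 0 ≤ Ca := by rw [hCa]; positivity
  have hCaE : 2 * (ENNReal.ofReal D₀ * N) / ENNReal.ofReal (L ^ n) = ENNReal.ofReal Ca := by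
    rw [hCa]
    exact Ca_eq hLpos hD₀0
  have hCa1 : Ca ≤ 2 * D₀ * ρ := by
    have h1 : Ca = 2 * D₀ * ν := by rw [hCa, hν]; ring
    rw [h1]
    gcongr
  have hlowA : ∀ F : Multiset (Tor n L) → ℂ, EB F →
      ee n L (ENNReal.ofReal μ) K v N * nE volume F ≤
        en (ENNReal.ofReal μ) K v F + ENNReal.ofReal Ca * dm volume N F := by
    intro F hF
    rw [← hCaE]
    exact low3v hTF hCONV (s1_Pf (n := n) (L := L) Rv) hK hv hgE hgv ENNReal.ofReal_ne_top hN2 F hF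
  obtain ⟨e₀, he₀⟩ : ∃ e₀ : ℝ, e₀ = (ee n L (ENNReal.ofReal μ) K v N).toReal := ⟨_, rfl⟩
  have he₀0 : 0 ≤ e₀ := by rw [he₀]; exact ENNReal.toReal_nonneg
  have heE : ee n L (ENNReal.ofReal μ) K v N = ENNReal.ofReal e₀ := by
    rw [he₀, ENNReal.ofReal_toReal heefin]
  have he₀1 : e₀ ≤ S * P * (1 + 1 / x) := by
    have h1 : S * ν ^ 2 * (1 + 1 / x) * L ^ n = S * P * (1 + 1 / x) := by rw [hP]; ring
    rw [heE, h1, ENNReal.ofReal_le_ofReal_iff (by positivity)] at hup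
    exact hup
  rw [heE] at hlowA
  -- the energy of the given vector
  have hΨe : enN (ENNReal.ofReal μ) K v Ψ ≤ ENNReal.ofReal (e₀ + tol * L ^ n / 2) := by
    have h1 := near_ee hK hv ENNReal.ofReal_ne_top hnear
    rw [heE, ← ENNReal.ofReal_add he₀0 (by positivity)] at h1
    refine h1.trans (ENNReal.ofReal_le_ofReal ?_)
    have h2 : Cg * Ce * w / (32 * Λ ^ n) * N ≤ tol * L ^ n / 2 := by
      calc Cg * Ce * w / (32 * Λ ^ n) * N ≤ Cg * Ce * w / (32 * Λ ^ n) * (ρ * L ^ n) := by gcongr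
        _ = tol * L ^ n / 2 := by
          rw [htol, hκ₀, he]
          field_simp
          ring
    linarith only [h2]
  have hfinite : enN (ENNReal.ofReal μ) K v Ψ ≠ ⊤ :=
    ne_top_of_le_ne_top ENNReal.ofReal_ne_top hΨe
  -- the loss
  obtain ⟨ε0, hε0d⟩ : ∃ ε0 : ℝ, ε0 = 768 / (e * ρ * ℓ ^ n) := ⟨_, rfl⟩
  have hε0 : 0 < ε0 := by rw [hε0d]; positivity
  rw [hΛ] at hℓ1
  have hpp : 2 * ε0 ≤ 1 / x := by
    have h1 := lA (r := 0) (lam := 0) hn hw1 hW1 hZ1 hℓ1 hCe0 he hρ rfl (by norm_num)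
      (by norm_num) hx0 (by
        rw [← hCAA]
        calc CAA * w * x ≤ x * x * x := by
              have : CAA ≤ x := w4.trans hwx
              gcongr
          _ = x ^ 3 := by ring
          _ ≤ Z := hx3Z)
    refine le_trans ?_ h1
    rw [hε0d]
    have h2 : 2 * (768 / (e * ρ * ℓ ^ n)) = 1536 / (e * ρ * ℓ ^ n) := by ring
    have h3 : 3072 / ((1 - 0) ^ 2 * e * ρ * ℓ ^ n) / (1 - 0) = 3072 / (e * ρ * ℓ ^ n) := by
      norm_num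
    rw [h2, h3]
    gcongr
    norm_num
  rw [← hΛ] at hℓ1
  -- it is enough to consider bounded wave functions
  have red : ∀ ε₂ : ℝ, 0 < ε₂ → (1 - 3 * √e) * N ≤ condN Ψ + ε₂ := by
    intro ε₂ hε₂
    obtain ⟨ε', hε'⟩ : ∃ ε' : ℝ, ε' = min ε₂ (tol * L ^ n / 2) := ⟨_, rfl⟩
    have hε'0 : 0 < ε' := by rw [hε']; exact lt_min hε₂ (by positivity)
    have hε'1 : ε' ≤ ε₂ := by rw [hε']; exact min_le_left _ _
    have hε'2 : ε' ≤ tol * L ^ n / 2 := by rw [hε']; exact min_le_right _ _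
    obtain ⟨Ψ', hΨ', hΨe', hΨc⟩ := hTRUNC n L (ENNReal.ofReal μ) K v N Ψ ε' hK hv hε'0 hΨ hfinite
    have hfin' : enN (ENNReal.ofReal μ) K v Ψ' ≠ ⊤ :=
      (lt_of_le_of_lt hΨe' (ENNReal.add_lt_top.2 ⟨lt_top_iff_ne_top.2 hfinite,
        ENNReal.ofReal_lt_top⟩)).ne
    obtain ⟨E, hE⟩ : ∃ E : ℝ, E = (enN (ENNReal.ofReal μ) K v Ψ').toReal := ⟨_, rfl⟩
    have hE0 : 0 ≤ E := by rw [hE]; exact ENNReal.toReal_nonneg
    have hEe : enN (ENNReal.ofReal μ) K v Ψ' = ENNReal.ofReal E := by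
      rw [hE, ENNReal.ofReal_toReal hfin']
    have hEle : E ≤ e₀ + tol * L ^ n := by
      have h1 : ENNReal.ofReal E ≤ ENNReal.ofReal (e₀ + tol * L ^ n) := by
        rw [← hEe]
        refine hΨe'.trans ((add_le_add hΨe le_rfl).trans ?_)
        rw [← ENNReal.ofReal_add (by positivity) hε'0.le]
        exact ENNReal.ofReal_le_ofReal (by linarith)
      rw [ENNReal.ofReal_le_ofReal_iff (by positivity)] at h1
      exact h1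
    have hE2 : E ≤ S * P * (1 + 2 / x) := by
      have h1 : S * P * (1 + 2 / x) = S * P * (1 + 1 / x) + S * P / x := by ring
      rw [h1]
      linarith only [hEle, he₀1, htolν]
    -- Fock space
    obtain ⟨hcn0, F, hF, hFs, hF1, hFN, hFe, hFc⟩ := hCONV n L (ENNReal.ofReal μ) K v N Ψ' hK hv
      hΨ'
    rw [hEe] at hFe
    obtain ⟨Q, hQ⟩ : ∃ Q : ℝ, Q = L ^ n * condN Ψ' := ⟨_, rfl⟩
    have hQ0 : 0 ≤ Q := by rw [hQ]; positivity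
    -- the energy with the averaged part of the kinetic energy
    have hNlo0 : 0 ≤ (1 - 2 * ε0) * (N : ℝ) := by
      apply mul_nonneg _ hN0.le
      have : 1 / x ≤ 1 := hux1.le
      linarith
    have hAN : A₁ * ((1 - 2 * ε0) * N) =
        2 * γ₀ * (1 - 1 / x) * (1 - 2 * ε0) * P := by
      rw [hA₁, hNν, hP]
      ring
    obtain ⟨E₁, hE₁⟩ : ∃ E₁ : ℝ, E₁ = C₁ / x * P := ⟨_, rfl⟩
    have hE₁0 : 0 ≤ E₁ := by rw [hE₁]; positivity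
    have hexc : A₂ * E + A₃ + CE * N ≤ A₁ * ((1 - 2 * ε0) * N) + E₁ := by
      rw [hE₁, hC₁]
      exact lE hS0 hD hx4 hP0 hγ₀ hE0 hE2 hA₂b hA₃b hcNb hAN hpp
    obtain ⟨Ec, hEc⟩ : ∃ Ec : ℝ, Ec = E + t * E₁ := ⟨_, rfl⟩
    have hEc0 : 0 ≤ Ec := by rw [hEc]; positivity
    have hupc : Ec ≤ 2 * S / 2 * ν ^ 2 * (1 + e / 2) * L ^ n := by
      have h1 : 2 * S / 2 * ν ^ 2 * (1 + e / 2) * L ^ n = S * P * (1 + e / 2) := by
        rw [hP]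
        ring
      rw [h1, hEc, hE₁]
      exact lU hS0 hP0 hw1 hx ht hE2 lc4
    have hconv : ∀ R' B' : ℝ, HasEns volume (en (ENNReal.ofReal μ) K v) (hf n L ℓ (2 ^ J))
        ((1 - 2 * ε0) * N) N E R' B' →
        HasEns volume enc (hf n L ℓ (2 ^ J)) ((1 - 2 * ε0) * N) N Ec R' B' := by
      intro R' B' h
      rw [henc, hEc]
      exact ens_conv (lw := fun F => ENNReal.ofReal μ * lowk R F) h hNlo0 hN0.le hE0 hA₁0 hA₂0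
        hA₃0 hCE0 ht0.le hlow3 hE₁0 hexc
    have hε01 : ε0 ≤ 1 := by linarith
    have hens := hconv _ _ (by
      rw [hKd]
      rw [hKd] at hFe hlowA
      exact oneN hFRM hHAT hDIA hTF (q := 2 ^ J) Nat.one_le_two_pow hℓ0
        (by rw [hLℓ]; push_cast; rfl) hv hκg0 he₀0 hE0 hQ0 htol0.le hCa0 (by linarith) hF
        (fun S hS => hFs S (ne_of_gt hS)) hF1 hFN hFe.le (by rw [hFc, hQ])
        (fun F hF _ => hlowA F hF) hε0 hε01 rfl hν)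
    obtain ⟨ξ, hξ⟩ : ∃ ξ : ℝ, ξ = 6 / (ε0 * ℓ ^ n) := ⟨_, rfl⟩
    have hξ0 : 0 < ξ := by rw [hξ]; positivity
    rw [← hξ] at hens
    have hξe : ξ = e * ρ / 128 := by
      rw [hξ, hε0d]
      field_simp
      norm_num
    have c3 := c3G hξe hξ0.le he0 hρ0 hν1 hν0 hCa0 hCa1 hD₀0 hε0 hε0d hℓ0 hΛ0 hℓ1 hκ₀0 hκlo htol
      htol0.le hCe0 he hw0 hκ₀ hCg
    have res2 := atEns Pool.Agent.W160.CC.bot2' hHAT hTF hℓ0 hLℓ hN1 hQ0 hEc0 (g := 2 * S)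
      (by positivity) he0 he1 hν hupc hPc0 hPce ha0 haB ha₂0 ha₂B hcoh hHP
      (mul_le_mul_of_nonneg_right (by linarith) hN0.le) hN0.le hξ0.le (by positivity) c3 hens
    have h2 : Q / (L ^ n) ^ 2 = condN Ψ' / L ^ n := by
      rw [hQ]
      field_simp
    rw [h2, hν, mul_div_assoc', div_le_div_iff_of_pos_right hV] at res2
    linarith only [res2, hΨc, hε'1]
  exact le_of_forall_pos_le_add fun ε' hε' => red ε' hε'

end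

end Pool.Agent.Q233.BG
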