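import Pool.Agent.Q233.BG.One2
import Pool.Agent.Y656.MainI

/-!
# The ensemble of one step with normalised constants: soft potentials
-/

set_option autoImplicit false

open MeasureTheory
open scoped ENNReal

namespace Pool.Agent.Q233.BG

open Pool.Agent.W761.CB Pool.Agent.TH268.CC Pool.Agent.Y656

noncomputable section

/-- the ensemble of one step, with normalised constants -/
lemma oneN2 (hS : S_STEP2) (hB : S_BASE2) (hM : S_MOM) (hH : S_HAT) (hSM : S_SM)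
    (hD : S_DIA) (hDE : S_DE) (hTF : S_TF)
    {n q : ℕ} {L ℓ : ℝ} [Fact (0 < L)] (hq : 1 ≤ q) (hℓ : 0 < ℓ) (hL : L = q * ℓ) {μ : ℝ≥0∞}
    {v : ℝ → ℝ≥0∞} (hv : Measurable v) {κ : ℝ} (hκ : 0 < κ) {v₁ : ℝ}
    (hv0 : 0 ≤ v₁) (hv1 : ∫⁻ z : Fin n → ℝ, v (el z) ≤ ENNReal.ofReal v₁)
    {e E Q tol Ca : ℝ} {N : ℕ} (he0 : 0 ≤ e) (hE : 0 ≤ E) (hQ : 0 ≤ Q) (hCa : 0 ≤ Ca)
    (htolE : E - e ≤ tol * L ^ n)
    {ψ : Multiset (Tor n L) → ℂ} (hψ : EB ψ) (hψs : ∀ S, Multiset.card S ≠ N → ψ S = 0)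
    (hψ1 : nE volume ψ = 1)
    (hψN : nuE volume ψ = ENNReal.ofReal N) (hψE : en μ (kg n L κ) v ψ ≤ ENNReal.ofReal E)
    (hψQ : nE volume (ag volume (fun _ => 1) ψ) ≤ ENNReal.ofReal Q)
    (hlow : ∀ F : Multiset (Tor n L) → ℂ, EB F → ENNReal.ofReal e * nE volume F ≤
      en μ (kg n L κ) v F + ENNReal.ofReal Ca * dm volume N F)
    {X : ℝ} (hX0 : 0 ≤ X)
    (hXL : μ * (∑ c : Fin n, ⨆ k : ℕ, 4 ^ k *
        ENNReal.ofReal (sm n L (Pi.single c ((2 : ℝ)⁻¹ ^ k)))) +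
      2⁻¹ * ∫⁻ z, (kg n L κ) z * ENNReal.ofReal (sm n L z) ≤ ENNReal.ofReal X)
    (hXℓ : μ * (∑ c : Fin n, ⨆ k : ℕ, 4 ^ k *
        ENNReal.ofReal (sm n ℓ (Pi.single c ((2 : ℝ)⁻¹ ^ k)))) +
      2⁻¹ * ∫⁻ z, (kg n L κ) z * ENNReal.ofReal (sm n ℓ z) ≤ ENNReal.ofReal X)
    {ωB ω0 ξ ν N1 es : ℝ} (hωB : 0 < ωB) (hω0 : 0 < ω0) (hξ : ξ = 1 / (ω0 * (ℓ ^ n) ^ 2))
    (hν : ν = N / L ^ n) (hB1 : 4 * ωB ≤ ω0) (hB2 : 4 * ωB * ν ≤ ω0 ^ 2)
    (hB3 : 1 / ωB ≤ ξ * (L ^ n) ^ 2) (hV1 : 1 ≤ ω0 * L ^ n)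
    (hV2 : 4 * ℓ ^ n * (ν + ω0) ≤ ω0 * L ^ n) (hN1 : N1 = ν + 2 * ω0)
    (hes : 2 * ω0 * (2 * v₁ * N1 + 25 * ω0 * v₁ + X) ≤ es) :
    HasEns volume (en μ (kg n L κ) v) (hf n L ℓ q) N (N1 * L ^ n) (E + es * L ^ n)
      ((ξ + ω0) * (ℓ ^ n) ^ 2)
      ((√(Q / (L ^ n) ^ 2) + (√ω0 + √(ξ + ω0) + √(2 * (ξ + ω0)) + √(ξ + ω0) +
        √((tol + es + 4 * Ca * ω0) / κ))) * L ^ n) := by
  have hLpos : 0 < L := Fact.out
  obtain ⟨V, hVd⟩ : ∃ V : ℝ, V = L ^ n := ⟨_, rfl⟩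
  have hV : (0 : ℝ) < V := by rw [hVd]; positivity
  obtain ⟨M, hMd⟩ : ∃ M : ℝ, M = ℓ ^ n := ⟨_, rfl⟩
  have hM0 : (0 : ℝ) < M := by rw [hMd]; positivity
  have hν0 : 0 ≤ ν := by rw [hν]; positivity
  have hNν : (N : ℝ) = ν * V := by rw [hν, ← hVd]; field_simp
  have key := oneE2 hS hB hM hH hSM hD hDE hTF hq hℓ hL (kg_meas (n := n) (L := L) κ) hv hv0 hv1
    he0 hE hQ hCa hψ hψs hψ1 hψN hψE hψQ hlow hX0 hXL hXℓ hωB hω0 (g := κ / L ^ n)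
    (by positivity) (fun b hb => (kg_pair hTF κ b hb).le) rfl rfl rfl rfl
  rw [← hVd] at hB3 hV1 hV2 htolE key ⊢
  rw [← hMd] at hξ hV2 key ⊢
  have hξ0 : 0 < ξ := by rw [hξ]; positivity
  have hB1' : ωB ≤ ω0 := by linarith
  have hsq : ∀ y : ℝ, √y * V = √(y * V ^ 2) := fun y => by
    rw [Real.sqrt_mul' _ (by positivity), Real.sqrt_sq hV.le]
  have hR : 1 / ωB + V ^ 2 * ωB ≤ (ξ + ω0) * V ^ 2 := by
    have := mul_le_mul_of_nonneg_left hB1' (by positivity : 0 ≤ V ^ 2)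
    linarith only [this, hB3]
  -- the number of particles
  have q1 : (N : ℝ) + ωB * V ≤ N1 * V := by
    rw [hNν, hN1, ← add_mul]
    exact mul_le_mul_of_nonneg_right (by linarith only [hB1', hω0]) hV.le
  have q2 : (N : ℝ) + ωB * V + ω0 * V ≤ N1 * V := by
    rw [hNν, hN1, ← add_mul, ← add_mul]
    exact mul_le_mul_of_nonneg_right (by linarith only [hB1']) hV.le
  have q3 : (N : ℝ) ≤ N1 * V := by
    have : 0 ≤ ωB * V := by positivity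
    linarith only [q1, this]
  -- the energy
  have q4 : E + 2 * ωB * v₁ * N + (25 * ωB ^ 2 * v₁ + ωB * X) * V +
      2 * ω0 * v₁ * (N + ωB * V) + (25 * ω0 ^ 2 * v₁ + ω0 * X) * V ≤ E + es * V := by
    have r1 : 2 * ωB * v₁ * N ≤ 2 * ω0 * v₁ * (N1 * V) := by gcongr
    have r2 : (25 * ωB ^ 2 * v₁ + ωB * X) * V ≤ (25 * ω0 ^ 2 * v₁ + ω0 * X) * V := by gcongr
    have r3 : 2 * ω0 * v₁ * (N + ωB * V) ≤ 2 * ω0 * v₁ * (N1 * V) := by gcongr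
    have r4 := mul_le_mul_of_nonneg_right hes hV.le
    linarith only [r1, r2, r3, r4]
  -- the fluctuations
  have q5 : √(4 * ωB * V * N + (7 * ωB ^ 2 * V ^ 2 + ωB * V) + 4 * ω0 * M * (N + ωB * V) +
      (7 * ω0 ^ 2 * V ^ 2 + ω0 * V)) ≤ 4 * ω0 * V := by
    rw [Real.sqrt_le_left (by positivity)]
    have r1 : 4 * ωB * V * N ≤ ω0 ^ 2 * V ^ 2 := by
      have := mul_le_mul_of_nonneg_right hB2 (by positivity : 0 ≤ V ^ 2)
      rw [hNν]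
      linarith only [this]
    have r2 : 7 * ωB ^ 2 * V ^ 2 ≤ ω0 ^ 2 * V ^ 2 := by
      have h1 := pow_le_pow_left₀ (by positivity) hB1 2
      have h2 : 7 * ωB ^ 2 ≤ ω0 ^ 2 := by
        have : 0 ≤ ωB ^ 2 := by positivity
        linarith only [h1, this]
      exact mul_le_mul_of_nonneg_right h2 (by positivity)
    have r3 : ω0 * V ≤ ω0 ^ 2 * V ^ 2 := by
      have := mul_le_mul_of_nonneg_left hV1 (by positivity : 0 ≤ ω0 * V)
      linarith only [this]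
    have r4 : ωB * V ≤ ω0 * V := mul_le_mul_of_nonneg_right hB1' hV.le
    have r5 : 4 * ω0 * M * (N + ωB * V) ≤ ω0 ^ 2 * V ^ 2 := by
      have h1 : 4 * M * (ν + ωB) ≤ ω0 * V := by
        refine le_trans ?_ hV2
        gcongr
      have := mul_le_mul_of_nonneg_right h1 (by positivity : 0 ≤ ω0 * V)
      rw [hNν]
      linarith only [this]
    have r6 : 0 ≤ ω0 ^ 2 * V ^ 2 := by positivity
    have r7 : (4 * ω0 * V) ^ 2 = 16 * (ω0 ^ 2 * V ^ 2) := by ring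
    rw [r7]
    linarith only [r1, r2, r3, r4, r5, r6]
  refine key.toHas.mono le_rfl q2 q4 (le_of_eq ?_) ?_
  · rw [hξ]
    field_simp
  · have e1 : √(Q + ωB * V ^ 2) ≤ √(Q / V ^ 2) * V + √ω0 * V := by
      rw [hsq, hsq, div_mul_cancel₀ _ (by positivity)]
      refine (sqrt_add_le' hQ (by positivity)).trans (add_le_add le_rfl ?_)
      exact Real.sqrt_le_sqrt (mul_le_mul_of_nonneg_right hB1' (by positivity))
    have e2 : √(1 / ωB + V ^ 2 * ωB) ≤ √(ξ + ω0) * V := by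
      rw [hsq]
      exact Real.sqrt_le_sqrt hR
    have e3 : √(1 / ωB + V ^ 2 * ωB + ω0 * V ^ 2) ≤ √(2 * (ξ + ω0)) * V := by
      rw [hsq]
      apply Real.sqrt_le_sqrt
      have : 0 ≤ ξ * V ^ 2 := by positivity
      linarith only [hR, this]
    have e4 : V / M * √(1 / ω0 + M ^ 2 * ω0) = √(ξ + ω0) * V := by
      have h1 : 1 / ω0 + M ^ 2 * ω0 = (ξ + ω0) * M ^ 2 := by
        rw [hξ]
        field_simp
      rw [h1, Real.sqrt_mul' _ (by positivity), Real.sqrt_sq hM0.le]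
      field_simp
    have e5 : √((E + 2 * ωB * v₁ * N + (25 * ωB ^ 2 * v₁ + ωB * X) * V +
        2 * ω0 * v₁ * (N + ωB * V) + (25 * ω0 ^ 2 * v₁ + ω0 * X) * V +
        Ca * √(4 * ωB * V * N + (7 * ωB ^ 2 * V ^ 2 + ωB * V) + 4 * ω0 * M * (N + ωB * V) +
      (7 * ω0 ^ 2 * V ^ 2 + ω0 * V)) - e) / (κ / V)) ≤ √((tol + es + 4 * Ca * ω0) / κ) * V := by
      rw [hsq]
      apply Real.sqrt_le_sqrt
      have h2 : (tol + es + 4 * Ca * ω0) / κ * V ^ 2 =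
          ((tol + es + 4 * Ca * ω0) * V) / (κ / V) := by
        field_simp
      rw [h2]
      apply div_le_div_of_nonneg_right _ (by positivity)
      have h3 := mul_le_mul_of_nonneg_left q5 hCa
      linarith only [h3, q4, htolE]
    rw [e4]
    linarith only [e1, e2, e3, e5]

end

end Pool.Agent.Q233.BG
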