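import Pool.Agent.Q233.BG.CoreG
import Pool.Agent.Q233.BG.OneN2

/-!
# Complete condensation with a gap, soft potentials: in terms of a power of the density
-/

set_option autoImplicit false

open MeasureTheory
open scoped ENNReal

namespace Pool.Agent.Q233.BG

open Pool.Agent.W761.CB Pool.Agent.W761.CC Pool.Agent.TH268.CC Pool.Agent.Y656

noncomputable section

/-- the tolerance is small -/
lemma tolG2 {n : ℕ} {w W Z Λ S Ce Cg κ₀ e ρ tol x : ℝ} (hn : 3 ≤ n) (hw : 1 ≤ w) (hW : 1 ≤ W)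
    (hZ : 1 ≤ Z) (hS : 0 < S) (hCe : 0 < Ce) (hCg : 0 < Cg)
    (hκ₀ : κ₀ = Cg * w ^ 2 * Z ^ 2 / (Λ ^ n) ^ 2)
    (hΛ : Λ = Z * W) (he : e = Ce / w) (hρ : ρ = 1 / Z ^ 2) (htol : tol = κ₀ * e * ρ / 32)
    (hwx : w ≤ x) (hx : 0 < x) (hx3 : x ^ 3 ≤ Z) (h5 : Cg * Ce ≤ w * S) :
    tol ≤ S * ρ ^ 2 / (8 * x) := by
  have hw0 : 0 < w := by linarith
  have hZ0 : 0 < Z := by linarith
  have hW0 : 0 < W := by linarith
  have hΛ0 : 0 < Λ := by rw [hΛ]; positivity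
  have hρ0 : 0 < ρ := by rw [hρ]; positivity
  have h1 : Z ≤ ρ * (Λ ^ n) ^ 2 / Z ^ 2 := by
    have h2 : Z ^ 3 ≤ Λ ^ n := by
      have h2 : Z ^ 3 ≤ Z ^ n := pow_le_pow_right₀ hZ hn
      have h3 : Z ^ n ≤ Λ ^ n := by
        apply pow_le_pow_left₀ hZ0.le
        rw [hΛ]
        exact le_mul_of_one_le_right hZ0.le hW
      exact h2.trans h3
    have h3 : (Z ^ 3) ^ 2 ≤ (Λ ^ n) ^ 2 := pow_le_pow_left₀ (by positivity) h2 2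
    calc Z ≤ Z ^ 2 := le_self_pow₀ hZ (by norm_num)
      _ = 1 / Z ^ 2 * (Z ^ 3) ^ 2 / Z ^ 2 := by field_simp
      _ ≤ ρ * (Λ ^ n) ^ 2 / Z ^ 2 := by
        rw [hρ]
        gcongr
  have h6 : Cg * Ce * w * x ≤ S * (ρ * (Λ ^ n) ^ 2 / Z ^ 2) := by
    calc Cg * Ce * w * x ≤ w * S * w * x := by gcongr
      _ ≤ x * S * x * x := by gcongr
      _ = S * x ^ 3 := by ring
      _ ≤ S * (ρ * (Λ ^ n) ^ 2 / Z ^ 2) := by
        gcongr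
        exact hx3.trans h1
  rw [htol, hκ₀, he, le_div_iff₀ (by positivity)]
  have h7 : Cg * w ^ 2 * Z ^ 2 / (Λ ^ n) ^ 2 * (Ce / w) * ρ / 32 * (8 * x) =
      (Cg * Ce * w * x) * (ρ * Z ^ 2 / (4 * (Λ ^ n) ^ 2)) := by
    field_simp
    ring
  rw [h7]
  calc (Cg * Ce * w * x) * (ρ * Z ^ 2 / (4 * (Λ ^ n) ^ 2)) ≤
      (S * (ρ * (Λ ^ n) ^ 2 / Z ^ 2)) * (ρ * Z ^ 2 / (4 * (Λ ^ n) ^ 2)) := by gcongr
    _ = S * ρ ^ 2 / 4 := by field_simp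
    _ ≤ S * ρ ^ 2 := by
      have : 0 ≤ S * ρ ^ 2 := by positivity
      linarith

/-- the constants of the chain -/
lemma c3G2 {n : ℕ} {ξ e ρ ν ω0 ℓ T : ℝ} (he : 0 < e) (hρ : 0 < ρ) (hν1 : ρ / 2 ≤ ν)
    (hℓ : 0 < ℓ) (hω : ω0 = 1024 / ((1 - 0) ^ 2 * e * ρ * (ℓ ^ n) ^ 2))
    (hξ : ξ = 1 / (ω0 * (ℓ ^ n) ^ 2)) (hωξ : ω0 ≤ ξ) (hT : T ≤ e * ρ / 8) :
    √(ξ + ω0) + (√ω0 + √(ξ + ω0) + √(2 * (ξ + ω0)) + √(ξ + ω0) + √T) ≤ √e * √ν := by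
  have hξ1 : ξ = e * ρ / 1024 := by
    rw [hξ, hω]
    field_simp
    norm_num
  obtain ⟨y, hy⟩ : ∃ y : ℝ, y = √(e * ρ) := ⟨_, rfl⟩
  have hy0 : 0 ≤ y := by rw [hy]; exact Real.sqrt_nonneg _
  have hy2 : y ^ 2 = e * ρ := by rw [hy]; exact Real.sq_sqrt (by positivity)
  have hep : 0 < e * ρ := by positivity
  have b1 : √(ξ + ω0) ≤ y / 22 := by
    rw [Real.sqrt_le_left (by positivity), div_pow, hy2]
    linarith
  have b2 : √ω0 ≤ y / 32 := by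
    rw [Real.sqrt_le_left (by positivity), div_pow, hy2]
    linarith
  have b3 : √(2 * (ξ + ω0)) ≤ y / 16 := by
    rw [Real.sqrt_le_left (by positivity), div_pow, hy2]
    linarith
  have b4 : √T ≤ y * (5 / 14) := by
    rw [Real.sqrt_le_left (by positivity), mul_pow, hy2]
    linarith
  have b5 : y * (7 / 10) ≤ √e * √ν := by
    rw [← Real.sqrt_mul he.le]
    apply Real.le_sqrt_of_sq_le
    rw [mul_pow, hy2]
    have := mul_le_mul_of_nonneg_left hν1 he.le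
    linarith
  linarith

/-- The main theorem, in terms of a power of the density. -/
theorem coreG2 (n k m : ℕ) (μ R₀ : ℝ) (v : ℝ → ℝ≥0∞) (hn : 3 ≤ n) (hμ : 0 < μ)
    (hm : m = n ^ 3 + 4 * n ^ 2) (hv : Measurable v) (hvR : ∀ r, R₀ < r → v r = 0)
    (hv0 : ∫⁻ z : Fin n → ℝ, v (el z) ≠ 0) (hvf : ∫⁻ z : Fin n → ℝ, v (el z) ≠ ⊤) :
    ∃ Ce Cg w₀ : ℝ, 0 < Ce ∧ 0 < Cg ∧ 1 ≤ w₀ ∧ ∀ w Z ρ : ℝ, w₀ ≤ w →
      Z = w ^ ((2 * k + 2) * m) → ρ = 1 / Z ^ 2 → ∃ L₀ : ℝ,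
      ∀ (L : ℝ) [Fact (0 < L)] (κ : ℝ), L₀ ≤ L →
      Cg * w ^ 2 * Z ^ 2 / ((Z * w ^ k) ^ n) ^ 2 ≤ κ → κ ≤ ρ →
      ∀ N : ℕ, ρ / 2 * L ^ n ≤ N → (N : ℝ) ≤ ρ * L ^ n →
      ∀ Ψ : (Fin N → Tor n L) → ℂ, IsWf2 Ψ →
        (∀ Φ : (Fin N → Tor n L) → ℂ, IsWf Φ →
          enN (ENNReal.ofReal μ) (kg n L κ) v Ψ ≤ enN (ENNReal.ofReal μ) (kg n L κ) v Φ +
            ENNReal.ofReal (Cg * Ce * w * Z ^ 2 / (64 * ((Z * w ^ k) ^ n) ^ 2) * N)) →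
        (1 - 3 * √(Ce / w)) * N ≤ condN Ψ := by
  have hMS := Pool.Agent.W975.CB.proof_ms
  have hLAM := Pool.Agent.W366.CB.proof_lam hMS
  have hAD := Pool.Agent.W338.CB.proof_ad hMS hLAM
  have hW1 := Pool.Agent.W991.CB.proof_w1
  have hW2 := Pool.Agent.W174.CB.main hAD hW1
  have hW3 := Pool.Agent.W803.CB.w3 hW1
  have hDER := Pool.Agent.W99.CB.der hW1 hW3
  have hMOM := mom hW1 hW2 hW3 hDER Pool.Agent.W803.CB.par
    Pool.Agent.W366.CB.proof_ibp Pool.Agent.W790.CB.proof_win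
  have hTF := Pool.Agent.W135.CB.proof_tf
  have hHAT := Pool.Agent.W19.CB.hat_proof hTF
  have hGK := Pool.Agent.W249.CB.gk hTF hHAT Pool.Agent.W249.CB.sup
  have hDIA := Pool.Agent.W427.CB.dia Pool.Agent.W880.CB.dia0 hTF
  have hDE := Pool.Agent.W741.CB.proof_de hTF
  have hFIB := Pool.Agent.W131.CB.fib
  have hPO2 := Pool.Agent.W880.CB.po2 hFIB
  have hBLK := Pool.Agent.W374.CB2.Blk.blk hTF
  have hLA1 := Pool.Agent.W372.CB.main hTF hBLK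
  have hLA := Pool.Agent.W571.CB.La.proof_la hTF hBLK hLA1 hFIB
  have hCONV := conv2 hTF
  have hREF := Pool.Agent.W816.CB.cb_ref
  have hTRUNC := Pool.Agent.W376.CB.trunc
  have hKQ := Pool.Agent.W214.CC.main
  have hPOIC := Pool.Agent.W975.CC.main
  have hONE := Pool.Agent.W366.CC.One.one
  have hLAY := Pool.Agent.W806.CC.lay hONE
    (Pool.Agent.W554.CC.main hKQ hTF) hPO2 hFIB hTF hBLK
  have hCRD := Pool.Agent.W688.CC.crd hBLK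
  have hn1 : 1 ≤ n := by omega
  have hn3 : (3 : ℝ) ≤ n := by exact_mod_cast hn
  obtain ⟨hmA, hmB, hmC⟩ := m_natI hn hm
  have hvt0 : ∫⁻ z in {z : Fin n → ℝ | R₀ < el z}, v (el z) = 0 := by
    rw [setLIntegral_congr_fun (g := fun _ => 0)
      (measurableSet_lt measurable_const Pool.Agent.W612.CC.el_meas) fun z hz => hvR _ hz]
    simp
  have hvt : ∫⁻ z in {z : Fin n → ℝ | R₀ < el z}, v (el z) ≠ ⊤ := by
    rw [hvt0]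
    exact ENNReal.zero_ne_top
  have hG0 : 0 < scat n μ v := gposH μ R₀ v hn hμ hv hv0 hvt
  obtain ⟨Cc, hCc, hcapR⟩ := capR hKQ hPOIC μ R₀ v hn hμ hv hvR hG0
  obtain ⟨x₁, hx₁, hupL⟩ := upLK n μ R₀ v hn hμ hv hvR hG0
  obtain ⟨S, hS⟩ : ∃ S : ℝ, S = scat n μ v / 2 := ⟨_, rfl⟩
  have hS0 : 0 < S := by rw [hS]; linarith
  rw [← hS] at hcapR hupL
  obtain ⟨CP, hCPd⟩ : ∃ CP : ℝ, CP = n * 2 ^ n / μ := ⟨_, rfl⟩
  have hCP : 0 < CP := by rw [hCPd]; positivity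
  obtain ⟨CA, b₀, hCA, hb₀, hla⟩ := hLA n 2 CP v hn1 two_pos (by linarith) hCP.le hv hv0
  obtain ⟨D, x₀, hD, hx₀, hpar⟩ := parB n hn S μ CP CA b₀ Cc hS0 hμ hCP.le hCA
  -- the energy of one more particle
  obtain ⟨Rv, hRdef⟩ : ∃ R : ℝ, R = max 1 R₀ := ⟨_, rfl⟩
  have hRv1 : 1 ≤ Rv := by rw [hRdef]; exact le_max_left _ _
  have hRvR : R₀ ≤ Rv := by rw [hRdef]; exact le_max_right _ _
  have hRv0 : 0 < Rv := by linarith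
  have hTv : ∫⁻ z : Fin n → ℝ, vo R₀ v (el z) ≤ ENNReal.ofReal 0 := by
    rw [vo_int, hvt0]
    exact bot_le
  obtain ⟨D₀, hD₀⟩ : ∃ D₀ : ℝ, D₀ = 16 * (4 * Rv) ^ n * (n * μ + 1) + 0 := ⟨_, rfl⟩
  have hD₀0 : 0 < D₀ := by rw [hD₀]; positivity
  obtain ⟨C₁, hC₁⟩ : ∃ C₁ : ℝ, C₁ = S * (9 + 6 * (2 * D)) + 2 * (2 * D) := ⟨_, rfl⟩
  have hC₁0 : 0 < C₁ := by rw [hC₁]; positivity
  obtain ⟨c₄, hc₄⟩ : ∃ c₄ : ℝ, c₄ = 4 ^ n * 8 * n / μ := ⟨_, rfl⟩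
  have hc₄0 : 0 < c₄ := by rw [hc₄]; positivity
  obtain ⟨Ce, hCe⟩ : ∃ Ce : ℝ, Ce = 4 + 2 * C₁ / S + 4 * S * c₄ + 19 * D + 4 * D / S := ⟨_, rfl⟩
  have hCe0 : 0 < Ce := by rw [hCe]; positivity
  obtain ⟨vI, hvI⟩ : ∃ vI : ℝ, vI = (∫⁻ z : Fin n → ℝ, v (el z)).toReal := ⟨_, rfl⟩
  have hvI0 : 0 < vI := by rw [hvI]; exact ENNReal.toReal_pos hv0 hvf
  obtain ⟨v₁, hv₁⟩ : ∃ v₁ : ℝ, v₁ = 2 * D₀ + vI := ⟨_, rfl⟩
  have hv₁0 : 0 < v₁ := by rw [hv₁]; positivity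
  have hv1 : ∫⁻ z : Fin n → ℝ, v (el z) ≤ ENNReal.ofReal v₁ := by
    rw [← ENNReal.ofReal_toReal hvf, ← hvI]
    exact ENNReal.ofReal_le_ofReal (by rw [hv₁]; linarith)
  obtain ⟨lam, hlamd⟩ : ∃ lam : ℝ, lam = 1 / 2 := ⟨_, rfl⟩
  have hlam0 : 0 < lam := by rw [hlamd]; norm_num
  have hlam1 : lam < 1 := by rw [hlamd]; norm_num
  have h1l : 0 < 1 - lam := by linarith
  obtain ⟨CF, hCF⟩ : ∃ CF : ℝ, CF = 2 * (2 + √(7 / (1 - lam))) * v₁ + 25 * v₁ +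
    64 * n * (μ + 1) := ⟨_, rfl⟩
  have hCF0 : 0 < CF := by rw [hCF]; positivity
  obtain ⟨CG, hCG⟩ : ∃ CG : ℝ, CG = 1 + 8 * CF / S := ⟨_, rfl⟩
  have hCG1 : 1 ≤ CG := by
    rw [hCG]
    have : 0 < 8 * CF / S := by positivity
    linarith
  have hCG0 : 0 < CG := by linarith
  obtain ⟨Cg, hCg⟩ : ∃ Cg : ℝ, Cg = 16384 * 4 ^ n * (2 * CF + 4 * v₁) / Ce ^ 2 := ⟨_, rfl⟩
  have hCg0 : 0 < Cg := by rw [hCg]; positivity
  obtain ⟨CAA, hCAA⟩ : ∃ CAA : ℝ, CAA = 1024 * 2 ^ n / ((1 - 0) ^ 2 * Ce * (1 - lam)) * CG :=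
    ⟨_, rfl⟩
  have hCAA0 : 0 < CAA := by rw [hCAA, sub_zero]; positivity
  have hRn : 0 < 2 * (4 * Rv) ^ n := by positivity
  have hCBc : 0 < Cg * Ce / S := by positivity
  obtain ⟨w₀, hw₀⟩ : ∃ w₀ : ℝ, w₀ = x₀ + x₁ + 100 * Ce + CAA + Cg * Ce / S +
    2 * (4 * Rv) ^ n + 2 ^ n := ⟨_, rfl⟩
  have h2n0 : (0 : ℝ) < 2 ^ n := by positivity
  refine ⟨Ce, Cg, w₀, hCe0, hCg0, by rw [hw₀]; linarith, ?_⟩
  intro w Z ρ hww hZ hρ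
  have w1 : x₀ ≤ w := by rw [hw₀] at hww; linarith
  have w2 : x₁ ≤ w := by rw [hw₀] at hww; linarith
  have w3 : 100 * Ce ≤ w := by rw [hw₀] at hww; linarith
  have w4 : CAA ≤ w := by rw [hw₀] at hww; linarith
  have w5 : Cg * Ce / S ≤ w := by rw [hw₀] at hww; linarith
  have w6 : 2 * (4 * Rv) ^ n ≤ w := by rw [hw₀] at hww; linarith
  have w7 : 2 ^ n ≤ w := by rw [hw₀] at hww; linarith
  have hw4 : 4 ≤ w := by linarith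
  have hw1 : 1 ≤ w := by linarith
  have hw0 : 0 < w := by linarith
  obtain ⟨x, hx⟩ : ∃ x : ℝ, x = w ^ (2 * k + 2) := ⟨_, rfl⟩
  have hwx : w ≤ x := by rw [hx]; exact le_self_pow₀ hw1 (by omega)
  have hx4 : 4 ≤ x := by linarith
  have hx1 : 1 ≤ x := by linarith
  have hx0 : 0 < x := by linarith
  have hZx : Z = x ^ m := by rw [hZ, hx, ← pow_mul]
  have hZ1 : 1 ≤ Z := by rw [hZx]; exact one_le_pow₀ hx1
  have hZ0 : 0 < Z := by linarith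
  have hx3Z : x ^ 3 ≤ Z := by rw [hZx]; exact pow_le_pow_right₀ hx1 hmC
  have hxZ : x ≤ Z := by
    refine le_trans ?_ hx3Z
    exact le_self_pow₀ hx1 (by norm_num)
  obtain ⟨W, hW⟩ : ∃ W : ℝ, W = w ^ k := ⟨_, rfl⟩
  have hW1 : 1 ≤ W := by rw [hW]; exact one_le_pow₀ hw1
  have hW0 : 0 < W := by linarith
  obtain ⟨t, ht⟩ : ∃ t : ℝ, t = w ^ (2 * k + 1) := ⟨_, rfl⟩
  have ht0 : 0 < t := by rw [ht]; positivity
  obtain ⟨e, he⟩ : ∃ e : ℝ, e = Ce / w := ⟨_, rfl⟩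
  have he0 : 0 < e := by rw [he]; positivity
  have he1 : e ≤ 1 / 100 := by
    rw [he, div_le_iff₀ hw0]
    linarith
  obtain ⟨lc1, lc2, lc3, lc4, lc5⟩ := lCI hS0 hD hC₁0 hc₄0 hCe hw1 hwx he
  rw [← he]
  have hρ0 : 0 < ρ := by rw [hρ]; positivity
  have hρ1 : ρ ≤ 1 := by
    rw [hρ, div_le_one (by positivity)]
    exact one_le_pow₀ hZ1
  obtain ⟨Λ, hΛ⟩ : ∃ Λ : ℝ, Λ = Z * W := ⟨_, rfl⟩
  have hΛ0 : 0 < Λ := by rw [hΛ]; positivity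
  obtain ⟨κ₀, hκ₀⟩ : ∃ κ₀ : ℝ, κ₀ = Cg * w ^ 2 * Z ^ 2 / (Λ ^ n) ^ 2 := ⟨_, rfl⟩
  have hκ₀0 : 0 < κ₀ := by rw [hκ₀]; positivity
  refine ⟨max (max Z (Λ / 2 * 2 ^ 3)) (Λ ^ 4), ?_⟩
  intro L _ κg hL₀ hκlo hκhi N hNlo hNhi Ψ hΨ hnear
  rw [← hW, ← hΛ, ← hκ₀] at hκlo
  rw [← hW, ← hΛ] at hnear
  have hκg0 : 0 < κg := lt_of_lt_of_le hκ₀0 hκlo
  obtain ⟨K, hKd⟩ : ∃ K : (Fin n → ℝ) → ℝ≥0∞, K = kg n L κg := ⟨_, rfl⟩
  have hK : Measurable K := by rw [hKd]; exact kg_meas κg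
  have hcost0 : ∫⁻ z, K z * ENNReal.ofReal (min 1 (el z ^ 2)) ≤ ENNReal.ofReal ρ := by
    rw [hKd]
    exact (kg_total hTF).trans (ENNReal.ofReal_le_ofReal hκhi)
  have hcost : ∫⁻ z, K z * ENNReal.ofReal (min 1 (el z ^ 2)) ≤ ENNReal.ofReal (1 / Z) := by
    refine hcost0.trans (ENNReal.ofReal_le_ofReal ?_)
    rw [hρ]
    exact one_div_le_one_div_of_le hZ0 (le_self_pow₀ hZ1 (by norm_num))
  rw [← hKd] at hnear
  have hLpos : 0 < L := Fact.out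
  have hLZ : Z ≤ L := ((le_max_left _ _).trans (le_max_left _ _)).trans hL₀
  have hLJ : Λ / 2 * 2 ^ 3 ≤ L := ((le_max_right _ _).trans (le_max_left _ _)).trans hL₀
  have hLΛ4 : Λ ^ 4 ≤ L := (le_max_right _ _).trans hL₀
  have hL1 : 1 ≤ L := hZ1.trans hLZ
  have hV : (0 : ℝ) < L ^ n := by positivity
  have hPO : PO n L 2 CP (ENNReal.ofReal μ) K := by
    rw [hCPd]; exact Pool.Agent.W753.CB.main n L μ K hμ
  have hPO0 : PO n L 2 CP (ENNReal.ofReal μ) (fun _ => 0) := by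
    rw [hCPd]; exact Pool.Agent.W753.CB.main n L μ _ hμ
  -- the density
  obtain ⟨ν, hν⟩ : ∃ ν : ℝ, ν = N / L ^ n := ⟨_, rfl⟩
  have hν1 : ρ / 2 ≤ ν := by rw [hν, le_div_iff₀ hV]; exact hNlo
  have hν2 : ν ≤ ρ := by rw [hν, div_le_iff₀ hV]; exact hNhi
  have hν0 : 0 < ν := by linarith
  have hNν : (N : ℝ) = ν * L ^ n := by rw [hν]; field_simp
  have hN0 : (0 : ℝ) < N := by rw [hNν]; positivity
  have hN1 : 0 < N := by exact_mod_cast hN0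
  obtain ⟨P, hP⟩ : ∃ P, P = ν ^ 2 * L ^ n := ⟨_, rfl⟩
  have hP0 : 0 < P := by rw [hP]; positivity
  have hx2m : x ^ (2 * (n ^ 3 + 4 * n ^ 2)) = Z ^ 2 := by
    rw [hZx, ← hm, ← pow_mul]
    congr 1
    ring
  have hxmZ : x ^ (n ^ 3 + 4 * n ^ 2) = Z := by rw [hZx, hm]
  have hνa : 1 / 2 / x ^ (2 * (n ^ 3 + 4 * n ^ 2)) ≤ ν := by
    rw [hx2m]
    refine le_trans (le_of_eq ?_) hν1
    rw [hρ]
    ring
  have hνb : ν ≤ 1 / x ^ (2 * (n ^ 3 + 4 * n ^ 2)) := by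
    rw [hx2m, ← hρ]
    exact hν2
  have hcost2 : ∫⁻ z, K z * ENNReal.ofReal (min 1 (el z ^ 2)) ≤
      ENNReal.ofReal (1 / x ^ (8 * n + 3)) := by
    refine hcost.trans (ENNReal.ofReal_le_ofReal ?_)
    apply one_div_le_one_div_of_le (by positivity)
    rw [hZx]
    exact pow_le_pow_right₀ hx1 hmA
  have hup := hupL x (w2.trans hwx) L K N ν hK hcost2 (by rw [hxmZ]; exact hLZ) hν hνa hνb
  -- the smallest scale
  have h2J : (1 : ℝ) ≤ 2 ^ 3 := one_le_pow₀ (by norm_num)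
  have hLΛ : 2 ^ 3 ≤ L / (Λ / 2) := by
    rw [le_div_iff₀ (by positivity)]
    linarith
  obtain ⟨J, hJ1, hJ2⟩ := near 2 (L / (Λ / 2)) (by norm_num) (h2J.trans hLΛ)
  have hJJ : 3 ≤ J := by
    by_contra hcon
    have h3 : (2 : ℝ) ^ (J + 1) ≤ 2 ^ 3 := pow_le_pow_right₀ (by norm_num) (by omega)
    linarith
  have h2Jp : (0 : ℝ) < 2 ^ J := by positivity
  obtain ⟨ℓ, hℓdef⟩ : ∃ ℓ : ℝ, ℓ = L / 2 ^ J := ⟨_, rfl⟩
  have hℓ0 : 0 < ℓ := by rw [hℓdef]; positivity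
  have hLℓ : L = 2 ^ J * ℓ := by rw [hℓdef]; field_simp
  have hℓ1 : Λ / 2 ≤ ℓ := by
    rw [hℓdef, le_div_iff₀ h2Jp]
    rw [le_div_iff₀ (by positivity)] at hJ1
    linarith
  have hℓ2 : ℓ ≤ Λ := by
    rw [hℓdef, div_le_iff₀ h2Jp]
    rw [div_lt_iff₀ (by positivity), pow_succ] at hJ2
    linarith
  -- the blocks
  have hBℓ : x ^ (2 * n ^ 2 + 8 * n + 2) ≤ ℓ := by
    have h1 : x ^ (2 * n ^ 2 + 8 * n + 2) * x ≤ Z := by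
      rw [← pow_succ, hZx]
      exact pow_le_pow_right₀ hx1 hmB
    have h2 : 0 < x ^ (2 * n ^ 2 + 8 * n + 2) := by positivity
    have h3 : x ^ (2 * n ^ 2 + 8 * n + 2) * 2 ≤ x ^ (2 * n ^ 2 + 8 * n + 2) * x :=
      mul_le_mul_of_nonneg_left (by linarith) h2.le
    have h4 : Z * 1 ≤ Z * W := mul_le_mul_of_nonneg_left hW1 hZ0.le
    rw [hΛ] at hℓ1
    linarith
  obtain ⟨s, b, hℓb, hbB, hbB2⟩ := scale_nearI (by positivity) hBℓ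
  obtain ⟨s₁, hs1, hs2⟩ := two_pow_nearI (y := x ^ 3) (one_le_pow₀ hx1)
  obtain ⟨b₁, r, r₀, R, hbb, hb₁0, hb₀b, hb1, h4r, hrR, hR1, hr₀r, hr₀0, hcr, hRν, hpars⟩ :=
    hpar x (w1.trans hwx) L ν b ((2 ^ s₁ : ℕ) : ℝ) hLpos hνa hνb hbB hbB2 hs1 hs2
  have hM1 : 1 ≤ 2 ^ s₁ := Nat.one_le_two_pow
  have hr0 : 0 < r := lt_of_lt_of_le hr₀0 hr₀r
  have hb0 : 0 < b := by linarith
  have hux0 : 0 < 1 / x := by positivity
  have hux1 : 1 / x < 1 := by rw [div_lt_one hx0]; linarith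
  have h1u : 0 < 1 - 1 / x := by linarith
  have hcapr := hcapR (1 / x) hux0 hux1.le
  have hcr' : Cc / (1 / x) ^ 8 ≤ r₀ := by
    refine le_trans (le_of_eq ?_) hcr
    field_simp
  obtain ⟨γ₀, hγ₀⟩ : ∃ γ₀ : ℝ, γ₀ = S * (1 - 1 / x) := ⟨_, rfl⟩
  have hγ₀0 : 0 < γ₀ := by rw [hγ₀]; positivity
  have hγ₀S : γ₀ ≤ S := by
    rw [hγ₀]
    have : S * (1 - 1 / x) ≤ S * 1 := mul_le_mul_of_nonneg_left (by linarith) hS0.le
    linarith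
  rw [← hγ₀] at hcapr
  obtain ⟨p1, p2, p3, p4⟩ := hpars γ₀ hγ₀0 hγ₀S
  have hq8 : 8 ≤ 2 ^ J * 2 ^ s * 2 ^ s₁ := by
    have h1 : 2 ^ 3 ≤ 2 ^ J := Nat.pow_le_pow_right (by norm_num) (by omega)
    have h2 : 1 ≤ 2 ^ s := Nat.one_le_two_pow
    have h3 : 1 ≤ 2 ^ s₁ := Nat.one_le_two_pow
    calc 8 = 2 ^ 3 * 1 * 1 := by norm_num
      _ ≤ 2 ^ J * 2 ^ s * 2 ^ s₁ := Nat.mul_le_mul (Nat.mul_le_mul h1 h2) h3
  have hla1 := fun (F : Multiset (Tor n L) → ℂ) (hF : EB F) =>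
    (hla L b₁ (2 ^ J * 2 ^ s * 2 ^ s₁) (ENNReal.ofReal μ) K hb₀b (by
      rw [hLℓ, hℓb, hbb]
      push_cast
      ring) hq8 hK hPO F hF).1
  have h2s : ((2 ^ s₁ : ℕ) : ℝ) = 2 ^ s₁ := by push_cast; rfl
  have hR0 : 0 < R := by linarith
  obtain ⟨X3, hX3⟩ : ∃ X3 : ℝ, X3 = γ₀ * (5 * (2 * ((2 ^ s₁ : ℕ) : ℝ) ^ n) ^ 2 / b ^ n +
    2 * ((2 ^ s₁ : ℕ) : ℝ) ^ n / (1 / x * (2 * r₀) ^ n)) * (CP * b ^ 2) := ⟨_, rfl⟩
  obtain ⟨Y3, hY3⟩ : ∃ Y3 : ℝ, Y3 = γ₀ * (L ^ n / b ^ n) * (2 * ((2 ^ s₁ : ℕ) : ℝ) ^ n / b ^ n +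
    (2 * ((2 ^ s₁ : ℕ) : ℝ) ^ n) ^ 2 / b ^ n * (4 * n * r / b +
      2 * (2 * ((2 ^ s₁ : ℕ) : ℝ) ^ n) * (4 * r / b) ^ n)) := ⟨_, rfl⟩
  obtain ⟨CE, hCE⟩ : ∃ CE : ℝ, CE = (1 + 1 / (1 / x)) * μ * (2 * n * ((60 * r₀ / r) ^ n / R ^ 2)) :=
    ⟨_, rfl⟩
  have hX30 : 0 ≤ X3 := by rw [hX3]; positivity
  have hY30 : 0 ≤ Y3 := by rw [hY3]; positivity
  have hCE0 : 0 ≤ CE := by rw [hCE]; positivity
  have p1' : X3 ≤ D / x := by rw [hX3]; exact p1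
  have p3' : Y3 ≤ D / x * (ν ^ 2 * L ^ n) := by rw [hY3]; exact p3
  have p4' : CE * (ν * L ^ n) ≤ D / x * (ν ^ 2 * L ^ n) := by rw [hCE]; exact p4
  -- the measured densities
  obtain ⟨κ, hκ⟩ : ∃ κ : ℝ, κ = 2 * (2 ^ s₁) ^ n := ⟨_, rfl⟩
  have hκ0 : 0 < κ := by rw [hκ]; positivity
  have hκM : 2 * ((2 ^ s₁ : ℕ) : ℝ) ^ n = κ := by rw [hκ, h2s]
  rw [hκM] at p1 p3
  obtain ⟨X', hX'⟩ : ∃ X' : ℝ, X' = γ₀ * (5 * κ ^ 2 / b ^ n + κ / (1 / x * (2 * r) ^ n)) *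
    (CP * b ^ 2) := ⟨_, rfl⟩
  have hX'0 : 0 ≤ X' := by rw [hX']; positivity
  have hX'D : X' ≤ D / x := by
    refine le_trans ?_ p1
    rw [hX']
    gcongr
  obtain ⟨Tb, hTb⟩ : ∃ Tb : ℝ, Tb = κ / b ^ n + κ ^ 2 / b ^ n *
    (4 * n * r / b + 2 * κ * (4 * r / b) ^ n) := ⟨_, rfl⟩
  have hTb0 : 0 ≤ Tb := by rw [hTb]; positivity
  rw [← hTb] at p3
  obtain ⟨a, ha⟩ : ∃ a : ℝ, a = (1 + X') / (γ₀ * (1 - 1 / x) * ν ^ 2) +
    12 * (CA * b₁ ^ n) / ν := ⟨_, rfl⟩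
  obtain ⟨a₂, ha₂⟩ : ∃ a₂ : ℝ, a₂ = γ₀ * (1 / b ^ n) * Tb / (γ₀ * (1 - 1 / x) * ν ^ 2) :=
    ⟨_, rfl⟩
  have ha0 : 0 ≤ a := by rw [ha]; positivity
  have ha₂0 : 0 ≤ a₂ := by rw [ha₂]; positivity
  have haB : a ≤ 2 / (2 * S * ν ^ 2) * (1 + e) := by
    rw [ha]
    refine (aR1 hS0 hD hx4 hν0 hγ₀ hX'D (by positivity) p2).trans ?_
    have h1 : 2 / (2 * S * ν ^ 2) = 1 / (S * ν ^ 2) := by field_simp
    rw [h1]
    gcongr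
  have ha₂B : a₂ ≤ e := (aR2 hS0 hx4 hν0 hγ₀ hV (by linarith) p3 ha₂).trans lc2
  have hHP0 : ∀ F : Multiset (Tor n L) → ℂ, EB F → ENNReal.ofReal (ℓ ^ n) *
      ∑ i, ∫⁻ γ, ENNReal.ofReal (pf (((ms γ).map (hf n L ℓ (2 ^ J) i)).sum / (ℓ ^ n * ν))) *
        ‖F (ms γ)‖ₑ ^ 2 ∂(Pool.Agent.W761.CB.lam (volume : Measure (Tor n L))) ≤
      ENNReal.ofReal a * en (ENNReal.ofReal μ) K v F +
        ENNReal.ofReal (a₂ * L ^ n) * nE volume F := by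
    intro F hF
    have h1 := hp_core hLAY hCRD Pool.Agent.W460.CC.proof_tr Pool.Agent.W935.CC.cvx hTF hBLK hn1
      hK hv hμ hγ₀0 (hcapr r (hcr'.trans hr₀r)) hPO0 hCP.le
      hCA hux0 hux1 hr0 h4r hb1 hb₁0 hν0 (by omega) hLℓ hℓb (by rw [hbb, h2s]) hla1 hκ hX' rfl F hF
    rw [← ha] at h1
    refine h1.trans (le_of_eq ?_)
    congr 3
    rw [ha₂, hTb]
    ring
  -- the energy and the averaged part of the kinetic energy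
  have hq2 : 2 ≤ 2 ^ J * 2 ^ s := by
    have h1 : 2 ^ 1 ≤ 2 ^ J := Nat.pow_le_pow_right (by norm_num) (by omega)
    have h2 : 1 ≤ 2 ^ s := Nat.one_le_two_pow
    calc 2 = 2 ^ 1 * 1 := by norm_num
      _ ≤ 2 ^ J * 2 ^ s := Nat.mul_le_mul h1 h2
  have hLq : L = ((2 ^ J * 2 ^ s : ℕ) : ℝ) * b := by
    rw [hLℓ, hℓb]
    push_cast
    ring
  have hlow3 : ∀ F : Multiset (Tor n L) → ℂ, EB F →
      ENNReal.ofReal (2 * γ₀ * (1 - 1 / x) * ν) * nuE volume F + ENNReal.ofReal μ * lowk R F ≤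
      ENNReal.ofReal (1 + 1 / x + X3 + 4 * γ₀ * ν * (CA * b₁ ^ n)) *
          en (ENNReal.ofReal μ) K v F +
        ENNReal.ofReal (Y3 + γ₀ * (1 - 1 / x) * ν ^ 2 * L ^ n) * nE volume F +
        ENNReal.ofReal CE * nuE volume F := fun F hF =>
    hp3 hKQ hONE hPO2 hTF hBLK hCRD hμ hv hγ₀0 (hcapr r₀ hcr') hPO0 hCP.le hCA hux0 hux1 hux0 hr₀0
      hr₀r hrR hR1 h4r hb1 hq2 hM1 hLq hbb hb₁0 hν0 hla1 hX3 hY3 hCE hF
  obtain ⟨A₁, hA₁⟩ : ∃ A₁ : ℝ, A₁ = 2 * γ₀ * (1 - 1 / x) * ν := ⟨_, rfl⟩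
  obtain ⟨A₂, hA₂⟩ : ∃ A₂ : ℝ, A₂ = 1 + 1 / x + X3 + 4 * γ₀ * ν * (CA * b₁ ^ n) := ⟨_, rfl⟩
  obtain ⟨A₃, hA₃⟩ : ∃ A₃ : ℝ, A₃ = Y3 + γ₀ * (1 - 1 / x) * ν ^ 2 * L ^ n := ⟨_, rfl⟩
  have hA₁0 : 0 ≤ A₁ := by rw [hA₁]; positivity
  have hA₂0 : 0 ≤ A₂ := by rw [hA₂]; positivity
  have hA₃0 : 0 ≤ A₃ := by rw [hA₃]; positivity
  rw [← hA₁, ← hA₂, ← hA₃] at hlow3
  have hA₂b : A₂ ≤ 1 + (1 + 2 * D) / x := by
    have : (1 + 2 * D) / x = 1 / x + D / x + D / x := by ring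
    rw [hA₂, this]
    linarith
  have hA₃b : A₃ ≤ D / x * P + γ₀ * (1 - 1 / x) * P := by
    have : γ₀ * (1 - 1 / x) * ν ^ 2 * L ^ n = γ₀ * (1 - 1 / x) * (ν ^ 2 * L ^ n) := by ring
    rw [hA₃, hP, this]
    linarith
  have hcNb : CE * N ≤ D / x * P := by rw [hNν, hP]; exact p4'
  obtain ⟨enc, henc⟩ : ∃ enc : (Multiset (Tor n L) → ℂ) → ℝ≥0∞, enc = fun F =>
    en (ENNReal.ofReal μ) K v F + ENNReal.ofReal t * (ENNReal.ofReal μ * lowk R F) := ⟨_, rfl⟩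
  have hHP : ∀ F : Multiset (Tor n L) → ℂ, EB F → ENNReal.ofReal (ℓ ^ n) *
      ∑ i, ∫⁻ γ, ENNReal.ofReal (pf (((ms γ).map (hf n L ℓ (2 ^ J) i)).sum / (ℓ ^ n * ν))) *
        ‖F (ms γ)‖ₑ ^ 2 ∂(Pool.Agent.W761.CB.lam (volume : Measure (Tor n L))) ≤
      ENNReal.ofReal a * enc F + ENNReal.ofReal (a₂ * L ^ n) * nE volume F := by
    intro F hF
    refine (hHP0 F hF).trans ?_
    rw [henc]
    gcongr
    exact le_self_add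
  obtain ⟨Pc, hPc⟩ : ∃ Pc : ℝ, Pc = c₄ * ℓ ^ 2 / t + c₄ * R ^ 2 := ⟨_, rfl⟩
  have hPc0 : 0 ≤ Pc := by rw [hPc]; positivity
  have hPce : Pc * (2 * S * ν) ≤ e := by
    rw [hPc]
    exact lPI hS0 hc₄0 hw1 hW ht hν0 (by rw [← hρ]; exact hν2) hZ0 hℓ0 (by rw [← hΛ]; exact hℓ2)
      hRν hwx lc3
  have hcoh : ∀ F : Multiset (Tor n L) → ℂ, EB F → ENNReal.ofReal (ℓ ^ n) * nuE volume F ≤
      ∑ i, nE volume (ag volume (hf n L ℓ (2 ^ J) i) F) +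
        ENNReal.ofReal (ℓ ^ n * Pc) * enc F := by
    intro F hF
    have h1 := cohL (q := 2 ^ J) hHAT hGK hμ hR0 Nat.one_le_two_pow
      (by rw [hLℓ]; push_cast; rfl) hF
    refine h1.trans ?_
    rw [add_assoc]
    refine add_le_add le_rfl ?_
    have hke0 : ken (ENNReal.ofReal μ) (fun _ => 0) F ≤ ken (ENNReal.ofReal μ) K F := by
      unfold ken
      refine add_le_add le_rfl ?_
      unfold Hp
      simp
    have hke : ken (ENNReal.ofReal μ) (fun _ => 0) F ≤ en (ENNReal.ofReal μ) K v F :=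
      hke0.trans le_self_add
    have e1 : ENNReal.ofReal (ℓ ^ n * (4 ^ n * 8 * n * ℓ ^ 2 / μ)) ≤
        ENNReal.ofReal (ℓ ^ n * Pc) * ENNReal.ofReal t := by
      rw [← ENNReal.ofReal_mul (by positivity)]
      apply ENNReal.ofReal_le_ofReal
      have h2 : 4 ^ n * 8 * n * ℓ ^ 2 / μ = c₄ * ℓ ^ 2 := by rw [hc₄]; ring
      have h3 : c₄ * ℓ ^ 2 ≤ Pc * t := by
        have : Pc * t = c₄ * ℓ ^ 2 + c₄ * R ^ 2 * t := by
          rw [hPc]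
          field_simp
        rw [this]
        have : 0 ≤ c₄ * R ^ 2 * t := by positivity
        linarith
      rw [h2, mul_assoc]
      exact mul_le_mul_of_nonneg_left h3 (by positivity)
    have e2 : ENNReal.ofReal (ℓ ^ n * (4 ^ n * 8 * n * R ^ 2 / μ)) ≤
        ENNReal.ofReal (ℓ ^ n * Pc) := by
      apply ENNReal.ofReal_le_ofReal
      have h2 : 4 ^ n * 8 * n * R ^ 2 / μ = c₄ * R ^ 2 := by rw [hc₄]; ring
      rw [h2, hPc]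
      apply mul_le_mul_of_nonneg_left _ (by positivity)
      have : 0 ≤ c₄ * ℓ ^ 2 / t := by positivity
      linarith
    rw [henc]
    calc ENNReal.ofReal (ℓ ^ n * (4 ^ n * 8 * n * ℓ ^ 2 / μ)) * (ENNReal.ofReal μ * lowk R F) +
          ENNReal.ofReal (ℓ ^ n * (4 ^ n * 8 * n * R ^ 2 / μ)) *
            ken (ENNReal.ofReal μ) (fun _ => 0) F ≤
          ENNReal.ofReal (ℓ ^ n * Pc) * ENNReal.ofReal t * (ENNReal.ofReal μ * lowk R F) +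
          ENNReal.ofReal (ℓ ^ n * Pc) * en (ENNReal.ofReal μ) K v F :=
        add_le_add (mul_le_mul' e1 le_rfl) (mul_le_mul' e2 hke)
      _ = _ := by ring
  -- the tolerance
  obtain ⟨tol, htol⟩ : ∃ tol : ℝ, tol = κ₀ * e * ρ / 32 := ⟨_, rfl⟩
  have htol0 : 0 < tol := by rw [htol]; positivity
  have htol1 : tol ≤ S * ρ ^ 2 / (8 * x) :=
    tolG2 hn hw1 hW1 hZ1 hS0 hCe0 hCg0 hκ₀ hΛ he hρ htol hwx hx0 hx3Z
      (by rw [div_le_iff₀ hS0] at w5; linarith)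
  have htolν : tol * L ^ n ≤ S * P / (2 * x) := by
    have h1 : ρ ^ 2 ≤ (2 * ν) ^ 2 := pow_le_pow_left₀ hρ0.le (by linarith) 2
    calc tol * L ^ n ≤ S * ρ ^ 2 / (8 * x) * L ^ n := mul_le_mul_of_nonneg_right htol1 hV.le
      _ ≤ S * (2 * ν) ^ 2 / (8 * x) * L ^ n := by gcongr
      _ = S * P / (2 * x) := by
        rw [hP]
        field_simp
        ring
  -- the energy of one more particle
  have hgE : gEv (ENNReal.ofReal μ) K v (s1 n L Rv) ≤ ENNReal.ofReal D₀ := by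
    rw [hD₀]
    exact gE_D0 hTF hRv1 hRvR hμ le_rfl hv hTv (hcost.trans (by
      rw [← ENNReal.ofReal_one]
      exact ENNReal.ofReal_le_ofReal (by rw [div_le_one hZ0]; exact hZ1)))
  have hgv : gv (s1 n L Rv) ≤ ENNReal.ofReal ((4 * Rv) ^ n) := gv_s1 hRv0
  have hN2 : 2 * (ENNReal.ofReal ((4 * Rv) ^ n) * N) ≤ ENNReal.ofReal (L ^ n) :=
    add_num hRv0 hLpos hNhi (by
      rw [hρ, one_div_mul_eq_div, div_le_one (by positivity)]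
      calc 2 * (4 * Rv) ^ n ≤ w := w6
        _ ≤ Z := hwx.trans hxZ
        _ ≤ Z ^ 2 := le_self_pow₀ hZ1 (by norm_num))
  obtain ⟨heefin, -⟩ := ee_diffv hTF (s1_Pf (n := n) (L := L) Rv) hK hv hgE hgv
    ENNReal.ofReal_ne_top hN2 N le_rfl
  obtain ⟨Ca, hCa⟩ : ∃ Ca : ℝ, Ca = 2 * (D₀ * N) / L ^ n := ⟨_, rfl⟩
  have hCa0 : 0 ≤ Ca := by rw [hCa]; positivity
  have hCaE : 2 * (ENNReal.ofReal D₀ * N) / ENNReal.ofReal (L ^ n) = ENNReal.ofReal Ca := by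
    rw [hCa]
    exact Ca_eq hLpos hD₀0
  have hCa1 : Ca ≤ 2 * D₀ * ρ := by
    have h1 : Ca = 2 * D₀ * ν := by rw [hCa, hν]; ring
    rw [h1]
    gcongr
  have hlowA : ∀ F : Multiset (Tor n L) → ℂ, EB F →
      ee n L (ENNReal.ofReal μ) K v N * nE volume F ≤
        en (ENNReal.ofReal μ) K v F + ENNReal.ofReal Ca * dm volume N F := by
    intro F hF
    rw [← hCaE]
    exact low3v hTF hCONV (s1_Pf (n := n) (L := L) Rv) hK hv hgE hgv ENNReal.ofReal_ne_top hN2 F hF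
  obtain ⟨e₀, he₀⟩ : ∃ e₀ : ℝ, e₀ = (ee n L (ENNReal.ofReal μ) K v N).toReal := ⟨_, rfl⟩
  have he₀0 : 0 ≤ e₀ := by rw [he₀]; exact ENNReal.toReal_nonneg
  have heE : ee n L (ENNReal.ofReal μ) K v N = ENNReal.ofReal e₀ := by
    rw [he₀, ENNReal.ofReal_toReal heefin]
  have he₀1 : e₀ ≤ S * P * (1 + 1 / x) := by
    have h1 : S * ν ^ 2 * (1 + 1 / x) * L ^ n = S * P * (1 + 1 / x) := by rw [hP]; ring
    rw [heE, h1, ENNReal.ofReal_le_ofReal_iff (by positivity)] at hup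
    exact hup
  rw [heE] at hlowA
  -- the energy of the given vector
  have hΨe : enN (ENNReal.ofReal μ) K v Ψ ≤ ENNReal.ofReal (e₀ + tol * L ^ n / 2) := by
    have h1 := near_ee hK hv ENNReal.ofReal_ne_top hnear
    rw [heE, ← ENNReal.ofReal_add he₀0 (by positivity)] at h1
    refine h1.trans (ENNReal.ofReal_le_ofReal ?_)
    have h2 : Cg * Ce * w * Z ^ 2 / (64 * (Λ ^ n) ^ 2) * N ≤ tol * L ^ n / 2 := by
      calc Cg * Ce * w * Z ^ 2 / (64 * (Λ ^ n) ^ 2) * N ≤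
            Cg * Ce * w * Z ^ 2 / (64 * (Λ ^ n) ^ 2) * (ρ * L ^ n) := by gcongr
        _ = tol * L ^ n / 2 := by
          rw [htol, hκ₀, he]
          field_simp
          ring
    linarith only [h2]
  have hfinite : enN (ENNReal.ofReal μ) K v Ψ ≠ ⊤ :=
    ne_top_of_le_ne_top ENNReal.ofReal_ne_top hΨe
  -- the loss
  rw [hΛ] at hℓ1
  have hyI := yI hn hW1 hZ1 hℓ1 hρ
  rw [← hΛ] at hℓ1
  obtain ⟨ω0, hω0d⟩ : ∃ ω0 : ℝ, ω0 = 1024 / ((1 - 0) ^ 2 * e * ρ * (ℓ ^ n) ^ 2) := ⟨_, rfl⟩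
  have hω0d' : ω0 = 1024 / (e * ρ * (ℓ ^ n) ^ 2) := by
    rw [hω0d]
    congr 1
    ring
  have hω0 : 0 < ω0 := by rw [hω0d']; positivity
  obtain ⟨ξ, hξ⟩ : ∃ ξ : ℝ, ξ = 1 / (ω0 * (ℓ ^ n) ^ 2) := ⟨_, rfl⟩
  have hξ0 : 0 < ξ := by rw [hξ]; positivity
  obtain ⟨hωξ, hωx⟩ := lAI hyI hℓ0 hρ0 hw0 (w7.trans (hwx.trans hxZ)) hCe0 he hω0d (by norm_num)
    hlam1 hlam0 hx1 hCG1 (by
      rw [← hCAA]
      calc CAA * w * x ≤ x * x * x := by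
            have : CAA ≤ x := w4.trans hwx
            gcongr
        _ = x ^ 3 := by ring
        _ ≤ Z := hx3Z)
  rw [← hξ] at hωξ
  obtain ⟨N1, hN1d⟩ : ∃ N1 : ℝ, N1 = ν + ω0 / (1 - lam) := ⟨_, rfl⟩
  obtain ⟨hN1a, hω2, hAb1', hes'⟩ := eI hS0 hx4 hCF hCG hCF0 hω0 hlam0 hlam1 hρ0 hν1 hν2 hV hP
    hv₁0 hωx hN1d
  have hN1e : N1 = ν + 2 * ω0 := by
    rw [hN1d, hlamd]
    ring
  have hN1c : 0 < N1 := by rw [hN1e]; positivity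
  obtain ⟨X, hXd⟩ : ∃ X : ℝ, X = 64 * n * ((μ + 1) * ρ) := ⟨_, rfl⟩
  have hX0 : 0 ≤ X := by rw [hXd]; positivity
  obtain ⟨Ab, hAbd⟩ : ∃ A : ℝ, A = (2 + √(7 / (1 - lam))) * v₁ * N1 + 25 * ω0 * v₁ + X :=
    ⟨_, rfl⟩
  have hAb0 : 0 ≤ Ab := by rw [hAbd]; positivity
  rw [← hXd, ← hAbd] at hAb1'
  obtain ⟨es, hesd⟩ : ∃ es : ℝ, es = ω0 * Ab / (1 - lam) := ⟨_, rfl⟩
  have hes0 : 0 ≤ es := by rw [hesd]; exact div_nonneg (mul_nonneg hω0.le hAb0) h1l.le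
  obtain ⟨hes1, hesν⟩ := hes' Ab es hAb0 hAb1' hesd
  have hes2 : 2 * ω0 * (2 * v₁ * N1 + 25 * ω0 * v₁ + X) ≤ es := by
    have h1 : es = 2 * ω0 * Ab := by
      rw [hesd, hlamd]
      ring
    rw [h1]
    apply mul_le_mul_of_nonneg_left _ (by positivity)
    have h2 : 0 ≤ √(7 / (1 - lam)) * v₁ * N1 := by positivity
    have h3 : Ab = √(7 / (1 - lam)) * v₁ * N1 + (2 * v₁ * N1 + 25 * ω0 * v₁ + X) := by
      rw [hAbd]
      ring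
    linarith only [h2, h3]
  have hCas : Ca ≤ ν * v₁ := by
    have h1 : Ca = ν * (2 * D₀) := by rw [hCa, hν]; ring
    rw [h1, hv₁]
    exact mul_le_mul_of_nonneg_left (by linarith only [hvI0]) hν0.le
  have hCaρ : Ca ≤ ρ * v₁ := hCas.trans (mul_le_mul_of_nonneg_right hν2 hv₁0.le)
  -- the volume is large
  have hM0 : (0 : ℝ) < ℓ ^ n := by positivity
  have hM1' : (1 : ℝ) ≤ ℓ ^ n := by
    apply one_le_pow₀
    refine le_trans ?_ hBℓ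
    exact one_le_pow₀ hx1
  have hVM : (ℓ ^ n) ^ 4 ≤ L ^ n := by
    calc (ℓ ^ n) ^ 4 ≤ (Λ ^ n) ^ 4 := by gcongr
      _ = (Λ ^ 4) ^ n := by rw [← pow_mul, ← pow_mul, mul_comm]
      _ ≤ L ^ n := by gcongr
  have hep : e * ρ ≤ 1 := by
    have h1 : e * ρ ≤ 1 / 100 * 1 := mul_le_mul he1 hρ1 hρ0.le (by norm_num)
    linarith
  have hV1 : 1 ≤ ω0 * L ^ n := by
    rw [hω0d', div_mul_eq_mul_div, one_le_div (by positivity)]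
    have h1 : (ℓ ^ n) ^ 2 ≤ (ℓ ^ n) ^ 4 := pow_le_pow_right₀ hM1' (by norm_num)
    calc e * ρ * (ℓ ^ n) ^ 2 ≤ 1 * (ℓ ^ n) ^ 4 := mul_le_mul hep h1 (by positivity) zero_le_one
      _ ≤ 1024 * L ^ n := by linarith only [hVM, hV]
  have hV2 : 4 * ℓ ^ n * (ν + ω0) ≤ ω0 * L ^ n := by
    have h1 : ν + ω0 ≤ 2 := by linarith only [hν2, hω2, hρ1]
    rw [hω0d', div_mul_eq_mul_div, ← hω0d', le_div_iff₀ (by positivity)]
    have h2 : (ℓ ^ n) ^ 3 ≤ (ℓ ^ n) ^ 4 := pow_le_pow_right₀ hM1' (by norm_num)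
    calc 4 * ℓ ^ n * (ν + ω0) * (e * ρ * (ℓ ^ n) ^ 2) ≤ 4 * ℓ ^ n * 2 * (1 * (ℓ ^ n) ^ 2) := by
          gcongr
      _ = 8 * (ℓ ^ n) ^ 3 := by ring
      _ ≤ 1024 * L ^ n := by
        have h3 : 0 ≤ (ℓ ^ n) ^ 4 := by positivity
        linarith only [h2, hVM, h3]
  obtain ⟨ωB, hωBd⟩ : ∃ ωB : ℝ, ωB = ω0 ^ 2 / (4 * ρ) := ⟨_, rfl⟩
  have hωB : 0 < ωB := by rw [hωBd]; positivity
  have hB1 : 4 * ωB ≤ ω0 := by
    have h1 : 4 * ωB = ω0 * (ω0 / ρ) := by rw [hωBd]; field_simp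
    rw [h1]
    exact mul_le_of_le_one_right hω0.le (by rwa [div_le_one hρ0])
  have hB2 : 4 * ωB * ν ≤ ω0 ^ 2 := by
    have h1 : 4 * ωB * ν = ω0 ^ 2 * (ν / ρ) := by rw [hωBd]; field_simp
    rw [h1]
    exact mul_le_of_le_one_right (by positivity) (by rwa [div_le_one hρ0])
  have hV1' : 1 ≤ L ^ n := one_le_pow₀ hL1
  have hB3 : 1 / ωB ≤ ξ * (L ^ n) ^ 2 := by
    have h1 : 1 / ωB = ξ * (4 * ρ * (ℓ ^ n) ^ 2 / ω0) := by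
      rw [hωBd, hξ]
      field_simp
    rw [h1]
    apply mul_le_mul_of_nonneg_left _ hξ0.le
    have h2 : 4 * ρ * (ℓ ^ n) ^ 2 / ω0 = e * ρ * ρ / 256 * (ℓ ^ n) ^ 4 := by
      rw [hω0d']
      field_simp
      norm_num
    rw [h2]
    calc e * ρ * ρ / 256 * (ℓ ^ n) ^ 4 ≤ 1 * (ℓ ^ n) ^ 4 := by
          apply mul_le_mul_of_nonneg_right _ (by positivity)
          have : e * ρ * ρ ≤ 1 * 1 := mul_le_mul hep hρ1 hρ0.le zero_le_one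
          linarith
      _ ≤ L ^ n := by rw [one_mul]; exact hVM
      _ ≤ (L ^ n) ^ 2 := le_self_pow₀ hV1' (by norm_num)
  -- the losses in comparison with the gap
  obtain ⟨T, hTd⟩ : ∃ T : ℝ, T = (tol + es + 4 * Ca * ω0) / κg := ⟨_, rfl⟩
  have hTle : T ≤ e * ρ / 8 := by
    rw [hTd, div_le_iff₀ hκg0]
    have h1 : es ≤ 2 * ω0 * CF * ρ := by
      refine hes1.trans (le_of_eq ?_)
      rw [hlamd]
      ring
    have h2 : 4 * Ca * ω0 ≤ 4 * (ρ * v₁) * ω0 := by gcongr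
    have h3 : (2 * CF + 4 * v₁) * ω0 ≤ e / 16 * κ₀ := by
      have h4 : (Λ / 2) ^ n ≤ ℓ ^ n := pow_le_pow_left₀ (by positivity) hℓ1 n
      have h5 : ω0 ≤ 1024 / (e * ρ * ((Λ / 2) ^ n) ^ 2) := by
        rw [hω0d']
        gcongr
      calc (2 * CF + 4 * v₁) * ω0 ≤ (2 * CF + 4 * v₁) * (1024 / (e * ρ * ((Λ / 2) ^ n) ^ 2)) := by
            gcongr
        _ = e / 16 * κ₀ := by
            rw [hκ₀, hCg, he, hρ, div_pow, show (4 : ℝ) ^ n = 2 ^ n * 2 ^ n by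
              rw [← mul_pow]; norm_num]
            field_simp
            norm_num
    have h4 : es + 4 * Ca * ω0 ≤ e * ρ / 16 * κ₀ := by
      calc es + 4 * Ca * ω0 ≤ ((2 * CF + 4 * v₁) * ω0) * ρ := by linarith only [h1, h2]
        _ ≤ (e / 16 * κ₀) * ρ := mul_le_mul_of_nonneg_right h3 hρ0.le
        _ = _ := by ring
    have h5 : e * ρ * κ₀ ≤ e * ρ * κg := mul_le_mul_of_nonneg_left hκlo (by positivity)
    have h6 : 0 ≤ e * ρ * κ₀ := by positivity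
    have h7 : tol = e * ρ * κ₀ / 32 := by rw [htol]; ring
    linarith only [h4, h5, h6, h7]
  -- it is enough to consider bounded wave functions
  have red : ∀ ε₂ : ℝ, 0 < ε₂ → (1 - 3 * √e) * N ≤ condN Ψ + ε₂ := by
    intro ε₂ hε₂
    obtain ⟨ε', hε'⟩ : ∃ ε' : ℝ, ε' = min ε₂ (tol * L ^ n / 2) := ⟨_, rfl⟩
    have hε'0 : 0 < ε' := by rw [hε']; exact lt_min hε₂ (by positivity)
    have hε'1 : ε' ≤ ε₂ := by rw [hε']; exact min_le_left _ _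
    have hε'2 : ε' ≤ tol * L ^ n / 2 := by rw [hε']; exact min_le_right _ _
    obtain ⟨Ψ', hΨ', hΨe', hΨc⟩ := hTRUNC n L (ENNReal.ofReal μ) K v N Ψ ε' hK hv hε'0 hΨ hfinite
    have hfin' : enN (ENNReal.ofReal μ) K v Ψ' ≠ ⊤ :=
      (lt_of_le_of_lt hΨe' (ENNReal.add_lt_top.2 ⟨lt_top_iff_ne_top.2 hfinite,
        ENNReal.ofReal_lt_top⟩)).ne
    obtain ⟨E, hE⟩ : ∃ E : ℝ, E = (enN (ENNReal.ofReal μ) K v Ψ').toReal := ⟨_, rfl⟩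
    have hE0 : 0 ≤ E := by rw [hE]; exact ENNReal.toReal_nonneg
    have hEe : enN (ENNReal.ofReal μ) K v Ψ' = ENNReal.ofReal E := by
      rw [hE, ENNReal.ofReal_toReal hfin']
    have hEle : E ≤ e₀ + tol * L ^ n := by
      have h1 : ENNReal.ofReal E ≤ ENNReal.ofReal (e₀ + tol * L ^ n) := by
        rw [← hEe]
        refine hΨe'.trans ((add_le_add hΨe le_rfl).trans ?_)
        rw [← ENNReal.ofReal_add (by positivity) hε'0.le]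
        exact ENNReal.ofReal_le_ofReal (by linarith only [hε'2])
      rw [ENNReal.ofReal_le_ofReal_iff (by positivity)] at h1
      exact h1
    have hE2 : E + es * L ^ n ≤ S * P * (1 + 2 / x) := by
      have h1 : S * P * (1 + 2 / x) = S * P * (1 + 1 / x) + S * P / (2 * x) +
          S * P / (2 * x) := by
        field_simp
        ring
      rw [h1]
      linarith only [hEle, he₀1, htolν, hesν]
    -- Fock space
    obtain ⟨hcn0, F, hF, hFs, hF1, hFN, hFe, hFc⟩ := hCONV n L (ENNReal.ofReal μ) K v N Ψ' hK hv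
      hΨ'
    rw [hEe] at hFe
    obtain ⟨Q, hQ⟩ : ∃ Q : ℝ, Q = L ^ n * condN Ψ' := ⟨_, rfl⟩
    have hQ0 : 0 ≤ Q := by rw [hQ]; positivity
    -- the energy with the averaged part of the kinetic energy
    obtain ⟨E', hE'⟩ : ∃ E' : ℝ, E' = E + es * L ^ n := ⟨_, rfl⟩
    have hE'0 : 0 ≤ E' := by rw [hE']; positivity
    rw [← hE'] at hE2
    have hAN : A₁ * (N : ℝ) = 2 * γ₀ * (1 - 1 / x) * (1 - 0) * P := by
      rw [hA₁, hNν, hP]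
      ring
    obtain ⟨E₁, hE₁⟩ : ∃ E₁ : ℝ, E₁ = C₁ / x * P := ⟨_, rfl⟩
    have hE₁0 : 0 ≤ E₁ := by rw [hE₁]; positivity
    have hNhi0 : 0 ≤ N1 * L ^ n := by positivity
    have hcN2 : CE * (N1 * L ^ n) ≤ 2 * D / x * P := by
      have h1 : CE * (N1 * L ^ n) ≤ 2 * (CE * N) := by
        calc CE * (N1 * L ^ n) ≤ CE * (2 * ν * L ^ n) :=
              mul_le_mul_of_nonneg_left (mul_le_mul_of_nonneg_right hN1a hV.le) hCE0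
          _ = 2 * (CE * N) := by rw [hNν]; ring
      have h2 : 2 * D / x * P = 2 * (D / x * P) := by ring
      rw [h2]
      linarith only [h1, hcNb]
    have hA₂b2 : A₂ ≤ 1 + (1 + 2 * (2 * D)) / x := by
      refine hA₂b.trans ?_
      have : (1 + 2 * D) / x ≤ (1 + 2 * (2 * D)) / x :=
        div_le_div_of_nonneg_right (by linarith only [hD]) hx0.le
      linarith only [this]
    have hA₃b2 : A₃ ≤ 2 * D / x * P + γ₀ * (1 - 1 / x) * P := by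
      refine hA₃b.trans ?_
      have h2 : 2 * D / x * P = 2 * (D / x * P) := by ring
      have h3 : 0 ≤ D / x * P := mul_nonneg (div_nonneg (by linarith only [hD]) hx0.le) hP0.le
      rw [h2]
      linarith only [h3]
    have hexc : A₂ * E' + A₃ + CE * (N1 * L ^ n) ≤ A₁ * (N : ℝ) + E₁ := by
      rw [hE₁, hC₁]
      exact lE hS0 (by linarith only [hD]) hx4 hP0 hγ₀ hE'0 hE2 hA₂b2 hA₃b2 hcN2 hAN hux0.le
    obtain ⟨Ec, hEc⟩ : ∃ Ec : ℝ, Ec = E' + t * E₁ := ⟨_, rfl⟩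
    have hEc0 : 0 ≤ Ec := by rw [hEc]; positivity
    have hupc : Ec ≤ 2 * S / 2 * ν ^ 2 * (1 + e / 2) * L ^ n := by
      have h1 : 2 * S / 2 * ν ^ 2 * (1 + e / 2) * L ^ n = S * P * (1 + e / 2) := by
        rw [hP]
        ring
      rw [h1, hEc, hE₁]
      exact lUI hS0 hP0 hw1 hx ht hE2 lc4
    have hXX : ∀ y : ℝ, ℓ ≤ y → ENNReal.ofReal μ * (∑ c : Fin n, ⨆ k : ℕ, 4 ^ k *
        ENNReal.ofReal (sm n y (Pi.single c ((2 : ℝ)⁻¹ ^ k)))) +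
        2⁻¹ * ∫⁻ z, K z * ENNReal.ofReal (sm n y z) ≤ ENNReal.ofReal X := by
      intro y hy
      rw [hXd]
      refine costI hn1 hμ hZ1 hρ ?_ hcost0
      have h2 : Z * 1 ≤ Z * W := mul_le_mul_of_nonneg_left hW1 hZ0.le
      rw [hΛ] at hℓ1
      linarith only [h2, hy, hℓ1]
    have hLℓ' : ℓ ≤ L := by
      rw [hLℓ]
      exact le_mul_of_one_le_left hℓ0.le (one_le_pow₀ (by norm_num))
    have hXL := hXX L hLℓ'
    have hXℓ := hXX ℓ le_rfl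
    rw [hKd] at hFe hlowA hXL hXℓ
    have hens := oneN2 proof_step2 proof_base2 hMOM hHAT (Pool.Agent.W816.CB.cb_sm hHAT)
      hDIA hDE hTF (q := 2 ^ J) (tol := tol) Nat.one_le_two_pow hℓ0 (by rw [hLℓ]; push_cast; rfl)
      hv hκg0
      hv₁0.le hv1 he₀0 hE0 hQ0 hCa0 (by linarith only [hEle]) hF
      hFs hF1 hFN hFe.le (by rw [hFc, hQ]) hlowA hX0 hXL hXℓ hωB hω0 hξ hν hB1 hB2 hB3 hV1 hV2
      hN1e hes2
    rw [← hE', ← hTd, ← hKd] at hens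
    have hens2 := ens_conv (lw := fun F => ENNReal.ofReal μ * lowk R F) hens hN0.le hNhi0 hE'0
      hA₁0 hA₂0 hA₃0 hCE0 ht0.le hlow3 hE₁0 hexc
    rw [← hEc] at hens2
    have hens3 : HasEns volume enc (hf n L ℓ (2 ^ J)) N (N1 * L ^ n) Ec ((ξ + ω0) * (ℓ ^ n) ^ 2)
        ((√(Q / (L ^ n) ^ 2) + (√ω0 + √(ξ + ω0) + √(2 * (ξ + ω0)) + √(ξ + ω0) + √T)) *
          L ^ n) := by
      rw [henc]
      exact hens2
    have c3 := c3G2 (n := n) he0 hρ0 hν1 hℓ0 hω0d hξ hωξ hTle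
    have res2 := atEns Pool.Agent.W160.CC.bot2' hHAT hTF hℓ0 hLℓ hN1 hQ0 hEc0 (g := 2 * S)
      (by positivity) he0 he1 hν hupc hPc0 hPce ha0 haB ha₂0 ha₂B hcoh hHP
      (by
        have := mul_nonneg he0.le hN0.le
        linarith only [this]) hNhi0 (add_pos hξ0 hω0).le
      (by positivity) c3 hens3
    have h2 : Q / (L ^ n) ^ 2 = condN Ψ' / L ^ n := by
      rw [hQ]
      field_simp
    rw [h2, hν, mul_div_assoc', div_le_div_iff_of_pos_right hV] at res2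
    linarith only [res2, hΨc, hε'1]
  exact le_of_forall_pos_le_add fun ε' hε' => red ε' hε'

end

end Pool.Agent.Q233.BG
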