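import Pool.Agent.Q233.BG.CoreG

/-!
# Complete condensation with a gap: the final form
-/

set_option autoImplicit false

open MeasureTheory Filter Topology
open scoped ENNReal

namespace Pool.Agent.Q233.BG

open Pool.Agent.W761.CB Pool.Agent.W761.CC Pool.Agent.TH268.CC Pool.Agent.Y656

noncomputable section

section gen
variable {n N : ℕ} {L : ℝ} [Fact (0 < L)]

/-- bounded wave functions are square integrable -/
lemma wf2 {Φ : (Fin N → Tor n L) → ℂ} (h : IsWf Φ) : IsWf2 Φ := ⟨h.meas, h.symm, h.norm⟩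

lemma cond_le (hTF : S_TF) {Φ : (Fin N → Tor n L) → ℂ} (hΦ : IsWf2 Φ) : condN Φ ≤ N := by
  have hL : 0 < L := Fact.out
  have hV : 0 < L ^ n := by positivity
  have h1t : ∫⁻ x, ‖Φ x‖ₑ ^ 2 ≠ ⊤ := by rw [hΦ.norm]; exact ENNReal.one_ne_top
  rw [Pool.Agent.W376.CB.condN_eq hΦ.meas h1t, inv_mul_le_iff₀ hV]
  calc ∑ i : Fin N, ∫ p, Pool.Agent.W376.CB.Gf Φ i p
        ∂((volume : Measure (Fin N → Tor n L)).prod (volume : Measure (Tor n L)))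
      ≤ ∑ _i : Fin N, L ^ n := Finset.sum_le_sum fun i _ => (pairI hΦ.meas hΦ.norm hTF i).1
    _ = L ^ n * N := by simp [mul_comm]

/-- there is a wave function of finite energy -/
lemma exists_fin {μ R₀ : ℝ} {v : ℝ → ℝ≥0∞} (hμ : 0 < μ) (hv : Measurable v)
    (hvR : ∀ r, R₀ < r → v r = 0) {ρ : ℝ} (hNhi : (N : ℝ) ≤ ρ * L ^ n)
    (hρ : ρ * (2 * (4 * max 1 R₀) ^ n) ≤ 1) :
    ∃ Φ : (Fin N → Tor n L) → ℂ, IsWf Φ ∧ enN (ENNReal.ofReal μ) (fun _ => 0) v Φ ≠ ⊤ := by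
  have hTF := Pool.Agent.W135.CB.proof_tf
  have hLpos : 0 < L := Fact.out
  have hRv1 : 1 ≤ max 1 R₀ := le_max_left _ _
  have hvt0 : ∫⁻ z in {z : Fin n → ℝ | R₀ < el z}, v (el z) = 0 := by
    rw [setLIntegral_congr_fun (g := fun _ => 0)
      (measurableSet_lt measurable_const Pool.Agent.W612.CC.el_meas) fun z hz => hvR _ hz]
    simp
  have hTv : ∫⁻ z : Fin n → ℝ, vo R₀ v (el z) ≤ ENNReal.ofReal 0 := by
    rw [vo_int, hvt0]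
    exact bot_le
  have hgE : gEv (ENNReal.ofReal μ) (fun _ => 0) v (s1 n L (max 1 R₀)) ≤
      ENNReal.ofReal (16 * (4 * max 1 R₀) ^ n * (n * μ + 1) + 0) :=
    gE_D0 hTF hRv1 (le_max_right _ _) hμ le_rfl hv hTv (by simp)
  have hgv : gv (s1 n L (max 1 R₀)) ≤ ENNReal.ofReal ((4 * max 1 R₀) ^ n) :=
    gv_s1 (by linarith)
  have hN2 : 2 * (ENNReal.ofReal ((4 * max 1 R₀) ^ n) * N) ≤ ENNReal.ofReal (L ^ n) :=
    add_num (by linarith) hLpos hNhi hρ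
  obtain ⟨heefin, -⟩ := ee_diffv hTF (s1_Pf (n := n) (L := L) (max 1 R₀)) measurable_const hv hgE
    hgv ENNReal.ofReal_ne_top hN2 N le_rfl
  by_contra hcon
  push Not at hcon
  have h := near_ee (n := n) (L := L) (μ := ENNReal.ofReal μ) (K := fun _ => 0) (v := v)
    measurable_const hv (N := N) (a := ⊤) (b := 0) ENNReal.zero_ne_top (fun Φ hΦ => by
      rw [hcon Φ hΦ, add_zero])
  rw [add_zero, top_le_iff] at h
  exact heefin h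

end gen

lemma small (C : ℝ) {a : ℝ} (ha : 0 < a) : ∀ᶠ ρ in 𝓝[>] (0 : ℝ), C * ρ ^ a ≤ 1 := by
  have h1 : Tendsto (fun ρ : ℝ => C * ρ ^ a) (𝓝[>] 0) (𝓝 (C * 0)) := by
    have h2 : Tendsto (fun ρ : ℝ => ρ ^ a) (𝓝 0) (𝓝 ((0 : ℝ) ^ a)) :=
      (Real.continuousAt_rpow_const 0 a (Or.inr ha.le)).tendsto
    rw [Real.zero_rpow ha.ne'] at h2
    exact (h2.mono_left nhdsWithin_le_nhds).const_mul C
  rw [mul_zero] at h1
  exact (h1.eventually (gt_mem_nhds one_pos)).mono fun ρ h => h.le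

/-- The abstract argument: from one value of the gap to all larger ones. -/
theorem abs_gap {n N : ℕ} {L : ℝ} [Fact (0 < L)] {μ : ℝ} {v : ℝ → ℝ≥0∞}
    (hv : Measurable v) {κ₀ ω δ : ℝ} (hκ₀ : 0 ≤ κ₀) (hω : 0 < ω)
    (hfin : ∃ Φ : (Fin N → Tor n L) → ℂ, IsWf Φ ∧ enN (ENNReal.ofReal μ) (fun _ => 0) v Φ ≠ ⊤)
    (hcore : ∀ Ψ : (Fin N → Tor n L) → ℂ, IsWf2 Ψ →
      (∀ Φ : (Fin N → Tor n L) → ℂ, IsWf Φ →
        enN (ENNReal.ofReal μ) (kg n L κ₀) v Ψ ≤ enN (ENNReal.ofReal μ) (kg n L κ₀) v Φ +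
          ENNReal.ofReal (2 * ω)) → (1 - δ) * N ≤ condN Ψ) :
    (∀ κ : ℝ, κ₀ ≤ κ → ∀ Ψ : (Fin N → Tor n L) → ℂ, IsWf2 Ψ →
      (∀ Φ : (Fin N → Tor n L) → ℂ, IsWf2 Φ →
        enN (ENNReal.ofReal μ) (fun _ => 0) v Ψ + ENNReal.ofReal (κ * (N - condN Ψ)) ≤
          enN (ENNReal.ofReal μ) (fun _ => 0) v Φ + ENNReal.ofReal (κ * (N - condN Φ)) +
            ENNReal.ofReal ω) → (1 - δ) * N ≤ condN Ψ) ∧
    ∃ Ψ : (Fin N → Tor n L) → ℂ, IsWf2 Ψ ∧ (1 - δ) * N ≤ condN Ψ ∧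
      ∀ Φ : (Fin N → Tor n L) → ℂ, IsWf2 Φ → enN (ENNReal.ofReal μ) (fun _ => 0) v Ψ ≤
        enN (ENNReal.ofReal μ) (fun _ => 0) v Φ + ENNReal.ofReal (κ₀ * N + 2 * ω) := by
  have hTF := Pool.Agent.W135.CB.proof_tf
  have hCONV := conv2 hTF
  have hTRUNC := Pool.Agent.W376.CB.trunc
  obtain ⟨μ', hμ'⟩ : ∃ μ' : ℝ≥0∞, μ' = ENNReal.ofReal μ := ⟨_, rfl⟩
  rw [← hμ'] at hfin hcore ⊢
  -- the energy with the gap
  obtain ⟨H, hH⟩ : ∃ H : ℝ → ((Fin N → Tor n L) → ℂ) → ℝ≥0∞, H = fun κ Φ =>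
    enN μ' (fun _ => 0) v Φ + ENNReal.ofReal (κ * (N - condN Φ)) := ⟨_, rfl⟩
  have hHd : ∀ κ Φ, enN μ' (fun _ => 0) v Φ + ENNReal.ofReal (κ * (N - condN Φ)) = H κ Φ := by
    intro κ Φ
    rw [hH]
  have hHk : ∀ κ : ℝ, 0 ≤ κ → ∀ Φ : (Fin N → Tor n L) → ℂ, IsWf2 Φ →
      enN μ' (kg n L κ) v Φ = H κ Φ := by
    intro κ hκ Φ hΦ
    rw [enN_kg hTF hκ hΦ, hHd]
  have hd : ∀ Φ : (Fin N → Tor n L) → ℂ, IsWf2 Φ → 0 ≤ (N : ℝ) - condN Φ := fun Φ hΦ => by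
    linarith [cond_le hTF hΦ]
  -- a vector which almost minimises the energy for the gap `κ₀`
  obtain ⟨I, hI⟩ : ∃ I : ℝ≥0∞, I = ⨅ Φ : {Φ : (Fin N → Tor n L) → ℂ // IsWf Φ}, H κ₀ Φ.1 :=
    ⟨_, rfl⟩
  have hIfin : I ≠ ⊤ := by
    obtain ⟨Φ, hΦ, hΦf⟩ := hfin
    have h1 : I ≤ H κ₀ Φ := by
      rw [hI]
      exact iInf_le _ (⟨Φ, hΦ⟩ : {Φ : (Fin N → Tor n L) → ℂ // IsWf Φ})
    refine ne_top_of_le_ne_top ?_ h1
    rw [← hHd]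
    exact ENNReal.add_ne_top.2 ⟨hΦf, ENNReal.ofReal_ne_top⟩
  have hIlt : I < I + ENNReal.ofReal ω :=
    ENNReal.lt_add_right hIfin (by simpa using hω)
  obtain ⟨⟨Ψ₀, hΨ₀⟩, hΨ₀I⟩ : ∃ Φ : {Φ : (Fin N → Tor n L) → ℂ // IsWf Φ},
      H κ₀ Φ.1 < I + ENNReal.ofReal ω := by
    rw [hI] at hIlt ⊢
    exact iInf_lt_iff.1 hIlt
  simp only at hΨ₀I
  have hIle : ∀ Φ : (Fin N → Tor n L) → ℂ, IsWf Φ → I ≤ H κ₀ Φ := fun Φ hΦ => by
    rw [hI]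
    exact iInf_le _ (⟨Φ, hΦ⟩ : {Φ : (Fin N → Tor n L) → ℂ // IsWf Φ})
  have h2ω : ENNReal.ofReal (2 * ω) = ENNReal.ofReal ω + ENNReal.ofReal ω := by
    rw [← ENNReal.ofReal_add hω.le hω.le, two_mul]
  have hΨ₀c : (1 - δ) * N ≤ condN Ψ₀ := by
    refine hcore Ψ₀ (wf2 hΨ₀) fun Φ hΦ => ?_
    rw [hHk κ₀ hκ₀ _ (wf2 hΨ₀), hHk κ₀ hκ₀ _ (wf2 hΦ), h2ω, ← add_assoc]
    exact (hΨ₀I.le.trans (add_le_add (hIle Φ hΦ) le_rfl)).trans le_self_add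
  refine ⟨?_, Ψ₀, wf2 hΨ₀, hΨ₀c, ?_⟩
  · intro κ hκ Ψ hΨ hnear
    by_contra hcon
    push Not at hcon
    apply absurd (hcore Ψ hΨ ?_) (not_le.2 hcon)
    intro Φ hΦ
    rw [hHk κ₀ hκ₀ _ hΨ, hHk κ₀ hκ₀ _ (wf2 hΦ)]
    refine le_trans ?_ (add_le_add (hIle Φ hΦ) le_rfl)
    -- reals
    have hn := hnear Ψ₀ (wf2 hΨ₀)
    have hΨ₀f : H κ₀ Ψ₀ ≠ ⊤ := (hΨ₀I.trans_le le_top).ne
    have ha : enN μ' (fun _ => 0) v Ψ₀ ≠ ⊤ := by
      rw [← hHd] at hΨ₀f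
      exact (ENNReal.add_ne_top.1 hΨ₀f).1
    have hb : enN μ' (fun _ => 0) v Ψ ≠ ⊤ := by
      have : enN μ' (fun _ => 0) v Ψ + ENNReal.ofReal (κ * (N - condN Ψ)) ≠ ⊤ :=
        ne_top_of_le_ne_top (by finiteness) hn
      exact (ENNReal.add_ne_top.1 this).1
    obtain ⟨a, hadef⟩ : ∃ a : ℝ, a = (enN μ' (fun _ => 0) v Ψ₀).toReal := ⟨_, rfl⟩
    obtain ⟨b, hbdef⟩ : ∃ b : ℝ, b = (enN μ' (fun _ => 0) v Ψ).toReal := ⟨_, rfl⟩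
    have ha0 : 0 ≤ a := by rw [hadef]; exact ENNReal.toReal_nonneg
    have hb0 : 0 ≤ b := by rw [hbdef]; exact ENNReal.toReal_nonneg
    have hae : enN μ' (fun _ => 0) v Ψ₀ = ENNReal.ofReal a := by
      rw [hadef, ENNReal.ofReal_toReal ha]
    have hbe : enN μ' (fun _ => 0) v Ψ = ENNReal.ofReal b := by
      rw [hbdef, ENNReal.ofReal_toReal hb]
    obtain ⟨i, hidef⟩ : ∃ i : ℝ, i = I.toReal := ⟨_, rfl⟩
    have hi0 : 0 ≤ i := by rw [hidef]; exact ENNReal.toReal_nonneg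
    have hie : I = ENNReal.ofReal i := by rw [hidef, ENNReal.ofReal_toReal hIfin]
    have d0 := hd Ψ₀ (wf2 hΨ₀)
    have d1 := hd Ψ hΨ
    have hκ0 : 0 ≤ κ := hκ₀.trans hκ
    rw [hae, hbe, ← ENNReal.ofReal_add hb0 (by positivity),
      ← ENNReal.ofReal_add ha0 (by positivity), ← ENNReal.ofReal_add (by positivity) hω.le,
      ENNReal.ofReal_le_ofReal_iff (by positivity)] at hn
    rw [← hHd, hae, hie, ← ENNReal.ofReal_add ha0 (by positivity),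
      ← ENNReal.ofReal_add hi0 hω.le] at hΨ₀I
    have hΨr := (ENNReal.ofReal_lt_ofReal_iff (by positivity)).1 hΨ₀I
    rw [← hHd, hbe, hie, ← ENNReal.ofReal_add hb0 (by positivity),
      ← ENNReal.ofReal_add hi0 (by positivity)]
    apply ENNReal.ofReal_le_ofReal
    have h5 : (κ - κ₀) * (N - condN Ψ₀) ≤ (κ - κ₀) * (N - condN Ψ) :=
      mul_le_mul_of_nonneg_left (by linarith) (by linarith)
    linarith only [hn, hΨr, h5]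
  · intro Φ hΦ
    rcases eq_or_ne (enN μ' (fun _ => 0) v Φ) ⊤ with h | h
    · rw [h, top_add]
      exact le_top
    obtain ⟨Φ', hΦ', hΦe, -⟩ := hTRUNC n L μ' (fun _ => 0) v N Φ ω measurable_const hv hω hΦ h
    have hc0 : 0 ≤ condN Φ' :=
      (hCONV n L μ' (fun _ => 0) v N Φ' measurable_const hv hΦ').1
    have h1 : H κ₀ Φ' ≤ enN μ' (fun _ => 0) v Φ + ENNReal.ofReal ω + ENNReal.ofReal (κ₀ * N) := by
      rw [← hHd]
      refine add_le_add hΦe (ENNReal.ofReal_le_ofReal ?_)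
      exact mul_le_mul_of_nonneg_left (by linarith) hκ₀
    calc enN μ' (fun _ => 0) v Ψ₀ ≤ H κ₀ Ψ₀ := by
          rw [← hHd]
          exact le_self_add
      _ ≤ I + ENNReal.ofReal ω := hΨ₀I.le
      _ ≤ H κ₀ Φ' + ENNReal.ofReal ω := add_le_add (hIle Φ' hΦ') le_rfl
      _ ≤ enN μ' (fun _ => 0) v Φ + ENNReal.ofReal ω + ENNReal.ofReal (κ₀ * N) +
          ENNReal.ofReal ω := add_le_add h1 le_rfl
      _ = enN μ' (fun _ => 0) v Φ + ENNReal.ofReal (κ₀ * N + 2 * ω) := by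
          rw [ENNReal.ofReal_add (by positivity) (by positivity), h2ω]
          ring

end

end Pool.Agent.Q233.BG
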