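import Pool.Agent.Q233.BG.FinG

/-!
# Complete condensation with a gap: the theorem
-/

set_option autoImplicit false

open MeasureTheory Filter Topology
open scoped ENNReal

namespace Pool.Agent.Q233.BG

open Pool.Agent.W761.CB Pool.Agent.W761.CC Pool.Agent.TH268.CC Pool.Agent.Y656

noncomputable section

/-- exponents, first part -/
lemma expo_one {n : ℕ} {θ Cg ρ w Z : ℝ} (hn : 3 ≤ n) (hθ : 0 < θ) (hCg : 0 < Cg)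
    (hρ : 0 < ρ) (hρ1 : ρ ≤ 1) (hw : w = ρ ^ (-θ)) (hZ : Z = ρ ^ (-(1 / 2) : ℝ))
    (h : 2 * Cg * ρ ^ θ ≤ 1) :
    Cg * w ^ 2 / (Z * w ^ 5) ^ n ≤ ρ ^ ((n : ℝ) / 2 + 12 * θ) / 2 := by
  have hn3 : (3 : ℝ) ≤ n := by exact_mod_cast hn
  have h1 : w ^ 2 / (Z * w ^ 5) ^ n = ρ ^ ((n : ℝ) / 2 + (5 * n - 2) * θ) := by
    rw [hw, hZ, ← Real.rpow_natCast (ρ ^ (-θ)) 2, ← Real.rpow_natCast (ρ ^ (-θ)) 5,
      ← Real.rpow_mul hρ.le, ← Real.rpow_mul hρ.le, ← Real.rpow_add hρ,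
      ← Real.rpow_natCast _ n, ← Real.rpow_mul hρ.le, ← Real.rpow_sub hρ]
    congr 1
    push_cast
    ring
  have h2 : ρ ^ ((n : ℝ) / 2 + (5 * n - 2) * θ) ≤ ρ ^ θ * ρ ^ ((n : ℝ) / 2 + 12 * θ) := by
    rw [← Real.rpow_add hρ]
    apply Real.rpow_le_rpow_of_exponent_ge hρ hρ1
    nlinarith
  have h3 : 0 < ρ ^ ((n : ℝ) / 2 + 12 * θ) := by positivity
  calc Cg * w ^ 2 / (Z * w ^ 5) ^ n = Cg * (w ^ 2 / (Z * w ^ 5) ^ n) := by ring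
    _ ≤ Cg * (ρ ^ θ * ρ ^ ((n : ℝ) / 2 + 12 * θ)) := by
        rw [h1]
        exact mul_le_mul_of_nonneg_left h2 hCg.le
    _ = (2 * Cg * ρ ^ θ) * ρ ^ ((n : ℝ) / 2 + 12 * θ) / 2 := by ring
    _ ≤ 1 * ρ ^ ((n : ℝ) / 2 + 12 * θ) / 2 := by
        apply div_le_div_of_nonneg_right _ two_pos.le
        exact mul_le_mul_of_nonneg_right h h3.le
    _ = _ := by rw [one_mul]

/-- exponents, second part -/
lemma expo_two {n : ℕ} {θ Cg Ce ρ w Z : ℝ} (hn : 3 ≤ n) (hθ : 0 < θ) (hCg : 0 < Cg)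
    (hCe : 0 < Ce)
    (hρ : 0 < ρ) (hρ1 : ρ ≤ 1) (hw : w = ρ ^ (-θ)) (hZ : Z = ρ ^ (-(1 / 2) : ℝ))
    (h : 64 / (Cg * Ce) * ρ ^ (4 * θ) ≤ 1) :
    2 * ρ ^ ((n : ℝ) / 2 + 6 * n * θ) ≤ Cg * Ce * w / (32 * (Z * w ^ 5) ^ n) := by
  have hn3 : (3 : ℝ) ≤ n := by exact_mod_cast hn
  have h1 : w / (Z * w ^ 5) ^ n = ρ ^ ((n : ℝ) / 2 + (5 * n - 1) * θ) := by
    rw [hw, hZ, ← Real.rpow_natCast (ρ ^ (-θ)) 5, ← Real.rpow_mul hρ.le, ← Real.rpow_add hρ,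
      ← Real.rpow_natCast _ n, ← Real.rpow_mul hρ.le, ← Real.rpow_sub hρ]
    congr 1
    push_cast
    ring
  have h2 : ρ ^ ((n : ℝ) / 2 + 6 * n * θ) ≤
      ρ ^ (4 * θ) * ρ ^ ((n : ℝ) / 2 + (5 * n - 1) * θ) := by
    rw [← Real.rpow_add hρ]
    apply Real.rpow_le_rpow_of_exponent_ge hρ hρ1
    nlinarith
  have h3 : 0 < ρ ^ ((n : ℝ) / 2 + (5 * n - 1) * θ) := by positivity
  have h4 : Cg * Ce * w / (32 * (Z * w ^ 5) ^ n) =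
      Cg * Ce / 32 * ρ ^ ((n : ℝ) / 2 + (5 * n - 1) * θ) := by
    rw [← h1]
    ring
  have h5 : 64 * ρ ^ (4 * θ) ≤ Cg * Ce := by
    have h6 := mul_le_mul_of_nonneg_left h (by positivity : 0 ≤ Cg * Ce)
    have h7 : Cg * Ce * (64 / (Cg * Ce) * ρ ^ (4 * θ)) = 64 * ρ ^ (4 * θ) := by
      field_simp
    linarith
  rw [h4]
  calc 2 * ρ ^ ((n : ℝ) / 2 + 6 * n * θ) ≤
      2 * (ρ ^ (4 * θ) * ρ ^ ((n : ℝ) / 2 + (5 * n - 1) * θ)) :=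
        mul_le_mul_of_nonneg_left h2 two_pos.le
    _ = (64 * ρ ^ (4 * θ)) * ρ ^ ((n : ℝ) / 2 + (5 * n - 1) * θ) / 32 := by ring
    _ ≤ (Cg * Ce) * ρ ^ ((n : ℝ) / 2 + (5 * n - 1) * θ) / 32 := by
        apply div_le_div_of_nonneg_right _ (by norm_num)
        exact mul_le_mul_of_nonneg_right h5 h3.le
    _ = _ := by ring

/-- **Complete condensation with a gap below the Lee-Huang-Yang order.** -/
theorem gapMain (n m : ℕ) (μ R₀ : ℝ) (v : ℝ → ℝ≥0∞) (hn : 3 ≤ n) (hμ : 0 < μ)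
    (hm : m = n ^ 3 + 4 * n ^ 2) (hv : Measurable v) (hvR : ∀ r, R₀ < r → v r = 0)
    (hv0 : ∫⁻ z : Fin n → ℝ, v (el z) ≠ 0) :
    ∃ ρ₀ : ℝ, 0 < ρ₀ ∧ ∀ ρ : ℝ, 0 < ρ → ρ ≤ ρ₀ → ∃ L₀ : ℝ,
      ∀ (L : ℝ) [Fact (0 < L)], L₀ ≤ L →
      ∀ N : ℕ, ρ / 2 * L ^ n ≤ N → (N : ℝ) ≤ ρ * L ^ n →
      (∀ κ : ℝ, ρ ^ ((n : ℝ) / 2 + 1 / (2 * m)) ≤ κ →
        ∀ Ψ : (Fin N → Tor n L) → ℂ, IsWf2 Ψ →
        (∀ Φ : (Fin N → Tor n L) → ℂ, IsWf2 Φ →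
          enN (ENNReal.ofReal μ) (fun _ => 0) v Ψ + ENNReal.ofReal (κ * (N - condN Ψ)) ≤
            enN (ENNReal.ofReal μ) (fun _ => 0) v Φ + ENNReal.ofReal (κ * (N - condN Φ)) +
              ENNReal.ofReal (ρ ^ ((n : ℝ) / 2 + n / (4 * m)) * N)) →
        (1 - ρ ^ (1 / (50 * m) : ℝ)) * N ≤ condN Ψ) ∧
      ∃ Ψ : (Fin N → Tor n L) → ℂ, IsWf2 Ψ ∧ (1 - ρ ^ (1 / (50 * m) : ℝ)) * N ≤ condN Ψ ∧
        ∀ Φ : (Fin N → Tor n L) → ℂ, IsWf2 Φ → enN (ENNReal.ofReal μ) (fun _ => 0) v Ψ ≤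
          enN (ENNReal.ofReal μ) (fun _ => 0) v Φ +
            ENNReal.ofReal (ρ ^ ((n : ℝ) / 2 + 1 / (2 * m)) * N) := by
  obtain ⟨Ce, Cg, w₀, hCe, hCg, hw₀, hcore⟩ := coreG n 5 m μ R₀ v hn hμ hm hv hvR hv0
  have hm0 : 0 < m := by rw [hm]; positivity
  have hm0' : (0 : ℝ) < m := by exact_mod_cast hm0
  have hn3 : (3 : ℝ) ≤ n := by exact_mod_cast hn
  obtain ⟨θ, hθ⟩ : ∃ θ : ℝ, θ = 1 / (24 * m) := ⟨_, rfl⟩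
  have hθ0 : 0 < θ := by rw [hθ]; positivity
  have x1 : (n : ℝ) / 2 + 1 / (2 * m) = (n : ℝ) / 2 + 12 * θ := by
    rw [hθ]; field_simp; ring
  have x2 : (n : ℝ) / 2 + n / (4 * m) = (n : ℝ) / 2 + 6 * n * θ := by
    rw [hθ]; field_simp; ring
  have x3 : (1 / (50 * m) : ℝ) = θ / 2 - θ / 50 := by
    rw [hθ]; field_simp; norm_num
  have hev : ∀ᶠ ρ in 𝓝[>] (0 : ℝ), 2 * Cg * ρ ^ θ ≤ 1 ∧ w₀ * ρ ^ θ ≤ 1 ∧
      64 / (Cg * Ce) * ρ ^ (4 * θ) ≤ 1 ∧ 3 * √Ce * ρ ^ (θ / 50) ≤ 1 ∧ 4 * ρ ^ (6 * θ) ≤ 1 ∧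
      (2 * (4 * max 1 R₀) ^ n) * ρ ^ (1 : ℝ) ≤ 1 ∧ 1 * ρ ^ (1 : ℝ) ≤ 1 :=
    (small _ hθ0).and ((small _ hθ0).and ((small _ (by positivity)).and
      ((small _ (by positivity)).and ((small _ (by positivity)).and
        ((small _ one_pos).and (small _ one_pos))))))
  obtain ⟨ρ₀, hρ₀, hsub⟩ := mem_nhdsGT_iff_exists_Ioc_subset.1 hev
  refine ⟨ρ₀, hρ₀, ?_⟩
  intro ρ hρ hρρ
  obtain ⟨e1, e2, e3, e4, e5, e6, e7⟩ := hsub ⟨hρ, hρρ⟩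
  rw [Real.rpow_one] at e6 e7
  rw [one_mul] at e7
  obtain ⟨w, hw⟩ : ∃ w : ℝ, w = ρ ^ (-θ) := ⟨_, rfl⟩
  obtain ⟨Z, hZ⟩ : ∃ Z : ℝ, Z = ρ ^ (-(1 / 2) : ℝ) := ⟨_, rfl⟩
  have hw0 : 0 < w := by rw [hw]; positivity
  have hZ0 : 0 < Z := by rw [hZ]; positivity
  have hww : w₀ ≤ w := by
    have h1 : w * ρ ^ θ = 1 := by
      rw [hw, ← Real.rpow_add hρ]
      simp
    have h2 : 0 < ρ ^ θ := by positivity
    by_contra hcon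
    push Not at hcon
    have := mul_lt_mul_of_pos_right hcon h2
    linarith
  have hZw : Z = w ^ ((2 * 5 + 2) * m) := by
    rw [hZ, hw, ← Real.rpow_natCast, ← Real.rpow_mul hρ.le]
    congr 1
    rw [hθ]
    push_cast
    field_simp
    norm_num
  have hρZ : ρ = 1 / Z ^ 2 := by
    rw [hZ, ← Real.rpow_natCast, ← Real.rpow_mul hρ.le]
    norm_num
    rw [Real.rpow_neg hρ.le, Real.rpow_one, inv_inv]
  have hZinv : 1 / Z = ρ ^ (1 / 2 : ℝ) := by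
    rw [hZ, Real.rpow_neg hρ.le, one_div, inv_inv]
  obtain ⟨κ₀, hκ₀⟩ : ∃ κ₀ : ℝ, κ₀ = ρ ^ ((n : ℝ) / 2 + 12 * θ) / 2 := ⟨_, rfl⟩
  have hκ₀0 : 0 < κ₀ := by rw [hκ₀]; positivity
  have y1 : Cg * w ^ 2 / (Z * w ^ 5) ^ n ≤ κ₀ := by
    rw [hκ₀]
    exact expo_one hn hθ0 hCg hρ e7 hw hZ e1
  have y2 : κ₀ ≤ 1 / Z := by
    have h1 : ρ ^ ((n : ℝ) / 2 + 12 * θ) ≤ ρ ^ (1 / 2 : ℝ) := by
      apply Real.rpow_le_rpow_of_exponent_ge hρ e7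
      linarith
    have h2 : 0 < ρ ^ ((n : ℝ) / 2 + 12 * θ) := by positivity
    rw [hZinv, hκ₀]
    linarith
  have y3 : 2 * ρ ^ ((n : ℝ) / 2 + 6 * n * θ) ≤ Cg * Ce * w / (32 * (Z * w ^ 5) ^ n) :=
    expo_two hn hθ0 hCg hCe hρ e7 hw hZ e3
  have y4 : 3 * √(Ce / w) ≤ ρ ^ (1 / (50 * m) : ℝ) := by
    have h1 : √(Ce / w) = √Ce * ρ ^ (θ / 2) := by
      rw [hw, Real.rpow_neg hρ.le, div_inv_eq_mul, Real.sqrt_mul hCe.le,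
        Real.sqrt_eq_rpow (ρ ^ θ), ← Real.rpow_mul hρ.le]
      congr 2
      ring
    have h2 : ρ ^ (θ / 2) = ρ ^ (θ / 50) * ρ ^ (θ / 2 - θ / 50) := by
      rw [← Real.rpow_add hρ]
      congr 1
      ring
    have h3 : 0 < ρ ^ (θ / 2 - θ / 50) := by positivity
    rw [h1, x3, h2]
    calc 3 * (√Ce * (ρ ^ (θ / 50) * ρ ^ (θ / 2 - θ / 50)))
        = (3 * √Ce * ρ ^ (θ / 50)) * ρ ^ (θ / 2 - θ / 50) := by ring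
      _ ≤ 1 * ρ ^ (θ / 2 - θ / 50) := mul_le_mul_of_nonneg_right e4 h3.le
      _ = _ := one_mul _
  have y5 : κ₀ + 2 * ρ ^ ((n : ℝ) / 2 + 6 * n * θ) ≤ ρ ^ ((n : ℝ) / 2 + 12 * θ) := by
    have h1 : ρ ^ ((n : ℝ) / 2 + 6 * n * θ) ≤ ρ ^ (6 * θ) * ρ ^ ((n : ℝ) / 2 + 12 * θ) := by
      rw [← Real.rpow_add hρ]
      apply Real.rpow_le_rpow_of_exponent_ge hρ e7
      nlinarith
    have h2 : 0 < ρ ^ ((n : ℝ) / 2 + 12 * θ) := by positivity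
    have h3 := mul_le_mul_of_nonneg_right e5 h2.le
    rw [hκ₀]
    linarith
  obtain ⟨L₀, hL₀⟩ := hcore w Z ρ hww hZw hρZ
  refine ⟨L₀, ?_⟩
  intro L _ hL N hNlo hNhi
  have hL0 : 0 < L := Fact.out
  have hN0 : (0 : ℝ) < N := lt_of_lt_of_le (by positivity) hNlo
  obtain ⟨ω, hω⟩ : ∃ ω : ℝ, ω = ρ ^ ((n : ℝ) / 2 + 6 * n * θ) * N := ⟨_, rfl⟩
  have hω0 : 0 < ω := by rw [hω]; positivity
  obtain ⟨hA, Ψ₀, hΨ₀, hΨ₀c, hΨ₀e⟩ := abs_gap (n := n) (N := N) (L := L) (μ := μ) (v := v) hv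
    (κ₀ := κ₀) (ω := ω) (δ := 3 * √(Ce / w)) hκ₀0.le hω0
    (exists_fin hμ hv hvR hNhi (by rw [mul_comm]; exact e6))
    (fun Ψ hΨ h => hL₀ L κ₀ hL y1 y2 N hNlo hNhi Ψ hΨ fun Φ hΦ => (h Φ hΦ).trans (by
      refine add_le_add le_rfl (ENNReal.ofReal_le_ofReal ?_)
      rw [hω]
      have := mul_le_mul_of_nonneg_right y3 hN0.le
      linarith))
  have hfr : (1 - ρ ^ (1 / (50 * m) : ℝ)) * N ≤ (1 - 3 * √(Ce / w)) * N :=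
    mul_le_mul_of_nonneg_right (by linarith) hN0.le
  refine ⟨?_, Ψ₀, hΨ₀, hfr.trans hΨ₀c, ?_⟩
  · intro κ hκ Ψ hΨ h
    refine hfr.trans (hA κ ?_ Ψ hΨ fun Φ hΦ => ?_)
    · refine le_trans ?_ hκ
      rw [x1, hκ₀]
      have h2 : 0 < ρ ^ ((n : ℝ) / 2 + 12 * θ) := by positivity
      linarith
    · have := h Φ hΦ
      rw [x2, ← hω] at this
      exact this
  · intro Φ hΦ
    refine (hΨ₀e Φ hΦ).trans (add_le_add le_rfl (ENNReal.ofReal_le_ofReal ?_))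
    rw [x1, hω]
    have := mul_le_mul_of_nonneg_right y5 hN0.le
    linarith

end

end Pool.Agent.Q233.BG
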