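import Pool.Agent.TH268.CC.All
import Pool.Agent.Q233.BG.Gap

/-!
# The chain of scales with one step, for a hopping between all pairs of points: soft potentials
-/

set_option autoImplicit false

open MeasureTheory
open scoped ENNReal

namespace Pool.Agent.Q233.BG

open Pool.Agent.W761.CB Pool.Agent.TH268.CC

noncomputable section

/-- The ensemble at the scale `ℓ`, from the amplitude of the whole torus in one step. -/
theorem oneE2 (hS : S_STEP2) (hB : S_BASE2) (hM : S_MOM) (hH : S_HAT) (hSM : S_SM)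
    (hD : S_DIA) (hDE : S_DE) (hTF : S_TF)
    {n q : ℕ} {L ℓ : ℝ} [Fact (0 < L)] (hq : 1 ≤ q) (hℓ : 0 < ℓ) (hL : L = q * ℓ) {μ : ℝ≥0∞}
    {K : (Fin n → ℝ) → ℝ≥0∞} {v : ℝ → ℝ≥0∞} (hK : Measurable K) (hv : Measurable v) {v₁ : ℝ}
    (hv0 : 0 ≤ v₁) (hv1 : ∫⁻ z : Fin n → ℝ, v (el z) ≤ ENNReal.ofReal v₁)
    {e E Q Ca : ℝ} {N : ℕ} (he0 : 0 ≤ e) (hE : 0 ≤ E) (hQ : 0 ≤ Q) (hCa : 0 ≤ Ca)
    {ψ : Multiset (Tor n L) → ℂ} (hψ : EB ψ) (hψs : ∀ S, Multiset.card S ≠ N → ψ S = 0)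
    (hψ1 : nE volume ψ = 1)
    (hψN : nuE volume ψ = ENNReal.ofReal N) (hψE : en μ K v ψ ≤ ENNReal.ofReal E)
    (hψQ : nE volume (ag volume (fun _ => 1) ψ) ≤ ENNReal.ofReal Q)
    (hlow : ∀ F : Multiset (Tor n L) → ℂ, EB F → ENNReal.ofReal e * nE volume F ≤
      en μ K v F + ENNReal.ofReal Ca * dm volume N F)
    {X : ℝ} (hX0 : 0 ≤ X)
    (hXL : μ * (∑ c : Fin n, ⨆ k : ℕ, 4 ^ k *
        ENNReal.ofReal (sm n L (Pi.single c ((2 : ℝ)⁻¹ ^ k)))) +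
      2⁻¹ * ∫⁻ z, K z * ENNReal.ofReal (sm n L z) ≤ ENNReal.ofReal X)
    (hXℓ : μ * (∑ c : Fin n, ⨆ k : ℕ, 4 ^ k *
        ENNReal.ofReal (sm n ℓ (Pi.single c ((2 : ℝ)⁻¹ ^ k)))) +
      2⁻¹ * ∫⁻ z, K z * ENNReal.ofReal (sm n ℓ z) ≤ ENNReal.ofReal X)
    {ωB ω0 g : ℝ} (hωB : 0 < ωB) (hω0 : 0 < ω0) (hg0 : 0 < g)
    (hg : ∀ b : Tor n L → Tor n L → ℝ≥0∞, Measurable (fun p : Tor n L × Tor n L => b p.1 p.2) →
      ENNReal.ofReal g * ∫⁻ x, ∫⁻ y, b x y ≤ ∫⁻ z, K z * ∫⁻ x, b (x + pr L z) x)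
    {V1 V2 E1 Et : ℝ} (hV1 : V1 = 4 * ωB * L ^ n * N + (7 * ωB ^ 2 * (L ^ n) ^ 2 + ωB * L ^ n))
    (hV2 : V2 = V1 + 4 * ω0 * ℓ ^ n * (N + ωB * L ^ n) +
      (7 * ω0 ^ 2 * (L ^ n) ^ 2 + ω0 * L ^ n))
    (hE1 : E1 = E + 2 * ωB * v₁ * N + (25 * ωB ^ 2 * v₁ + ωB * X) * L ^ n)
    (hEt : Et = E1 + 2 * ω0 * v₁ * (N + ωB * L ^ n) + (25 * ω0 ^ 2 * v₁ + ω0 * X) * L ^ n) :
    HasEns2 volume (en μ K v) (hf n L ℓ q) N (N + ωB * L ^ n + ω0 * L ^ n) Et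
      (1 / ω0 + (ℓ ^ n) ^ 2 * ω0)
      (√(Q + ωB * (L ^ n) ^ 2) + √(1 / ωB + (L ^ n) ^ 2 * ωB) +
        √(1 / ωB + (L ^ n) ^ 2 * ωB + ω0 * (L ^ n) ^ 2) +
        L ^ n / ℓ ^ n * √(1 / ω0 + (ℓ ^ n) ^ 2 * ω0) + √((Et + Ca * √V2 - e) / g)) N V2 := by
  have hN : (0 : ℝ) ≤ N := Nat.cast_nonneg N
  have hLpos : 0 < L := Fact.out
  have hV : (0 : ℝ) < L ^ n := by positivity
  have hM0 : (0 : ℝ) < ℓ ^ n := by positivity
  obtain ⟨hvol, -, -, -, -, -, -, -⟩ := hTF n L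
  have hVr : (volume (Set.univ : Set (Tor n L))).toReal = L ^ n := by
    rw [hvol, ENNReal.toReal_ofReal hV.le]
  obtain ⟨a1, a2, a3, a4, a5⟩ := hH n L L 1 le_rfl (by push_cast; ring)
  obtain ⟨b1, b2, b3, b4, -⟩ := hH n L ℓ q hq hL
  have hc : Fintype.card (Fin n → Fin 1) = 1 := by simp
  have hV10 : 0 ≤ V1 := by rw [hV1]; positivity
  have hE10 : 0 ≤ E1 := by rw [hE1]; positivity
  -- the first measurement
  obtain ⟨A, hA, Lα, c, hins, hmom⟩ := hM (Tor n L) volume (Fin n → Fin 1) (hf n L L 1)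
    ωB (L ^ n) hωB (fun i => a1 _) (fun i x => (a2 _ x).1) a3 (fun i => a4 _)
  rw [hVr] at hmom
  have hde := hDE n L μ K v (Fin n → Fin 1) (hf n L L 1) ωB (L ^ n) X v₁
    (sm n L) A Lα c hK hv (sm_meas n L) hωB hX0 hv0 (fun z => by unfold sm; positivity) hins
    hv1 (hSM n L L 1 le_rfl (by push_cast; ring)) hXL
  rw [← hVr] at hins
  have key0 := hB (Tor n L) volume (Fin n → Fin 1) (en μ K v) (hf n L L 1) ωB
    (2 * ωB * v₁) ((25 * ωB ^ 2 * v₁ + ωB * X) * L ^ n) (4 * ωB * L ^ n)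
    (7 * ωB ^ 2 * (L ^ n) ^ 2 + ωB * L ^ n) E Q N A Lα c ψ hc
    (fun i x => a5 rfl _ x) hωB (by positivity) (by positivity) (by positivity)
    (by positivity) hE hQ hψ hψs hψ1 hψN hψE hψQ hins hmom hde
  rw [hVr] at key0
  have key1 : HasEns2 volume (en μ K v) (hf n L L 1) N (N + ωB * L ^ n) E1
      (1 / ωB + (L ^ n) ^ 2 * ωB)
      (√(Q + ωB * (L ^ n) ^ 2) + √(1 / ωB + (L ^ n) ^ 2 * ωB)) N V1 :=
    key0.mono le_rfl le_rfl (le_of_eq hE1.symm) le_rfl le_rfl (le_of_eq hV1.symm)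
  -- the step
  obtain ⟨A', hA', Lα', c', hins', hmom'⟩ := hM (Tor n L) volume (Fin n → Fin q) (hf n L ℓ q)
    ω0 (ℓ ^ n) hω0 (fun i => b1 _) (fun i x => (b2 _ x).1) b3 (fun i => b4 _)
  rw [hVr] at hmom'
  have hde' := hDE n L μ K v (Fin n → Fin q) (hf n L ℓ q) ω0 (ℓ ^ n) X v₁
    (sm n ℓ) A' Lα' c' hK hv (sm_meas n ℓ) hω0 hX0 hv0 (fun z => by unfold sm; positivity) hins'
    hv1 (hSM n L ℓ q hq hL) hXℓ
  have hdia := hD n L μ K v (Fin n → Fin 1) (hf n L L 1) g hK hv hg0.le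
    (fun i => a1 _) (fun i x => (a2 _ x).1) (fun i x => (a2 _ x).2) (fun b hb => by
      refine le_trans (le_of_eq ?_) (hg b hb)
      congr 1
      refine lintegral_congr fun x => lintegral_congr fun y => ?_
      have e1 : ∀ i : Fin n → Fin 1, ENNReal.ofReal (hf n L L 1 i x * hf n L L 1 i y) = 1 := by
        intro i
        rw [hf, hf, a5 rfl, a5 rfl, mul_one, ENNReal.ofReal_one]
      simp only [e1, Finset.sum_const, Finset.card_univ, hc, one_smul, one_mul])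
  have key := hS (Tor n L) volume (Fin n → Fin q) (Fin n → Fin 1) (en μ K v)
    (hf n L ℓ q) (hf n L L 1) (fun _ _ => 1) ω0 (ℓ ^ n) (L ^ n) g
    (2 * ω0 * v₁) ((25 * ω0 ^ 2 * v₁ + ω0 * X) * L ^ n) (4 * ω0 * ℓ ^ n)
    (7 * ω0 ^ 2 * (L ^ n) ^ 2 + ω0 * L ^ n) e Ca N (N + ωB * L ^ n)
    E1 (1 / ωB + (L ^ n) ^ 2 * ωB)
    (√(Q + ωB * (L ^ n) ^ 2) + √(1 / ωB + (L ^ n) ^ 2 * ωB))
    V1 N A' Lα' c' (fun i => b1 _) (fun i x => (b2 _ x).1) b3 (fun i => b4 _)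
    (fun i => a1 _) (fun i x => (a2 _ x).1) (fun i x => (a2 _ x).2) (fun i => a4 _)
    (fun i' x => by
      have h1 : hf n L L 1 i' x = 1 := a5 rfl _ x
      rw [h1]
      simp only [one_mul]
      exact (b3 x).symm) (fun _ _ => zero_le_one) (fun _ => by simp)
    hω0 hg0 (by positivity) (by positivity) (by positivity) (by positivity) he0 hCa hN
    (by positivity) hE10 (by positivity) (by positivity)
    hV10 hdia hlow hins' hmom' hde' key1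
  rw [hVr] at key
  have hcI : (Fintype.card (Fin n → Fin q) : ℝ) = L ^ n / ℓ ^ n := by
    rw [Fintype.card_fun, Fintype.card_fin, Fintype.card_fin, eq_div_iff (by positivity)]
    rw [Nat.cast_pow, ← mul_pow, ← hL]
  rw [hcI, hc, ← hEt, ← hV2, Nat.cast_one, one_mul, one_mul] at key
  exact key

end

end Pool.Agent.Q233.BG
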